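import Pool.Agent.MP_a7b5fd_co.h3.Mux

-- ======== part 0: formerly Pool.Agent.MP_a7b5fd_co.h11.Bal
section MrgPart0

/-! A greedy colouring that keeps many weighted counts balanced, and three covering steps. -/

set_option autoImplicit false

namespace Pool.Agent.MP_a7b5fd_co.H11

open Finset Real Pool.Agent.MP_a7b5fd_co.H39

/-- Colour the vertices one after the other; the weights may depend on the earlier colours. -/
theorem balanced {n : ℕ} {Y I : Type} [Fintype Y] [Fintype I] [Nonempty Y] (K : ℕ) (hK : 0 < K)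
    (ω : I → Fin n → (Fin n → Y) → Y → ℝ) (M : I → Fin n → ℝ)
    (Bad : Fin n → (Fin n → Y) → Y → Prop)
    (h0 : ∀ i v c y, 0 ≤ ω i v c y) (h1 : ∀ i v c y, ω i v c y ≤ 1)
    (hdω : ∀ i v c c', (∀ w < v, c w = c' w) → ω i v c = ω i v c')
    (hdB : ∀ v c c' y, (∀ w < v, c w = c' w) → Bad v c y → Bad v c' y)
    (hM : ∀ i v c, ∑ y, ω i v c y ≤ M i v)
    (hF : ∀ v c, ∃ F : Finset Y, K ≤ F.card ∧ ∀ y ∈ F, ¬Bad v c y) :
    ∃ c : Fin n → Y, (∀ v, ¬Bad v c (c v)) ∧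
      ∀ i, ∑ v, ω i v c (c v) ≤ 2 * (log (Fintype.card I) + (∑ v, M i v) / K) := by
  classical
  have hK' : (0 : ℝ) < K := by exact_mod_cast hK
  have key : ∀ t, t ≤ n → ∃ c : Fin n → Y, (∀ v : Fin n, (v : ℕ) < t → ¬Bad v c (c v)) ∧
      ∑ i, ∏ v ∈ univ.filter (fun v : Fin n => (v : ℕ) < t),
        (1 + ω i v c (c v)) / exp (M i v / K) ≤ Fintype.card I := by
    intro t
    induction t with
    | zero => exact fun _ => ⟨fun _ => Classical.arbitrary Y, by simp, by simp⟩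
    | succ t ih =>
      intro ht
      obtain ⟨c, hc1, hc2⟩ := ih (by omega)
      let a : Fin n := ⟨t, ht⟩
      obtain ⟨F, hF1, hF2⟩ := hF a c
      have hF3 : (K : ℝ) ≤ F.card := by exact_mod_cast hF1
      set P : I → ℝ := fun i => ∏ v ∈ univ.filter (fun v : Fin n => (v : ℕ) < t),
        (1 + ω i v c (c v)) / exp (M i v / K) with hP
      have hP0 : ∀ i, 0 ≤ P i := fun i => prod_nonneg fun v _ =>
        div_nonneg (by linarith [h0 i v c (c v)]) (exp_pos _).le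
      obtain ⟨y, hy1, hy2⟩ := exists_le_of_sum_le (s := F)
        (f := fun y => ∑ i, (1 + ω i a c y) / exp (M i a / K) * P i)
        (g := fun _ => (Fintype.card I : ℝ)) (card_pos.1 (by omega)) (by
          rw [sum_comm, sum_const, nsmul_eq_mul]
          refine le_trans ?_ (mul_le_mul_of_nonneg_left hc2 (Nat.cast_nonneg _))
          rw [mul_sum]
          refine sum_le_sum fun i _ => ?_
          rw [← sum_mul, ← sum_div]
          refine mul_le_mul_of_nonneg_right ?_ (hP0 i)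
          rw [div_le_iff₀ (exp_pos _), sum_add_distrib, sum_const, nsmul_eq_mul, mul_one]
          have e1 : ∑ y ∈ F, ω i a c y ≤ M i a :=
            (sum_le_sum_of_subset_of_nonneg (subset_univ F) fun y _ _ => h0 i a c y).trans
              (hM i a c)
          have e0 : 0 ≤ M i a := (sum_nonneg fun y _ => h0 i a c y).trans e1
          have e2 := add_one_le_exp (M i a / K)
          have e3 : M i a ≤ F.card * (M i a / K) := by
            rw [← mul_div_assoc, le_div_iff₀ hK']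
            nlinarith
          nlinarith)
      have hag : ∀ v : Fin n, (v : ℕ) < t + 1 → ∀ w < v, c w = Function.update c a y w := by
        intro v hv w hw
        rw [Function.update_of_ne]
        intro e
        have : (w : ℕ) < v := hw
        have : (w : ℕ) = t := congrArg Fin.val e
        omega
      have hne : ∀ v : Fin n, (v : ℕ) < t → v ≠ a := fun v hv e => by
        have : (v : ℕ) = t := congrArg Fin.val e
        omega
      refine ⟨Function.update c a y, fun v hv hb => ?_, ?_⟩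
      · have hb' := hdB v _ c _ (fun w hw => (hag v hv w hw).symm) hb
        rcases Nat.lt_succ_iff_lt_or_eq.1 hv with h | h
        · rw [Function.update_of_ne (hne v h)] at hb'
          exact hc1 v h hb'
        · obtain rfl : v = a := Fin.ext h
          rw [Function.update_self] at hb'
          exact hF2 y hy1 hb'
      · have e : univ.filter (fun v : Fin n => (v : ℕ) < t + 1) =
            insert a (univ.filter fun v : Fin n => (v : ℕ) < t) := by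
          ext v
          simp only [mem_filter, mem_univ, true_and, mem_insert, Fin.ext_iff, a]
          omega
        refine le_trans (le_of_eq (sum_congr rfl fun i _ => ?_)) hy2
        rw [e, prod_insert (by simp [a]), Function.update_self,
          ← hdω i a c _ (hag a (by simp [a]))]
        congr 1
        refine prod_congr rfl fun v hv => ?_
        have hv' := (mem_filter.1 hv).2
        rw [Function.update_of_ne (hne v hv'), ← hdω i v c _ (hag v (by omega))]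
  obtain ⟨c, hc1, hc2⟩ := key n le_rfl
  refine ⟨c, fun v => hc1 v v.2, fun i => ?_⟩
  have e : univ.filter (fun v : Fin n => (v : ℕ) < n) = univ := by
    ext v
    simp
  rw [e] at hc2
  have e1 := (single_le_sum (f := fun i => ∏ v, (1 + ω i v c (c v)) / exp (M i v / K))
    (fun i _ => prod_nonneg fun v _ =>
      div_nonneg (by linarith [h0 i v c (c v)]) (exp_pos _).le) (mem_univ i)).trans hc2
  have e2 : exp (∑ v, (ω i v c (c v) / 2 - M i v / K)) ≤
      ∏ v, (1 + ω i v c (c v)) / exp (M i v / K) := by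
    rw [exp_sum]
    refine prod_le_prod (fun v _ => (exp_pos _).le) fun v _ => ?_
    rw [exp_sub]
    refine div_le_div_of_nonneg_right ?_ (exp_pos _).le
    have a0 := h0 i v c (c v)
    have a1 := h1 i v c (c v)
    generalize ω i v c (c v) = x at a0 a1
    rw [← le_log_iff_exp_le (by linarith)]
    refine le_trans ?_ (one_sub_inv_le_log_of_pos (by linarith))
    rw [le_sub_comm, inv_eq_one_div, div_le_iff₀ (by linarith)]
    nlinarith
  have e3 := log_le_log (exp_pos _) (e2.trans e1)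
  rw [log_exp, sum_sub_distrib, ← sum_div, ← sum_div] at e3
  linarith

lemma Cov.sum {V : Type} {G : SimpleGraph V} {k : ℕ} (l : ℕ) (R : ℕ → V → V → Prop)
    (h : ∀ j, Cov G (R j) k) : Cov G (fun u v => ∃ j < l, R j u v) (l * k) := by
  induction l with
  | zero => exact ⟨Unit, fun _ => ∅, by simp, by simp, by simp⟩
  | succ l ih =>
    refine ih.add (h l) ?_ (le_of_eq (by ring))
    rintro u v ⟨j, hj, h⟩
    rcases Nat.lt_succ_iff_lt_or_eq.1 hj with h' | rfl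
    · exact Or.inl ⟨j, h', h⟩
    · exact Or.inr h

lemma Sys.copies {W : Type} {g a b : ℕ} (h : Sys W g a b) (s : ℕ) :
    Sys W (s * g) a (s * b) := by
  classical
  obtain ⟨U, A, B, h1, h2, h3, h4, h5⟩ := h
  refine ⟨Fin s × U, fun x i => (A x (finProdFinEquiv.symm i).2).image
    fun τ => ((finProdFinEquiv.symm i).1, τ), fun x => univ ×ˢ B x,
    fun x i => card_image_le.trans (h1 _ _), fun x => ?_, ?_, ?_, ?_⟩
  · rw [card_product, card_univ, Fintype.card_fin]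
    exact Nat.mul_le_mul_left _ (h2 x)
  · intro x i j τ e1 e2
    obtain ⟨p, e3, rfl⟩ := mem_image.1 e1
    obtain ⟨p', e4, e5⟩ := mem_image.1 e2
    obtain ⟨e6, rfl⟩ := Prod.mk.inj e5
    exact finProdFinEquiv.symm.injective (Prod.ext e6.symm (h3 _ _ _ _ e3 e4))
  · intro x i τ e1 e2
    obtain ⟨p, e3, rfl⟩ := mem_image.1 e1
    exact h4 _ _ _ e3 (mem_product.1 e2).2
  · intro x y i hxy
    obtain ⟨τ, e1, e2⟩ := h5 x y (finProdFinEquiv.symm i).2 hxy
    exact ⟨(_, τ), mem_image_of_mem _ e1, mem_product.2 ⟨mem_univ _, e2⟩⟩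

variable {n : ℕ} (G : SimpleGraph (Fin n)) [DecidableRel G.Adj] {Δ : ℕ}

/-- Vertices with exactly one neighbour in a class. -/
theorem single {Y W : Type} {g a b : ℕ} (hΔ : ∀ v, G.degree v ≤ Δ) (c : Fin n → Y)
    (hc : ∀ u v, G.Adj u v → c u ≠ c v) (lab : Fin n → W) (hS : Sys W g a b) (hg : Δ * a < g) :
    Cov G (fun u v => ∃ w, G.Adj u w ∧ c w = c v ∧ (∀ w', G.Adj u w' → c w' = c v → w' = w) ∧
      lab w ≠ lab v) (Δ * a + b) := by
  classical
  obtain ⟨U, A, B, ca, cb, dA, dB, hAB⟩ := hS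
  have : Nonempty (Fin g) := ⟨⟨0, by omega⟩⟩
  let ctr : Y → Fin n → Fin n := fun κ x =>
    if h : ∃ w, G.Adj x w ∧ c w = κ then h.choose else x
  have hctr : ∀ x w, G.Adj x w → (∀ w', G.Adj x w' → c w' = c w → w' = w) → ctr (c w) x = w := by
    intro x w h1 h2
    have h : ∃ w', G.Adj x w' ∧ c w' = c w := ⟨w, h1, rfl⟩
    simp only [ctr, dif_pos h]
    exact h2 _ h.choose_spec.1 h.choose_spec.2
  have hidx : ∀ κ, ∃ f : Fin n → Fin g, ∀ v u, u < v → G.Adj v u →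
      ∀ τ ∈ A (lab (ctr κ v)) (f v), τ ∉ A (lab (ctr κ u)) (f u) := by
    intro κ
    obtain ⟨f, hf, -⟩ := balanced (I := Empty) (Y := Fin g) (n := n) 1 one_pos
      (fun _ _ _ _ => 0) (fun _ _ => 0)
      (fun v f y => ∃ u < v, G.Adj v u ∧ ∃ τ ∈ A (lab (ctr κ v)) y, τ ∈ A (lab (ctr κ u)) (f u))
      (by simp) (by simp) (by simp) (by
        rintro v f f' y h ⟨u, h1, h2, τ, h3, h4⟩
        exact ⟨u, h1, h2, τ, h3, h u h1 ▸ h4⟩) (by simp) (by
        intro v f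
        obtain ⟨y, -, hy⟩ := exists_mem_notMem_of_card_lt_card
          (s := (G.neighborFinset v).biUnion fun u => (A (lab (ctr κ u)) (f u)).biUnion fun τ =>
            univ.filter fun y => τ ∈ A (lab (ctr κ v)) y) (t := univ) (by
          rw [card_univ, Fintype.card_fin]
          refine lt_of_le_of_lt ((card_biUnion_le_card_mul _ _ a fun u _ =>
            (card_biUnion_le_card_mul _ _ 1 fun τ _ => card_le_one.2 fun y h1 y' h2 =>
              dA _ _ _ τ (mem_filter.1 h1).2 (mem_filter.1 h2).2).trans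
              (by simpa using ca _ _)).trans (Nat.mul_le_mul_right _ ?_)) hg
          rw [SimpleGraph.card_neighborFinset_eq_degree]
          exact hΔ v)
        refine ⟨{y}, by simp, ?_⟩
        rintro y' hy' ⟨u, -, h2, τ, h3, h4⟩
        rw [mem_singleton.1 hy'] at h3
        exact hy (mem_biUnion.2 ⟨u, by simpa using h2, mem_biUnion.2 ⟨τ, h4, by simpa using h3⟩⟩))
    exact ⟨f, fun v u h1 h2 τ h3 h4 => hf v ⟨u, h1, h2, τ, h3, h4⟩⟩
  choose f hf using hidx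
  let Lf : Fin n → Finset (Y × U) := fun x =>
    ((G.neighborFinset x).filter fun w => ∀ w', G.Adj x w' → c w' = c w → w' = w).biUnion
      fun w => (A (lab w) (f (c w) x)).image fun τ => (c w, τ)
  let Ce : Fin n → Finset (Y × U) := fun x => (B (lab x)).image fun τ => (c x, τ)
  have hL : ∀ x, ∀ τ ∈ Lf x, ∃ w, c w = τ.1 ∧ (∀ w', G.Adj x w' → c w' = c w → w' = w) ∧
      ctr (c w) x = w ∧ τ.2 ∈ A (lab w) (f (c w) x) := by
    intro x τ hτ
    obtain ⟨w, hw, hτ⟩ := mem_biUnion.1 hτ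
    obtain ⟨z, hz, rfl⟩ := mem_image.1 hτ
    obtain ⟨h1, h2⟩ := mem_filter.1 hw
    exact ⟨w, rfl, h2, hctr x w (by simpa using h1) h2, hz⟩
  have hC : ∀ x, ∀ τ ∈ Ce x, c x = τ.1 ∧ τ.2 ∈ B (lab x) := by
    intro x τ hτ
    obtain ⟨z, hz, rfl⟩ := mem_image.1 hτ
    exact ⟨rfl, hz⟩
  have hLC : ∀ u v, G.Adj u v → ∀ τ ∈ Lf u, τ ∉ Ce v := by
    intro u v huv τ hu hv
    obtain ⟨w, e1, e2, -, e4⟩ := hL u τ hu
    obtain ⟨e5, e6⟩ := hC v τ hv
    obtain rfl := e2 v huv (e5.trans e1.symm)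
    exact dB _ _ _ e4 e6
  have hLL : ∀ u v, u < v → G.Adj v u → ∀ τ ∈ Lf v, τ ∉ Lf u := by
    intro u v h1 h2 τ hv hu
    obtain ⟨w, e1, -, e3, e4⟩ := hL u τ hu
    obtain ⟨w', f1, -, f3, f4⟩ := hL v τ hv
    rw [e1] at e3 e4
    rw [f1] at f3 f4
    exact hf τ.1 v u h1 h2 τ.2 (f3.symm ▸ f4) (e3.symm ▸ e4)
  refine ⟨Y × U, fun x => Lf x ∪ Ce x, fun x => ?_, ?_, ?_⟩
  · refine (card_union_le _ _).trans (Nat.add_le_add ?_ (card_image_le.trans (cb _)))
    refine (card_biUnion_le_card_mul _ _ a fun w _ => card_image_le.trans (ca _ _)).trans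
      (Nat.mul_le_mul_right _ ((card_filter_le _ _).trans ?_))
    rw [SimpleGraph.card_neighborFinset_eq_degree]
    exact hΔ x
  · intro u v huv τ hu hv
    rcases mem_union.1 hu with hu | hu <;> rcases mem_union.1 hv with hv | hv
    · rcases lt_or_gt_of_ne huv.ne with h | h
      · exact hLL u v h huv.symm τ hv hu
      · exact hLL v u h huv τ hu hv
    · exact hLC u v huv τ hu hv
    · exact hLC v u huv.symm τ hv hu
    · exact hc u v huv ((hC u τ hu).1.trans (hC v τ hv).1.symm)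
  · rintro u v ⟨w, e1, e2, e3, e4⟩
    obtain ⟨τ, e5, e6⟩ := hAB _ _ (f (c w) u) e4
    refine ⟨(c w, τ), mem_union_left _ (mem_biUnion.2 ⟨w, mem_filter.2 ⟨by simpa using e1,
      fun w' h1 h2 => e3 w' h1 (h2.trans e2)⟩, mem_image.2 ⟨τ, e5, rfl⟩⟩),
      mem_union_right _ (mem_image.2 ⟨τ, e6, by rw [e2]⟩)⟩

/-- A binary tree inside each class, for the pairs (vertex, class) that are marked. -/
theorem tree {Y : Type} (c : Fin n → Y) (hc : ∀ u v, G.Adj u v → c u ≠ c v)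
    (Act : Fin n → Y → Prop) (D M L : ℕ) (hL : n ≤ 2 ^ L)
    (hD : ∀ u κ, ∃ S : Finset (Fin n), S.card ≤ D ∧ ∀ x, G.Adj u x → Act x κ → x ∈ S)
    (hM : ∀ u, ∃ S : Finset (Fin n), S.card ≤ M ∧ ∀ w, G.Adj u w → Act u (c w) → w ∈ S) :
    Cov G (fun u v => ¬G.Adj u v ∧ Act u (c v) ∧ ∃ w, G.Adj u w ∧ c w = c v)
      ((D + 1) * L + M * (L * 2)) := by
  classical
  have hp : ∀ κ, ∃ p : Fin n → Fin (D + 1), ∀ u v, u ≠ v →
      (G.Adj u v ∧ Act u κ ∧ Act v κ) → p u ≠ p v := fun κ =>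
    greedy _ (fun _ _ h => ⟨h.1.symm, h.2.2, h.2.1⟩) D fun v => by
      obtain ⟨S, h1, h2⟩ := hD v κ
      exact ⟨S, h1, fun w _ h => h2 w h.1 h.2.2⟩
  choose p hp using hp
  choose S hS1 hS2 using hM
  let Vs : Fin n → Finset (Y × Fin (D + 1) × ℕ × ℕ) := fun x =>
    (univ ×ˢ range L).image fun z : Fin (D + 1) × ℕ => (c x, z.1, z.2, (x : ℕ) / 2 ^ z.2)
  let Us : Fin n → Finset (Y × Fin (D + 1) × ℕ × ℕ) := fun x =>
    ((S x ×ˢ range L ×ˢ range 2).image fun z : Fin n × ℕ × ℕ =>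
        (c z.1, p (c z.1) x, z.2.1, 2 * ((z.1 : ℕ) / 2 ^ (z.2.1 + 1)) + z.2.2)).filter
      fun τ => Act x τ.1 ∧ ∀ w, G.Adj x w → ¬(c w = τ.1 ∧ (w : ℕ) / 2 ^ τ.2.2.1 = τ.2.2.2)
  have hV : ∀ x, ∀ τ ∈ Vs x, c x = τ.1 ∧ (x : ℕ) / 2 ^ τ.2.2.1 = τ.2.2.2 := by
    intro x τ hτ
    obtain ⟨z, -, rfl⟩ := mem_image.1 hτ
    exact ⟨rfl, rfl⟩
  have hU : ∀ x, ∀ τ ∈ Us x, p τ.1 x = τ.2.1 ∧ Act x τ.1 ∧
      ∀ w, G.Adj x w → ¬(c w = τ.1 ∧ (w : ℕ) / 2 ^ τ.2.2.1 = τ.2.2.2) := by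
    intro x τ hτ
    obtain ⟨h1, h2⟩ := mem_filter.1 hτ
    refine ⟨?_, h2⟩
    obtain ⟨z, -, rfl⟩ := mem_image.1 h1
    rfl
  refine ⟨Y × Fin (D + 1) × ℕ × ℕ, fun x => Vs x ∪ Us x, fun x => ?_, ?_, ?_⟩
  · refine (card_union_le _ _).trans (Nat.add_le_add (card_image_le.trans (by simp))
      ((card_filter_le _ _).trans (card_image_le.trans ?_)))
    rw [card_product, card_product, card_range, card_range]
    exact Nat.mul_le_mul_right _ (hS1 x)
  · intro u v huv τ hu hv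
    rcases mem_union.1 hu with hu | hu <;> rcases mem_union.1 hv with hv | hv
    · exact hc u v huv ((hV u τ hu).1.trans (hV v τ hv).1.symm)
    · exact (hU v τ hv).2.2 u huv.symm (hV u τ hu)
    · exact (hU u τ hu).2.2 v huv (hV v τ hv)
    · exact hp τ.1 u v huv.ne ⟨huv, (hU u τ hu).2.1, (hU v τ hv).2.1⟩
        ((hU u τ hu).1.trans (hU v τ hv).1.symm)
  · rintro u v ⟨huv, hact, w₀, h3, h4⟩
    let P : ℕ → Prop := fun j => ∃ w, G.Adj u w ∧ c w = c v ∧ (w : ℕ) / 2 ^ j = (v : ℕ) / 2 ^ j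
    have h0 : ¬P 0 := by
      rintro ⟨w, h1, -, h3⟩
      obtain rfl : w = v := Fin.ext (by simpa using h3)
      exact huv h1
    have hL' : P L := ⟨w₀, h3, h4, by
      rw [Nat.div_eq_of_lt (w₀.2.trans_le hL), Nat.div_eq_of_lt (v.2.trans_le hL)]⟩
    obtain ⟨j, hj, h1, w, h2, h3, h4⟩ := exists_switch P L h0 hL'
    refine ⟨(c v, p (c v) u, j, (v : ℕ) / 2 ^ j), mem_union_right _ (mem_filter.2
      ⟨mem_image.2 ⟨(w, j, (v : ℕ) / 2 ^ j % 2), ?_, ?_⟩, hact,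
        fun w' h5 h6 => h1 ⟨w', h5, h6⟩⟩),
      mem_union_left _ (mem_image.2 ⟨(p (c v) u, j), by simpa using hj, rfl⟩)⟩
    · simp only [mem_product, mem_range]
      exact ⟨hS2 u w h2 (h3 ▸ hact), hj, Nat.mod_lt _ (by norm_num)⟩
    · simp only [h3, h4]
      rw [pow_succ, ← Nat.div_div_eq_div_mul, Nat.div_add_mod]

end Pool.Agent.MP_a7b5fd_co.H11

end MrgPart0

-- ======== part 1: formerly Pool.Agent.MP_a7b5fd_co.h11.Cls
section MrgPart1

/-! Classes in which few vertices have two neighbours, and the combined covering. -/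

set_option autoImplicit false

namespace Pool.Agent.MP_a7b5fd_co.H11

open Finset Real Pool.Agent.MP_a7b5fd_co.H39

variable {n : ℕ} (G : SimpleGraph (Fin n)) [DecidableRel G.Adj] {Δ : ℕ}

/-- The vertex `x` has two neighbours in the class `κ`. -/
def Multi {Y : Type} (c : Fin n → Y) (x : Fin n) (κ : Y) : Prop :=
  ∃ w w', w < w' ∧ G.Adj x w ∧ G.Adj x w' ∧ c w = κ ∧ c w' = κ

lemma card_cls {Y : Type} [Fintype Y] (c : Fin n → Y) (x : Fin n) (p : Fin n → Prop)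
    (hΔ : ∀ v, G.degree v ≤ Δ) [DecidablePred fun y => ∃ w, p w ∧ G.Adj x w ∧ c w = y] :
    (univ.filter fun y => ∃ w, p w ∧ G.Adj x w ∧ c w = y).card ≤ Δ := by
  classical
  refine le_trans (card_le_card (t := (G.neighborFinset x).image c) ?_) (card_image_le.trans ?_)
  · intro y hy
    obtain ⟨w, -, h2, h3⟩ := (mem_filter.1 hy).2
    exact mem_image.2 ⟨w, by simpa using h2, h3⟩
  · rw [SimpleGraph.card_neighborFinset_eq_degree]
    exact hΔ x

theorem classes (hΔ : ∀ v, G.degree v ≤ Δ) (h0 : 0 < Δ) (Q θ : ℕ) (hQ : 0 < Q) (hθ : Δ ≤ θ * Q)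
    (τ : ℕ) (hτ : log (n * (3 * Δ * Q + 1)) + 1 ≤ τ) :
    ∃ c : Fin n → Fin (3 * Δ) × Fin Q, (∀ u v, G.Adj u v → (c u).1 ≠ (c v).1) ∧
      (∀ u κ, ∃ S : Finset (Fin n), S.card ≤ 2 * τ * θ ∧
        ∀ x, G.Adj u x → Multi G c x κ → x ∈ S) ∧
      (∀ u, ∃ S : Finset (Fin n), S.card ≤ 4 * (τ + θ) ∧
        ∀ w, G.Adj u w → Multi G c u (c w) → w ∈ S) := by
  classical
  have hθ0 : 0 < θ := Nat.pos_of_mul_pos_right (h0.trans_le hθ)
  have hθ' : (0 : ℝ) < θ := by exact_mod_cast hθ0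
  have hΔ' : (0 : ℝ) < Δ := by exact_mod_cast h0
  have hQ' : (0 : ℝ) < Q := by exact_mod_cast hQ
  have hθQ : (Δ : ℝ) ≤ θ * Q := by exact_mod_cast hθ
  have : Nonempty (Fin (3 * Δ) × Fin Q) := ⟨(⟨0, by omega⟩, ⟨0, hQ⟩)⟩
  have hN : ∀ v, (G.neighborFinset v).card ≤ Δ := fun v => by
    rw [SimpleGraph.card_neighborFinset_eq_degree]
    exact hΔ v
  let d : Fin n → Fin n → ℕ := fun u v => (G.neighborFinset u ∩ G.neighborFinset v).card
  have hd : ∀ u, ∑ v, d u v ≤ Δ * Δ := by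
    intro u
    have e : ∑ v, d u v = ∑ x ∈ G.neighborFinset u, (G.neighborFinset x).card := by
      simp only [d, ← filter_mem_eq_inter, card_filter]
      rw [sum_comm]
      refine sum_congr rfl fun x _ => ?_
      rw [← card_filter]
      congr 1
      ext v
      simp [G.adj_comm]
    rw [e]
    exact (sum_le_card_nsmul _ _ Δ fun x _ => hN x).trans (Nat.mul_le_mul_right _ (hN u))
  let E : Fin n → (Fin n → Fin (3 * Δ) × Fin Q) → Fin (3 * Δ) × Fin Q → Finset (Fin n) :=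
    fun v c y => (G.neighborFinset v).filter fun x => ∃ w, w < v ∧ G.Adj x w ∧ c w = y
  have hE : ∀ v (c c' : Fin n → Fin (3 * Δ) × Fin Q), (∀ w < v, c w = c' w) → ∀ x y,
      (∃ w, w < v ∧ G.Adj x w ∧ c w = y) ↔ ∃ w, w < v ∧ G.Adj x w ∧ c' w = y :=
    fun v c c' h x y => exists_congr fun w => and_congr_right fun hw => by rw [h w hw]
  obtain ⟨c, hc1, hc2⟩ := balanced (I := Fin n × Option (Fin (3 * Δ) × Fin Q)) (Δ * Q)
    (Nat.mul_pos h0 hQ)
    (fun i v c y => match i.2 with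
      | some κ => if y = κ then (min θ (d i.1 v) : ℕ) / (θ : ℝ) else 0
      | none => if G.Adj i.1 v ∧ ∃ w, w < v ∧ G.Adj i.1 w ∧ c w = y then 1 else 0)
    (fun i v => match i.2 with
      | some _ => (d i.1 v : ℝ) / θ
      | none => if G.Adj i.1 v then Δ else 0)
    (fun v c y => (∃ w, w < v ∧ G.Adj v w ∧ (c w).1 = y.1) ∨ θ < (E v c y).card)
    (by
      rintro ⟨u, _ | κ⟩ v c y <;> dsimp only <;> split_ifs <;> positivity)
    (by
      rintro ⟨u, _ | κ⟩ v c y <;> dsimp only <;> split_ifs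
      · exact le_rfl
      · exact zero_le_one
      · rw [div_le_one hθ']
        exact_mod_cast min_le_left _ _
      · exact zero_le_one)
    (by
      rintro ⟨u, _ | κ⟩ v c c' h
      · funext y
        simp only [hE v c c' h]
      · rfl)
    (by
      rintro v c c' y h (⟨w, h1, h2, h3⟩ | h1)
      · exact Or.inl ⟨w, h1, h2, h w h1 ▸ h3⟩
      · refine Or.inr (h1.trans_eq ?_)
        simp only [E, hE v c c' h])
    (by
      rintro ⟨u, _ | κ⟩ v c
      · dsimp only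
        by_cases h : G.Adj u v
        · simp only [h, true_and, if_true, sum_boole]
          exact_mod_cast card_cls G c u (· < v) hΔ
        · simp [h]
      · dsimp only
        rw [sum_ite_eq' univ κ, if_pos (mem_univ _)]
        refine div_le_div_of_nonneg_right ?_ hθ'.le
        exact_mod_cast min_le_right _ _)
    (by
      intro v c
      let B₁ : Finset (Fin (3 * Δ) × Fin Q) :=
        ((G.neighborFinset v).image fun w => (c w).1) ×ˢ univ
      let B₂ : Finset (Fin (3 * Δ) × Fin Q) := univ.filter fun y => θ < (E v c y).card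
      have a1 : B₁.card ≤ Δ * Q := by
        rw [card_product, card_univ, Fintype.card_fin]
        exact Nat.mul_le_mul_right _ (card_image_le.trans (hN v))
      have a2 : B₂.card * θ ≤ Δ * Δ :=
        calc B₂.card * θ ≤ ∑ y ∈ B₂, (E v c y).card :=
              card_nsmul_le_sum _ _ _ fun y hy => (mem_filter.1 hy).2.le
          _ ≤ ∑ y, (E v c y).card := sum_le_sum_of_subset (subset_univ _)
          _ = ∑ x ∈ G.neighborFinset v,
                (univ.filter fun y => ∃ w, w < v ∧ G.Adj x w ∧ c w = y).card := by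
              simp only [E, card_filter]
              rw [sum_comm]
          _ ≤ Δ * Δ := (sum_le_card_nsmul _ _ Δ fun x _ => card_cls G c x (· < v) hΔ).trans
              (Nat.mul_le_mul_right _ (hN v))
      have a3 : B₂.card ≤ Δ * Q := by
        refine Nat.le_of_mul_le_mul_right (a2.trans ?_) hθ0
        calc Δ * Δ ≤ Δ * (θ * Q) := Nat.mul_le_mul_left _ hθ
          _ = _ := by ring
      refine ⟨univ \ (B₁ ∪ B₂), ?_, ?_⟩
      · rw [card_sdiff_of_subset (subset_univ _), card_univ, Fintype.card_prod, Fintype.card_fin,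
          Fintype.card_fin]
        have := card_union_le B₁ B₂
        have e : 3 * Δ * Q = 3 * (Δ * Q) := by ring
        omega
      · rintro y hy (⟨w, -, h2, h3⟩ | h1)
        · exact (mem_sdiff.1 hy).2 (mem_union_left _ (mem_product.2
            ⟨mem_image.2 ⟨w, by simpa using h2, h3⟩, mem_univ _⟩))
        · exact (mem_sdiff.1 hy).2 (mem_union_right _ (mem_filter.2 ⟨mem_univ _, h1⟩)))
  have hI : log (Fintype.card (Fin n × Option (Fin (3 * Δ) × Fin Q))) + 1 ≤ τ := by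
    simpa using hτ
  simp only [not_or, not_lt] at hc1
  refine ⟨c, fun u v huv e => ?_, fun u κ => ?_, fun u => ?_⟩
  · rcases lt_or_gt_of_ne huv.ne with h | h
    · exact (hc1 v).1 ⟨u, h, huv.symm, e⟩
    · exact (hc1 u).1 ⟨v, h, huv, e.symm⟩
  · refine ⟨(univ.filter fun v => c v = κ).biUnion fun v => G.neighborFinset u ∩ E v c (c v),
      card_biUnion_le.trans ?_, ?_⟩
    · have a1 := hc2 (u, some κ)
      dsimp only at a1
      have a2 : (∑ v, (d u v : ℝ) / θ) / ((Δ * Q : ℕ) : ℝ) ≤ 1 := by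
        rw [← sum_div, div_div, div_le_one (by positivity)]
        have : ((∑ v, d u v : ℕ) : ℝ) ≤ (Δ * Δ : ℕ) := by exact_mod_cast hd u
        push_cast at this ⊢
        nlinarith
      rw [← sum_filter, ← sum_div, div_le_iff₀ hθ'] at a1
      have a3 : ∑ v ∈ univ.filter (fun v => c v = κ), ((min θ (d u v) : ℕ) : ℝ) ≤ 2 * τ * θ :=
        a1.trans (mul_le_mul_of_nonneg_right (by linarith) hθ'.le)
      have a4 : ∑ v ∈ univ.filter (fun v => c v = κ), min θ (d u v) ≤ 2 * τ * θ := by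
        exact_mod_cast a3
      refine le_trans (sum_le_sum fun v _ => le_min ?_ ?_) a4
      · exact (card_le_card inter_subset_right).trans (hc1 v).2
      · exact card_le_card (inter_subset_inter_left (filter_subset _ _))
    · rintro x hx ⟨w, w', h1, h2, h3, h4, h5⟩
      refine mem_biUnion.2 ⟨w', by simpa using h5, mem_inter.2 ⟨by simpa using hx,
        mem_filter.2 ⟨by simpa using h3.symm, w, h1, h2, h4.trans h5.symm⟩⟩⟩
  · let X : Finset (Fin n) :=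
      univ.filter fun v => G.Adj u v ∧ ∃ w, w < v ∧ G.Adj u w ∧ c w = c v
    let Z : Finset (Fin n) := univ.filter fun v => G.Adj u v ∧ Multi G c u (c v) ∧ v ∉ X
    have a1 := hc2 (u, none)
    dsimp only at a1
    have a2 : (∑ v, if G.Adj u v then (Δ : ℝ) else 0) / ((Δ * Q : ℕ) : ℝ) ≤ θ := by
      rw [← sum_filter, sum_const, nsmul_eq_mul, div_le_iff₀ (by positivity)]
      have : ((univ.filter fun v => G.Adj u v).card : ℝ) ≤ Δ := by
        rw [← SimpleGraph.neighborFinset_eq_filter]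
        exact_mod_cast hN u
      push_cast
      nlinarith
    rw [sum_boole] at a1
    have a3 : (X.card : ℝ) ≤ 2 * (τ + θ) := a1.trans (by linarith)
    have a4 : X.card ≤ 2 * (τ + θ) := by exact_mod_cast a3
    have a5 : Z.card ≤ (X.image c).card := by
      refine card_le_card_of_injOn c ?_ ?_
      · intro v hv
        obtain ⟨-, ⟨w, w', h1, h2, h3, h4, h5⟩, -⟩ := (mem_filter.1 hv).2
        exact mem_coe.2 (mem_image.2 ⟨w', mem_filter.2
          ⟨mem_univ _, h3, w, h1, h2, h4.trans h5.symm⟩, h5⟩)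
      · intro v hv v' hv' e
        obtain ⟨h1, -, h2⟩ := (mem_filter.1 hv).2
        obtain ⟨h3, -, h4⟩ := (mem_filter.1 hv').2
        by_contra hne
        rcases lt_or_gt_of_ne hne with h | h
        · exact h4 (mem_filter.2 ⟨mem_univ _, h3, v, h, h1, e⟩)
        · exact h2 (mem_filter.2 ⟨mem_univ _, h1, v', h, h3, e.symm⟩)
    refine ⟨X ∪ Z, ?_, fun w h1 h2 => ?_⟩
    · have := card_union_le X Z
      have := card_image_le (s := X) (f := c)
      omega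
    · by_cases h : w ∈ X
      · exact mem_union_left _ h
      · exact mem_union_right _ (mem_filter.2 ⟨mem_univ _, h1, h2, h⟩)

lemma exists_far (hΔ : ∀ v, G.degree v ≤ Δ) :
    ∃ h : Fin n → Fin (Δ + Δ ^ 2 + Δ ^ 3 + 1), ∀ w w', w ≠ w' →
      (G.Adj w w' ∨ (∃ u, G.Adj w u ∧ G.Adj u w') ∨
        ∃ u u', G.Adj w u ∧ G.Adj u u' ∧ G.Adj u' w') → h w ≠ h w' := by
  classical
  have hN : ∀ v, (G.neighborFinset v).card ≤ Δ := fun v => by
    rw [SimpleGraph.card_neighborFinset_eq_degree]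
    exact hΔ v
  refine greedy _ (by
    rintro w w' (h | ⟨u, h1, h2⟩ | ⟨u, u', h1, h2, h3⟩)
    · exact Or.inl h.symm
    · exact Or.inr (Or.inl ⟨u, h2.symm, h1.symm⟩)
    · exact Or.inr (Or.inr ⟨u', u, h3.symm, h2.symm, h1.symm⟩)) (Δ + Δ ^ 2 + Δ ^ 3) fun v => ?_
  have h2 : ∀ v, ((G.neighborFinset v).biUnion fun u => G.neighborFinset u).card ≤ Δ ^ 2 :=
    fun v => (card_biUnion_le_card_mul _ _ Δ fun u _ => hN u).trans
      ((Nat.mul_le_mul_right _ (hN v)).trans (le_of_eq (by ring)))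
  have h3 : ((G.neighborFinset v).biUnion fun u =>
      (G.neighborFinset u).biUnion fun u' => G.neighborFinset u').card ≤ Δ ^ 3 :=
    (card_biUnion_le_card_mul _ _ (Δ ^ 2) fun u _ => h2 u).trans
      ((Nat.mul_le_mul_right _ (hN v)).trans (le_of_eq (by ring)))
  refine ⟨G.neighborFinset v ∪ ((G.neighborFinset v).biUnion fun u => G.neighborFinset u) ∪
    ((G.neighborFinset v).biUnion fun u =>
      (G.neighborFinset u).biUnion fun u' => G.neighborFinset u'),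
    (card_union_le _ _).trans (Nat.add_le_add ((card_union_le _ _).trans
      (Nat.add_le_add (hN v) (h2 v))) h3), ?_⟩
  rintro w - (h | ⟨u, h1, h2⟩ | ⟨u, u', h1, h2, h3⟩)
  · simp [h]
  · simp only [mem_union, mem_biUnion, SimpleGraph.mem_neighborFinset]
    exact Or.inl (Or.inr ⟨u, h1, h2⟩)
  · simp only [mem_union, mem_biUnion, SimpleGraph.mem_neighborFinset]
    exact Or.inr ⟨u, h1, u', h2, h3⟩

/-- The four parts of the covering put together. -/
theorem cov_new (hΔ : ∀ v, G.degree v ≤ Δ) (h0 : 0 < Δ) (L Λ τ θ : ℕ) (hθ : Δ ≤ θ * 2 ^ L)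
    (hτ : log (n * (3 * Δ * (2 ^ L : ℕ) + 1)) + 1 ≤ τ) (hΛ : n ≤ 2 ^ Λ)
    (N l g₁ a₁ b₁ : ℕ) (hN : Δ + Δ ^ 2 + Δ ^ 3 + 1 ≤ N ^ l) (hS₁ : Sys (Fin N) g₁ a₁ b₁)
    (hg₁ : Δ * a₁ < g₁) (g a b : ℕ) (hg : 0 < g) (hS : Sys (Fin n) g a b) :
    Cov G (fun u v => u ≠ v ∧ ¬G.Adj u v)
      ((3 * Δ * (L + 2) + 2 * Δ * L) + ((2 * τ * θ + 1) * Λ + 4 * (τ + θ) * (Λ * 2)) +
        (l * (Δ * a₁ + b₁) + (Δ * a + (Δ / g + 1) * b))) := by
  classical
  obtain ⟨c, hc1, hc2, hc3⟩ := classes G hΔ h0 (2 ^ L) θ (by positivity) hθ τ hτ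
  have hc : ∀ u v, G.Adj u v → c u ≠ c v := fun u v h e => hc1 u v h (congrArg Prod.fst e)
  obtain ⟨h, hh⟩ := exists_far G hΔ
  obtain ⟨p, hp⟩ := greedy G.Adj (fun _ _ h => h.symm) Δ fun v =>
    ⟨G.neighborFinset v, by
      rw [SimpleGraph.card_neighborFinset_eq_degree]
      exact hΔ v, fun w _ h => by simpa using h⟩
  obtain ⟨e⟩ : Nonempty (Fin (Δ + Δ ^ 2 + Δ ^ 3 + 1) ↪ (Fin l → Fin N)) :=
    Function.Embedding.nonempty_of_card_le (by simpa using hN)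
  have hN0 : 0 < l → 0 < N := fun hl => Fin.pos (e 0 ⟨0, hl⟩)
  rcases Nat.eq_zero_or_pos l with rfl | hl
  · exfalso
    rw [pow_zero] at hN
    omega
  let lab : ℕ → Fin n → Fin N := fun j v => if hj : j < l then e (h v) ⟨j, hj⟩ else ⟨0, hN0 hl⟩
  have c1 := top G Δ (3 * Δ) L hΔ (fun v => (c v).1) hc1 (fun v => (c v).2) fun v => (c v).2.2
  have c2 := tree G c hc (Multi G c) _ _ Λ hΛ hc2 hc3
  have c3 := Cov.sum l _ fun j => single G hΔ c hc (lab j) hS₁ hg₁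
  have c4 := deep G Δ g a b hg hΔ p (fun u v huv => hp u v huv.ne huv) (fun v => h v)
    (fun w w' e e' => hh w w' e.ne (Or.inl e) (Fin.ext e'))
    (fun w u w' e1 e2 e' => by
      by_contra hne
      exact hh w w' hne (Or.inr (Or.inl ⟨u, e1, e2⟩)) (Fin.ext e'))
    (fun w u u' w' e1 e2 e3 e' => by
      by_contra hne
      exact hh w w' hne (Or.inr (Or.inr ⟨u, u', e1, e2, e3⟩)) (Fin.ext e')) hS
  refine (c1.add c2 (fun _ _ h => h) le_rfl).add (c3.add c4 (fun _ _ h => h) le_rfl) ?_ le_rfl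
  rintro u v ⟨-, huv⟩
  by_cases h1 : ∃ w, G.Adj u w ∧ c w = c v
  swap
  · exact Or.inl (Or.inl fun w h2 h3 => h1 ⟨w, h2, Prod.ext h3.1 (Fin.ext h3.2)⟩)
  by_cases h2 : Multi G c u (c v)
  · exact Or.inl (Or.inr ⟨huv, h2, h1⟩)
  obtain ⟨w, h3, h4⟩ := h1
  have h5 : w ≠ v := fun e => huv (e ▸ h3)
  by_cases h6 : h w = h v
  · exact Or.inr (Or.inr ⟨w, h3, h5, congrArg Fin.val h6⟩)
  obtain ⟨j, hj⟩ := Function.ne_iff.1 (e.injective.ne h6)
  refine Or.inr (Or.inl ⟨j, j.2, w, h3, h4, fun w' h7 h8 => ?_, by simpa [lab] using hj⟩)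
  by_contra hne
  rcases lt_or_gt_of_ne hne with h | h
  · exact h2 ⟨w', w, h, h7, h3, h8, h4⟩
  · exact h2 ⟨w, w', h, h3, h7, h4, h8⟩

end Pool.Agent.MP_a7b5fd_co.H11

end MrgPart1

-- ======== part 2: formerly Pool.Agent.MP_a7b5fd_co.X.Spec
section MrgPart2

/-! Working notions and the statements of the steps of the sharp upper bound. -/

set_option autoImplicit false

namespace Pool.Agent.MP_a7b5fd_co.X

open Finset Pool.Agent.MP_a7b5fd_co.H39 Pool.Agent.MP_a7b5fd_co.H11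

/-- At most `k` objects satisfy `P`. -/
def Few {α : Type} (k : ℕ) (P : α → Prop) : Prop :=
  ∃ S : Finset α, S.card ≤ k ∧ ∀ x, P x → x ∈ S

theorem Few.mono {α : Type} {k k' : ℕ} {P P' : α → Prop} (h : Few k P) (hk : k ≤ k')
    (hP : ∀ x, P' x → P x) : Few k' P' :=
  let ⟨S, h1, h2⟩ := h; ⟨S, h1.trans hk, fun x hx => h2 x (hP x hx)⟩

open Classical in
/-- The number of objects that satisfy `P`. -/
noncomputable def cnt {α : Type} [Fintype α] (P : α → Prop) : ℕ := (univ.filter P).card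

theorem cnt_eq {α : Type} [Fintype α] (P : α → Prop) [DecidablePred P] :
    cnt P = (univ.filter P).card := by
  unfold cnt
  congr

theorem few_iff {α : Type} [Fintype α] {k : ℕ} {P : α → Prop} : Few k P ↔ cnt P ≤ k := by
  classical
  rw [cnt_eq]
  exact ⟨fun ⟨S, h1, h2⟩ => (card_le_card fun x hx => h2 x (mem_filter.1 hx).2).trans h1,
    fun h => ⟨_, h, fun x hx => mem_filter.2 ⟨mem_univ _, hx⟩⟩⟩

/-- Every related pair is charged to one of its ends, at most `δ` pairs to each vertex. -/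
def Deg {V : Type} (δ : ℕ) (E : V → V → Prop) : Prop :=
  ∃ Out : V → Finset V, (∀ u, (Out u).card ≤ δ) ∧ ∀ u v, E u v → v ∈ Out u ∨ u ∈ Out v

theorem Deg.mono {V : Type} {δ δ' : ℕ} {E E' : V → V → Prop} (h : Deg δ E) (hδ : δ ≤ δ')
    (hE : ∀ u v, E' u v → E u v) : Deg δ' E' :=
  let ⟨O, h1, h2⟩ := h; ⟨O, fun u => (h1 u).trans hδ, fun u v e => h2 u v (hE u v e)⟩

/-- A token system: a leaf with own position `x` has at least `g` disjoint options `A x i`, a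
centre at position `y` with symbol `γ` holds `B y γ`. -/
def PSys (W Γ : Type) (Sep : W → W → Prop) (g a b : ℕ) : Prop :=
  ∃ (U ι : Type) (_ : Fintype ι) (A : W → ι → Finset U) (B : W → Γ → Finset U),
    g ≤ Fintype.card ι ∧ (∀ x i, (A x i).card ≤ a) ∧ (∀ x γ, (B x γ).card ≤ b) ∧
    (∀ x i j, ∀ τ ∈ A x i, τ ∈ A x j → i = j) ∧ (∀ x γ γ', ∀ τ ∈ B x γ, τ ∈ B x γ' → γ = γ') ∧
    (∀ x i γ, ∀ τ ∈ A x i, τ ∉ B x γ) ∧ ∀ x y i γ, Sep x y → ∃ τ ∈ A x i, τ ∈ B y γ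

/-- The squared distance of the two points is not divisible by `p`. -/
def SepP {W : Type} {d : ℕ} (p : ℕ) (x : W → Fin d → ℕ) (u v : W) : Prop :=
  ¬ (p : ℤ) ∣ ∑ j, ((x u j : ℤ) - x v j) ^ 2

section Graph

variable {n : ℕ} (G : SimpleGraph (Fin n)) [DecidableRel G.Adj]

/-- The number of common neighbours. -/
def cod (u v : Fin n) : ℕ := (G.neighborFinset u ∩ G.neighborFinset v).card

/-- The number of neighbours of `b` of colour `y`. -/
noncomputable def dg {Y : Type} (c : Fin n → Y) (b : Fin n) (y : Y) : ℕ :=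
  cnt fun z => G.Adj b z ∧ c z = y

open Classical in
/-- The sum of the codegrees of `b` with the vertices that satisfy `P`. -/
noncomputable def csum (b : Fin n) (P : Fin n → Prop) : ℕ := ∑ z ∈ univ.filter P, cod G b z

theorem csum_eq (b : Fin n) (P : Fin n → Prop) [DecidablePred P] :
    csum G b P = ∑ z ∈ univ.filter P, cod G b z := by
  unfold csum
  congr

theorem cod_comm (u v : Fin n) : cod G u v = cod G v u := by
  rw [cod, cod, inter_comm]

theorem card_nbr {Δ : ℕ} (hΔ : ∀ v, G.degree v ≤ Δ) (v : Fin n) :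
    (G.neighborFinset v).card ≤ Δ := by
  rw [SimpleGraph.card_neighborFinset_eq_degree]
  exact hΔ v

theorem cod_le {Δ : ℕ} (hΔ : ∀ v, G.degree v ≤ Δ) (u v : Fin n) : cod G u v ≤ Δ :=
  (card_le_card inter_subset_left).trans (card_nbr G hΔ u)

/-- Paths of length two from `b` to the set `P`, counted by the middle vertex. -/
theorem csum_eq_sum (b : Fin n) (P : Fin n → Prop) :
    csum G b P = ∑ a ∈ G.neighborFinset b, cnt fun z => G.Adj a z ∧ P z := by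
  classical
  simp only [csum_eq, cnt_eq, cod, ← filter_mem_eq_inter, card_filter, sum_filter]
  rw [sum_comm]
  refine sum_congr rfl fun z _ => ?_
  by_cases h : P z
  · simp [h, G.adj_comm]
  · simp [h]

theorem sum_cod_le {Δ : ℕ} (hΔ : ∀ v, G.degree v ≤ Δ) (b : Fin n) : ∑ z, cod G b z ≤ Δ * Δ := by
  classical
  have h := csum_eq_sum G b fun _ => True
  rw [csum_eq, filter_true] at h
  rw [h]
  refine (sum_le_card_nsmul _ _ Δ fun a _ => few_iff.1
    ⟨G.neighborFinset a, card_nbr G hΔ a, fun z hz => by simpa using hz.1⟩).trans ?_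
  exact Nat.mul_le_mul_right _ (card_nbr G hΔ b)

/-- `z` is the only neighbour of `u` in its class. -/
def Single {Y : Type} (c : Fin n → Y) (u z : Fin n) : Prop :=
  G.Adj u z ∧ ∀ w, G.Adj u w → c w = c z → w = z

/-- Adjacent vertices whose only neighbours in the class `y` differ. -/
def Cross {Y : Type} (c : Fin n → Y) (y : Y) (u v : Fin n) : Prop :=
  G.Adj u v ∧ ∃ z z', Single G c u z ∧ Single G c v z' ∧ c z = y ∧ c z' = y ∧ z ≠ z'

/-- The properties of the first colouring. -/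
structure IsCol (Δ τ L : ℕ) (κ : Fin n → Fin (4 * Δ)) : Prop where
  proper : ∀ u v, G.Adj u v → κ u ≠ κ v
  deg : ∀ b y, dg G κ b y ≤ τ + 2
  crude : ∀ b y, (csum G b fun z => κ z = y) ≤ (2 * τ + 3) * Δ
  tail : ∀ b j, j ^ 3 ≤ L → (cnt fun y => j ≤ dg G κ b y) * j ^ 3 ≤ 100 * Δ
  exc : ∀ x, τ * 2 ^ x ≤ L → ∃ Exc : Fin n → Finset (Fin n),
    (∀ z, (Exc z).card * 2 ^ x ≤ 16 * Δ) ∧
      ∀ b y, (csum G b fun z => κ z = y ∧ b ∉ Exc z) ≤ (2 * x + 9) * Δ

/-- The properties of the columns: `col b z` is the column that the leaf `b` uses for `z`. -/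
structure IsColumns (Z : Fin n → Fin n → Prop) {nb : ℕ} (blk : Fin n → Fin nb) (g m L J : ℕ)
    {C : Type} (col : Fin n → Fin n → C) (mem : C → Finset (Fin n)) : Prop where
  self : ∀ b z, Z b z → z ∈ mem (col b z)
  sub : ∀ b z, Z b z → ∀ u ∈ mem (col b z), Z b u ∧ blk u = blk z
  size : ∀ c, (mem c).card ≤ g
  leaf : ∀ b, Few m fun c => ∃ z, Z b z ∧ col b z = c
  users : ∀ c, Few L fun b => ∃ z, Z b z ∧ col b z = c
  centre : ∀ u, Few J fun c => (∃ b z, Z b z ∧ col b z = c) ∧ u ∈ mem c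

end Graph

/-! ### The steps -/

/-- An order in which every vertex has few earlier partners. -/
def RankS : Prop :=
  ∀ (V : Type) [Fintype V] (δ : ℕ) (Out : V → Finset V), (∀ u, (Out u).card ≤ δ) →
    ∃ r : V → ℕ, Function.Injective r ∧
      ∀ u, Few (2 * δ) fun v => (v ∈ Out u ∨ u ∈ Out v) ∧ r v < r u

/-- Greedy choice along a rank function. -/
def GreedyS : Prop :=
  ∀ (V Y : Type) [Fintype V] [Nonempty Y] (r : V → ℕ) (OK : V → (V → Y) → Y → Prop),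
    (∀ u f f' y, (∀ v, r v < r u → f v = f' v) → OK u f y → OK u f' y) →
    (∀ u f, ∃ y, OK u f y) → ∃ f, ∀ u, OK u f (f u)

/-- Coverings from a family of token systems. -/
def BaseS : Prop :=
  ∀ (n : ℕ) (G : SimpleGraph (Fin n)) (S W Γ : Type) (Sep : W → W → Prop)
    (Lf Ce : Fin n → S → Prop) (own pos : Fin n → S → W) (sym : Fin n → S → Γ)
    (g a b mL mC δ₁ δ₂ : ℕ), PSys W Γ Sep g a b → δ₁ + 2 * δ₂ * a < g →
    (∀ u, Few mL (Lf u)) → (∀ u, Few mC (Ce u)) →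
    (∀ u v σ, G.Adj u v → Ce u σ → Ce v σ → pos u σ = pos v σ ∧ sym u σ ≠ sym v σ) →
    (∀ u v σ, G.Adj u v → Lf u σ → Ce v σ → own u σ = pos v σ) →
    (∀ σ, ∃ Same : Fin n → Finset (Fin n), (∀ u, (Same u).card ≤ δ₁) ∧
      Deg δ₂ fun u v => G.Adj u v ∧ Lf u σ ∧ Lf v σ ∧
        ¬ (own u σ = own v σ ∧ v ∈ Same u ∧ u ∈ Same v)) →
    Cov G (fun u v => ∃ σ, Lf u σ ∧ Ce v σ ∧ Sep (own u σ) (pos v σ)) (mL * a + mC * b)

/-- Systems of constant density. -/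
def LinS : Prop :=
  ∀ (W : Type) [Fintype W] (w t : ℕ), 1 ≤ w → Fintype.card W ≤ 2 ^ w →
    PSys W Unit (· ≠ ·) (t + 1) 2 (6 * (t + (3 * w) ^ (32 * w)))

/-- Systems of density `1 / p ^ 2` from the paraboloid. -/
def ThinS : Prop :=
  ∀ (W : Type) (p d t : ℕ) (x : W → Fin d → ℕ), p.Prime →
    PSys W Unit (SepP p x) (t + 1) 2 (p ^ 2 * (t + p ^ d))

/-- Systems with `q` symbols from the paraboloid; an option is a whole line. -/
def PalS : Prop :=
  ∀ (W : Type) (p d t q : ℕ) (x : W → Fin d → ℕ), p.Prime → 2 * q ≤ p →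
    PSys W (Fin q) (SepP p x) (t + 1) p (2 * (t + p ^ (d + 1)))

/-- Digits and primes that separate all pairs. -/
def Sepa (n l k d lo hi : ℕ) : Prop :=
  ∃ (x : ℕ → Fin n → Fin d → ℕ) (p : ℕ → ℕ), (∀ m, (p m).Prime ∧ lo ≤ p m ∧ p m ≤ hi) ∧
    ∀ u v, u ≠ v → ∃ i < l, ∃ m < k, SepP (p m) (x i) u v

def LayS : Prop :=
  ∀ n l k d q : ℕ, 1 ≤ q → 1 ≤ k → n ≤ (q ^ d) ^ l → d * q ^ 2 < q ^ k → Sepa n l k d q (2 ^ k * q)

/-- A universal family of hash functions. -/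
def HashS : Prop :=
  ∀ (W : Type) [Fintype W] (w r : ℕ), Fintype.card W ≤ 2 ^ w → 0 < r →
    ∃ η : Fin (r ^ (2 * w)) → W → Fin r,
      ∀ s s', s ≠ s' → r * (cnt fun f => η f s = η f s') ≤ r ^ (2 * w)

/-- One pool of the top stage. -/
def KillS : Prop :=
  ∀ (n : ℕ) (G : SimpleGraph (Fin n)) [DecidableRel G.Adj] (Y W : Type) [Fintype W]
    (κ : Fin n → Y) (h : Fin n → W) (Act : Fin n → Y → Prop) (m j δ w : ℕ),
    (∀ u v, G.Adj u v → κ u ≠ κ v) → 1 ≤ w → Fintype.card W + 1 ≤ 2 ^ w → 0 < j →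
    (∀ u, Few m (Act u)) → (∀ u y, Act u y → dg G κ u y ≤ j) →
    (∀ y, Deg δ fun u v => G.Adj u v ∧ Act u y ∧ Act v y) →
    Cov G (fun u v => Act u (κ v) ∧ ∀ z, G.Adj u z → ¬ (κ z = κ v ∧ h z = h v))
      (m * (2 * j ^ 2) * 2 + (96 * δ + 6 * ((2 * j ^ 2) ^ (2 * w) * (3 * w) ^ (32 * w))))

/-- The first colouring. -/
def ColS : Prop :=
  ∀ (n : ℕ) (G : SimpleGraph (Fin n)) [DecidableRel G.Adj] (Δ τ L : ℕ),
    (∀ v, G.degree v ≤ Δ) → 0 < Δ → 8 * n * (Δ + 2) * Δ ≤ 2 ^ τ → 1 ≤ L → L * τ ≤ 4 * Δ →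
    ∃ κ : Fin n → Fin (4 * Δ), IsCol G Δ τ L κ

/-- The top stage. -/
def TopS : Prop :=
  ∀ (n : ℕ) (G : SimpleGraph (Fin n)) [DecidableRel G.Adj] (Δ τ L w : ℕ) (W : Type) [Fintype W]
    (κ : Fin n → Fin (4 * Δ)) (h : Fin n → W), (∀ v, G.degree v ≤ Δ) → IsCol G Δ τ L κ →
    (τ + 2) ^ 3 ≤ L → 1 ≤ w → Fintype.card W + 1 ≤ 2 ^ w →
    Cov G (fun u v => ∀ z, G.Adj u z → ¬ (κ z = κ v ∧ h z = h v))
      (20000 * Δ + (τ + 2) * (6 * ((8 * (τ + 2) ^ 2) ^ (2 * w) * (3 * w) ^ (32 * w))))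

/-- The second colouring. -/
def HcolS : Prop :=
  ∀ (n : ℕ) (G : SimpleGraph (Fin n)) [DecidableRel G.Adj] (Δ P η Q τ : ℕ) (Y : Type) [Fintype Y]
    (κ : Fin n → Y), (∀ v, G.degree v ≤ Δ) → (∀ b y, dg G κ b y ≤ P) →
    (∀ b y, (csum G b fun z => κ z = y) ≤ P * Δ) → 0 < η → 0 < Q → Δ * P ≤ η * Q →
    Δ ^ 2 * P ≤ η ^ 2 * Q → n * (Fintype.card Y * (3 * Q) + 1) * 4 ≤ 2 ^ τ →
    ∃ h : Fin n → Fin (3 * Q),
      (∀ u y, Few (2 * τ * η) fun x => G.Adj u x ∧ Multi G (fun v => (κ v, h v)) x y) ∧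
      (∀ u, Few (4 * (τ + η)) fun z => G.Adj u z ∧ Multi G (fun v => (κ v, h v)) u (κ z, h z)) ∧
      ∀ y, Deg (4 * τ * η) (Cross G (fun v => (κ v, h v)) y)

/-- The columns exist. -/
def ColumnS : Prop :=
  ∀ (n : ℕ) (G : SimpleGraph (Fin n)) [DecidableRel G.Adj] (Δ R g L d₁ nb : ℕ)
    (Z : Fin n → Fin n → Prop) (blk : Fin n → Fin nb), (∀ v, G.degree v ≤ Δ) → 0 < Δ → 0 < g →
    0 < L → (∀ b z, Z b z → G.Adj b z ∧ Δ ≤ R * cod G b z) →
    (∀ z β, Few d₁ fun z' => blk z' = β ∧ Δ ≤ 4 * R ^ 2 * cod G z z') →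
    ∃ (C : Type) (_ : Fintype C) (col : Fin n → Fin n → C) (mem : C → Finset (Fin n)),
      IsColumns Z blk g (Δ / g + 2 * R * nb) L (d₁ * (d₁ + 1) ^ g + Δ / L) col mem

/-- The pairs that come from an edge which lies in a column. -/
def DenseS : Prop :=
  ∀ (n : ℕ) (G : SimpleGraph (Fin n)) [DecidableRel G.Adj]
    (Δ g m L J d₀ D nb w l k d hi : ℕ) (Y T C : Type) [Fintype T] [Fintype C] (c : Fin n → Y)
    (blk : Fin n → Fin nb) (rel : Fin n → T) (Z : Fin n → Fin n → Prop)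
    (col : Fin n → Fin n → C) (mem : C → Finset (Fin n)),
    (∀ v, G.degree v ≤ Δ) → (∀ u v, G.Adj u v → c u ≠ c v) →
    (∀ u v, c u = c v ↔ blk u = blk v ∧ rel u = rel v) → (∀ b z, Z b z → Single G c b z) →
    IsColumns Z blk g m L J col mem → (∀ u β, Few d₀ fun v => G.Adj u v ∧ blk v = β) →
    (∀ y, Deg D (Cross G c y)) → 0 < g → 1 ≤ w →
    (Fintype.card T + 1) ^ g * (g * ((d₀ + 1) * J) + 1) + 1 ≤ 2 ^ w →
    Sepa n l k d (2 * g) hi →
    Cov G (fun u v => ¬ G.Adj u v ∧ ∃ z, Z u z ∧ c z = c v)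
      ((Δ * 2 + J * (6 * (L + 4 * D + (3 * w) ^ (32 * w)))) +
        l * (k * (m * hi + J * (2 * (L + 2 * D * hi + hi ^ (d + 1))))))

/-- The pairs that come from an edge in few triangles. -/
def SparseS : Prop :=
  ∀ (n : ℕ) (G : SimpleGraph (Fin n)) [DecidableRel G.Adj] (Δ θ D l k d lo hi : ℕ) (Y : Type)
    (c : Fin n → Y), (∀ v, G.degree v ≤ Δ) → (∀ u v, G.Adj u v → c u ≠ c v) →
    (∀ y, Deg D (Cross G c y)) → Sepa n l k d lo hi →
    Cov G (fun u v => ¬ G.Adj u v ∧ ∃ z, Single G c u z ∧ cod G u z ≤ θ ∧ c z = c v)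
      (l * (k * (Δ * 2 + hi ^ 2 * (θ + 4 * D + hi ^ d))))

end Pool.Agent.MP_a7b5fd_co.X

end MrgPart2

-- ======== part 3: formerly Pool.Agent.MP_a7b5fd_co.X.Main
section MrgPart3

/-! The four parts of the covering put together. -/

set_option autoImplicit false

namespace Pool.Agent.MP_a7b5fd_co.X

open Finset Pool.Agent.MP_a7b5fd_co.H39 Pool.Agent.MP_a7b5fd_co.H11

theorem blk_sum {n K : ℕ} (κ : Fin n → Fin K) (f : Fin n → ℕ) (b B β : ℕ) (hb : 0 < b)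
    (h : ∀ y, ∑ z ∈ univ.filter (fun z => κ z = y), f z ≤ B) :
    ∑ z ∈ univ.filter (fun z => (κ z : ℕ) / b = β), f z ≤ b * B := by
  rw [← sum_fiberwise_of_maps_to (g := κ) (t := univ.filter fun y : Fin K => (y : ℕ) / b = β)
    fun z hz => mem_filter.2 ⟨mem_univ _, (mem_filter.1 hz).2⟩]
  refine (sum_le_card_nsmul _ _ B fun y _ => le_trans (sum_le_sum_of_subset ?_) (h y)).trans ?_
  · intro z hz
    exact mem_filter.2 ⟨mem_univ _, (mem_filter.1 hz).2⟩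
  · refine Nat.mul_le_mul_right _ ?_
    conv_rhs => rw [← card_range b]
    refine card_le_card_of_injOn (fun y => (y : ℕ) % b)
      (fun y _ => mem_coe.2 (mem_range.2 (Nat.mod_lt _ hb))) fun y hy y' hy' e => Fin.ext ?_
    have e1 := (mem_filter.1 (mem_coe.1 hy)).2
    have e2 := (mem_filter.1 (mem_coe.1 hy')).2
    rw [← Nat.div_add_mod y b, ← Nat.div_add_mod y' b, e1, e2]
    exact congrArg _ e

theorem main_cov (hCol : ColS) (hTop : TopS) (hH : HcolS) (hC : ColumnS) (hD : DenseS)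
    (hS : SparseS) {n : ℕ} (G : SimpleGraph (Fin n)) [DecidableRel G.Adj]
    (Δ τ L₀ w η Q Λ R g L b d₁ J l k d hi : ℕ) (hΔ : ∀ v, G.degree v ≤ Δ) (h0 : 0 < Δ)
    (h1 : 8 * n * (Δ + 2) * Δ ≤ 2 ^ τ) (h2 : (τ + 2) ^ 3 ≤ L₀) (h3 : L₀ * τ ≤ 4 * Δ) (h4 : 1 ≤ w)
    (h5 : 3 * Q + 1 ≤ 2 ^ w) (h6 : 0 < η) (h7 : 0 < Q) (h8 : Δ * (2 * τ + 3) ≤ η * Q)
    (h9 : Δ ^ 2 * (2 * τ + 3) ≤ η ^ 2 * Q) (h10 : n * (4 * Δ * (3 * Q) + 1) * 4 ≤ 2 ^ τ)
    (h11 : n ≤ 2 ^ Λ) (h12 : 0 < g) (h13 : 0 < L) (h14 : 0 < b) (h15 : 0 < R)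
    (hd₁ : d₁ = 4 * R ^ 2 * (b * (2 * τ + 3))) (hJ : J = d₁ * (d₁ + 1) ^ g + Δ / L)
    (h16 : (b * (3 * Q) + 1) ^ g * (g * ((b * (τ + 2) + 1) * J) + 1) + 1 ≤ 2 ^ w)
    (h17 : Sepa n l k d (2 * g) hi) :
    Cov G (fun u v => u ≠ v ∧ ¬G.Adj u v)
      ((20000 * Δ + (τ + 2) * (6 * ((8 * (τ + 2) ^ 2) ^ (2 * w) * (3 * w) ^ (32 * w))) +
        ((2 * τ * η + 1) * Λ + 4 * (τ + η) * (Λ * 2))) +
      (l * (k * (Δ * 2 + hi ^ 2 * (Δ / R + 4 * (4 * τ * η) + hi ^ d))) +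
        ((Δ * 2 + J * (6 * (L + 4 * (4 * τ * η) + (3 * w) ^ (32 * w)))) +
          l * (k * ((Δ / g + 2 * R * (4 * Δ / b + 1)) * hi +
            J * (2 * (L + 2 * (4 * τ * η) * hi + hi ^ (d + 1)))))))) := by
  classical
  obtain ⟨κ, hκ⟩ := hCol n G Δ τ L₀ hΔ h0 h1 (le_trans (Nat.one_le_pow _ _ (by omega)) h2) h3
  obtain ⟨h, m1, m2, m3⟩ := hH n G Δ (2 * τ + 3) η Q τ _ κ hΔ
    (fun b y => (hκ.deg b y).trans (by omega)) hκ.crude h6 h7 h8 h9 (by simpa using h10)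
  set c : Fin n → Fin (4 * Δ) × Fin (3 * Q) := fun v => (κ v, h v) with hcdef
  have hc : ∀ u v, G.Adj u v → c u ≠ c v := fun u v e e' =>
    hκ.proper u v e (congrArg Prod.fst e')
  let blk : Fin n → Fin (4 * Δ / b + 1) := fun v =>
    ⟨κ v / b, Nat.lt_succ_of_le (Nat.div_le_div_right (κ v).2.le)⟩
  let rel : Fin n → Fin b × Fin (3 * Q) := fun v => (⟨κ v % b, Nat.mod_lt _ h14⟩, h v)
  let Z : Fin n → Fin n → Prop := fun u z => Single G c u z ∧ Δ ≤ R * cod G u z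
  have hrel : ∀ u v, c u = c v ↔ blk u = blk v ∧ rel u = rel v := by
    intro u v
    simp only [hcdef, blk, rel, Prod.mk.injEq, Fin.mk.injEq]
    refine ⟨fun e => by simp [e.1, e.2], fun e => ⟨Fin.ext ?_, e.2.2⟩⟩
    rw [← Nat.div_add_mod (κ u) b, ← Nat.div_add_mod (κ v) b, e.1, e.2.1]
  have hd0 : ∀ u β, Few (b * (τ + 2)) fun v => G.Adj u v ∧ blk v = β := by
    intro u β
    have := blk_sum κ (fun z => if G.Adj u z then 1 else 0) b (τ + 2) β h14 fun y => by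
      have e := hκ.deg u y
      rw [dg, cnt_eq] at e
      rw [← card_filter, filter_filter]
      simpa only [and_comm] using e
    rw [← card_filter, filter_filter] at this
    exact ⟨_, this, fun v hv => mem_filter.2 ⟨mem_univ _, congrArg Fin.val hv.2, hv.1⟩⟩
  have hd1 : ∀ z β, Few d₁ fun z' => blk z' = β ∧ Δ ≤ 4 * R ^ 2 * cod G z z' := by
    intro z β
    have a1 := blk_sum κ (cod G z) b ((2 * τ + 3) * Δ) β h14 fun y => by
      have e := hκ.crude z y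
      rwa [csum_eq] at e
    refine ⟨univ.filter fun z' => blk z' = β ∧ Δ ≤ 4 * R ^ 2 * cod G z z', ?_,
      fun v hv => mem_filter.2 ⟨mem_univ _, hv⟩⟩
    refine Nat.le_of_mul_le_mul_right ?_ h0
    calc _ ≤ ∑ z' ∈ univ.filter (fun z' => blk z' = β ∧ Δ ≤ 4 * R ^ 2 * cod G z z'),
          4 * R ^ 2 * cod G z z' := card_nsmul_le_sum _ _ _ fun z' hz => (mem_filter.1 hz).2.2
      _ ≤ ∑ z' ∈ univ.filter (fun z' => (κ z' : ℕ) / b = β), 4 * R ^ 2 * cod G z z' :=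
          sum_le_sum_of_subset fun z' hz =>
            mem_filter.2 ⟨mem_univ _, congrArg Fin.val (mem_filter.1 hz).2.1⟩
      _ ≤ 4 * R ^ 2 * (b * ((2 * τ + 3) * Δ)) := by
          rw [← mul_sum]
          exact Nat.mul_le_mul_left _ a1
      _ = _ := by rw [hd₁]; ring
  obtain ⟨C, _, col, mem, hcol⟩ := hC n G Δ R g L d₁ _ Z blk hΔ h0 h12 h13
    (fun u z e => ⟨e.1.1, e.2⟩) hd1
  rw [← hJ] at hcol
  have c1 := hTop n G Δ τ L₀ w _ κ h hΔ hκ h2 h4 (by simpa using h5)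
  have c2 := tree G c hc (Multi G c) (2 * τ * η) (4 * (τ + η)) Λ h11
    (fun u y => (m1 u y).imp fun S e => ⟨e.1, fun x a1 a2 => e.2 x ⟨a1, a2⟩⟩)
    (fun u => (m2 u).imp fun S e => ⟨e.1, fun x a1 a2 => e.2 x ⟨a1, a2⟩⟩)
  have c3 := hS n G Δ (Δ / R) _ l k d _ hi _ c hΔ hc m3 h17
  have c4 := hD n G Δ g _ L J _ _ _ w l k d hi _ _ C c blk rel Z col mem hΔ hc hrel
    (fun u z e => e.1) hcol hd0 m3 h12 h4 (by simpa using h16) h17
  refine (c1.add c2 (fun _ _ h => h) le_rfl).add (c3.add c4 (fun _ _ h => h) le_rfl) ?_ le_rfl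
  rintro u v ⟨-, huv⟩
  by_cases e1 : ∃ z, G.Adj u z ∧ c z = c v
  swap
  · exact Or.inl (Or.inl fun z a1 a2 => e1 ⟨z, a1, Prod.ext a2.1 a2.2⟩)
  by_cases e2 : Multi G c u (c v)
  · exact Or.inl (Or.inr ⟨huv, e2, e1⟩)
  obtain ⟨z, e3, e4⟩ := e1
  have e5 : Single G c u z := ⟨e3, fun z' a1 a2 => by
    by_contra hne
    rcases lt_or_gt_of_ne hne with a | a
    · exact e2 ⟨z', z, a, a1, e3, a2.trans e4, e4⟩
    · exact e2 ⟨z, z', a, e3, a1, e4, a2.trans e4⟩⟩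
  by_cases e6 : Δ ≤ R * cod G u z
  · exact Or.inr (Or.inr ⟨huv, z, ⟨e5, e6⟩, e4⟩)
  · refine Or.inr (Or.inl ⟨huv, z, e5, (Nat.le_div_iff_mul_le h15).2 ?_, e4⟩)
    rw [mul_comm]
    omega

end Pool.Agent.MP_a7b5fd_co.X

end MrgPart3

-- ======== part 4: formerly Pool.Agent.MP_a7b5fd_co.X.Num
section MrgPart4

/-! The choice of the parameters. -/

set_option autoImplicit false

namespace Pool.Agent.MP_a7b5fd_co.X

open Finset Pool.Agent.MP_a7b5fd_co.H39 Pool.Agent.MP_a7b5fd_co.H11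

namespace NumA

theorem small {g : ℕ} (hg : 128 ≤ g) :
    12 * (g + 1) ^ 12 + 15 ≤ 2 ^ g ∧ 2 ^ 21 * g ^ 3 ≤ 2 ^ g := by
  have a1 : ∀ t, 8 ≤ t → 16 * (t + 1) ≤ 2 ^ t := by
    intro t ht
    induction t, ht using Nat.le_induction with
    | base => norm_num
    | succ t ht ih => rw [pow_succ]; omega
  obtain ⟨t, h1, h2, h3⟩ : ∃ t, g + 1 ≤ 2 ^ t ∧ 16 * t ≤ g ∧ 8 ≤ t :=
    ⟨g / 16, le_trans (by omega) (a1 _ (by omega)), by omega, by omega⟩
  have b1 : (g + 1) ^ 12 ≤ 2 ^ (t * 12) := by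
    rw [pow_mul]
    exact Nat.pow_le_pow_left h1 _
  have b2 : g ^ 3 ≤ 2 ^ (t * 3) := by
    rw [pow_mul]
    exact Nat.pow_le_pow_left (by omega) _
  have b3 : 2 ^ (t * 12 + 5) ≤ 2 ^ g := Nat.pow_le_pow_right (by norm_num) (by omega)
  have b4 : 2 ^ (21 + t * 3) ≤ 2 ^ g := Nat.pow_le_pow_right (by norm_num) (by omega)
  have b5 : 1 ≤ 2 ^ (t * 12) := Nat.one_le_two_pow
  rw [pow_add] at b3 b4
  exact ⟨by omega, (Nat.mul_le_mul_left _ b2).trans b4⟩

theorem succ_le {u x a : ℕ} (hu : 2 ≤ u) (h : x ≤ u ^ a) : x + 1 ≤ u ^ (a + 1) := by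
  have : 1 ≤ u ^ a := Nat.one_le_pow _ _ (by omega)
  rw [pow_succ]
  nlinarith

theorem mul_le {u x y a b : ℕ} (h : x ≤ u ^ a) (h' : y ≤ u ^ b) : x * y ≤ u ^ (a + b) := by
  rw [pow_add]
  exact Nat.mul_le_mul h h'

/-- The total cost. -/
theorem total {Δ e u τ Λ η S X J L hi m θ y z : ℕ} (he : 1 ≤ e) (h1 : τ ≤ u) (h2 : Λ ≤ u)
    (h3 : u * u ≤ Δ) (h4 : u * u * η ≤ 2 * Δ) (h5 : S ≤ Δ) (h6 : J * X ≤ Δ)
    (h7 : J * L ≤ 4 * Δ) (h8 : J * (4 * τ * η) * hi ≤ 2 * Δ) (h9 : 1 ≤ hi) (h10 : hi ^ 2 ≤ u)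
    (h11 : hi ^ 2 * θ ≤ Δ) (h12 : hi ^ 2 * y ≤ Δ) (h13 : J * z ≤ 2 * Δ) (h14 : m * hi ≤ 1025 * Δ) :
    (20000 * Δ + S + ((2 * τ * η + 1) * Λ + 4 * (τ + η) * (Λ * 2))) +
      (8 * e * (8 * (Δ * 2 + hi ^ 2 * (θ + 4 * (4 * τ * η) + y))) +
        ((Δ * 2 + J * (6 * (L + 4 * (4 * τ * η) + X))) +
          8 * e * (8 * (m * hi + J * (2 * (L + 2 * (4 * τ * η) * hi + z)))))) ≤
      90000 * e * Δ := by
  have a0 : u ≤ u * u := Nat.le_mul_self u
  have a1 : τ * Λ ≤ u * u := Nat.mul_le_mul h1 h2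
  have a2 : τ * Λ * η ≤ 2 * Δ := (Nat.mul_le_mul_right _ a1).trans h4
  have a3 : Λ * η ≤ 2 * Δ := (Nat.mul_le_mul_right _ (h2.trans a0)).trans h4
  have a4 : (2 * τ * η + 1) * Λ + 4 * (τ + η) * (Λ * 2) ≤ 29 * Δ := by
    have : (2 * τ * η + 1) * Λ + 4 * (τ + η) * (Λ * 2) =
      2 * (τ * Λ * η) + Λ + 8 * (τ * Λ) + 8 * (Λ * η) := by ring
    omega
  have a5 : hi ^ 2 * τ * η ≤ 2 * Δ := (Nat.mul_le_mul_right _ (Nat.mul_le_mul h10 h1)).trans h4
  have a6 : Δ * 2 + hi ^ 2 * (θ + 4 * (4 * τ * η) + y) ≤ 36 * Δ := by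
    have : hi ^ 2 * (θ + 4 * (4 * τ * η) + y) =
      hi ^ 2 * θ + 16 * (hi ^ 2 * τ * η) + hi ^ 2 * y := by ring
    omega
  have a7 : J * (4 * τ * η) ≤ 2 * Δ := (Nat.le_mul_of_pos_right _ h9).trans h8
  have a8 : Δ * 2 + J * (6 * (L + 4 * (4 * τ * η) + X)) ≤ 80 * Δ := by
    have : J * (6 * (L + 4 * (4 * τ * η) + X)) =
      6 * (J * L) + 24 * (J * (4 * τ * η)) + 6 * (J * X) := by ring
    omega
  have a9 : m * hi + J * (2 * (L + 2 * (4 * τ * η) * hi + z)) ≤ 1045 * Δ := by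
    have : J * (2 * (L + 2 * (4 * τ * η) * hi + z)) =
      2 * (J * L) + 4 * (J * (4 * τ * η) * hi) + 2 * (J * z) := by ring
    omega
  have b1 := Nat.mul_le_mul_left (8 * e) (Nat.mul_le_mul_left 8 a6)
  have b2 := Nat.mul_le_mul_left (8 * e) (Nat.mul_le_mul_left 8 a9)
  have b3 : Δ ≤ e * Δ := Nat.le_mul_of_pos_left _ he
  have b4 : 8 * e * (8 * (36 * Δ)) = 2304 * (e * Δ) := by ring
  have b5 : 8 * e * (8 * (1045 * Δ)) = 66880 * (e * Δ) := by ring
  have b6 : 90000 * e * Δ = 90000 * (e * Δ) := by ring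
  omega

end NumA

open NumA

theorem num_cov (hCol : ColS) (hTop : TopS) (hH : HcolS) (hC : ColumnS) (hD : DenseS)
    (hS : SparseS) (hL : LayS) {n : ℕ} (G : SimpleGraph (Fin n)) [DecidableRel G.Adj]
    {Δ g e : ℕ} (hΔ : ∀ v, G.degree v ≤ Δ) (hg : 128 ≤ g) (h1 : 2 ^ g ^ 6 ≤ Δ)
    (h2 : Δ < 2 ^ (g + 1) ^ 6) (hn : Δ < n) (h3 : n ≤ 2 ^ (2 * (g + 1) ^ 12)) (h4 : n ≤ Δ ^ e)
    (he : 1 ≤ e) : Cov G (fun u v => u ≠ v ∧ ¬G.Adj u v) (90000 * e * Δ) := by
  obtain ⟨s1, s2⟩ := small hg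
  obtain ⟨u, hu⟩ : ∃ u, u = 2 ^ g := ⟨_, rfl⟩
  have g2 : 128 * g ≤ g ^ 2 := by nlinarith
  have g3 : 128 * g ^ 2 ≤ g ^ 3 := by rw [pow_succ g 2]; nlinarith
  have g5 : 128 * (128 * g ^ 3) ≤ g ^ 5 := by
    calc _ = (128 * 128) * g ^ 3 := by ring
      _ ≤ g ^ 2 * g ^ 3 := Nat.mul_le_mul_right _ (by nlinarith)
      _ = _ := by ring
  rw [← hu] at s1 s2
  have hu2 : 2 ≤ u := by omega
  have up : ∀ {a b : ℕ}, a ≤ b → u ^ a ≤ u ^ b := fun h => Nat.pow_le_pow_right (by omega) h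
  have big : ∀ {x a : ℕ}, x ≤ u ^ a → a ≤ g ^ 5 → x ≤ Δ := fun h h' =>
    h.trans ((up h').trans (le_trans (le_of_eq (by rw [hu, ← pow_mul]; congr 1; ring)) h1))
  have one : ∀ {x : ℕ}, x ≤ u → x ≤ u ^ 1 := fun h => by rwa [pow_one]
  have h0 : 0 < Δ := lt_of_lt_of_le (by positivity) h1
  obtain ⟨Λ, hΛ⟩ : ∃ Λ, Λ = 2 * (g + 1) ^ 12 := ⟨_, rfl⟩
  obtain ⟨τ, hτ⟩ : ∃ τ, τ = 3 * Λ + 6 := ⟨_, rfl⟩
  rw [← hΛ] at h3
  have p1 : 2 * τ + 3 ≤ u := by omega
  have hN : 2 ^ τ = 64 * (2 ^ Λ * 2 ^ Λ * 2 ^ Λ) := by rw [hτ]; ring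
  obtain ⟨hi, hhi⟩ : ∃ hi, hi = 2 ^ 8 * (2 * g) := ⟨_, rfl⟩
  obtain ⟨b, hb⟩ : ∃ b, b = 8 * hi ^ 2 * g := ⟨_, rfl⟩
  have p2 : b ≤ u := by
    rw [hb, hhi]
    exact le_trans (le_of_eq (by ring)) s2
  have p3 : hi ≤ hi ^ 2 := Nat.le_self_pow (by norm_num) _
  have p4 : 8 * hi ^ 2 ≤ b := hb ▸ Nat.le_mul_of_pos_right _ (by omega)
  have p5 : 0 < hi ^ 2 := by rw [hhi]; positivity
  obtain ⟨A, hA⟩ : ∃ A, A = u ^ (6 * g) := ⟨_, rfl⟩
  have hA0 : 0 < A := by rw [hA]; positivity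
  obtain ⟨E, hE⟩ : ∃ E, E = u ^ (6 * g + 3) := ⟨_, rfl⟩
  have hE0 : 0 < E := by rw [hE]; positivity
  obtain ⟨η, hη⟩ : ∃ η, η = Δ / E + 1 := ⟨_, rfl⟩
  have q1 : Δ ≤ η * E := by
    have := Nat.lt_div_mul_add (a := Δ) hE0
    rw [hη, add_mul]
    omega
  have q2 : η * E ≤ 2 * Δ := by
    have a1 := Nat.div_mul_le_self Δ E
    have a2 : E ≤ Δ := big hE.le (by omega)
    rw [hη, add_mul]
    omega
  obtain ⟨Q, hQ⟩ : ∃ Q, Q = (2 * τ + 3) * E ^ 2 := ⟨_, rfl⟩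
  have q3 : Q ≤ u ^ (1 + (6 * g + 3) * 2) := hQ ▸ mul_le (one p1) (by rw [hE, ← pow_mul])
  have q4 : 3 * Q ≤ u ^ (1 + (1 + (6 * g + 3) * 2)) := mul_le (one (by omega)) q3
  obtain ⟨L, hL'⟩ : ∃ L, L = Δ / A + 1 := ⟨_, rfl⟩
  obtain ⟨d₁, hd₁⟩ : ∃ d₁, d₁ = 4 * (hi ^ 2) ^ 2 * (b * (2 * τ + 3)) := ⟨_, rfl⟩
  obtain ⟨J, hJ⟩ : ∃ J, J = d₁ * (d₁ + 1) ^ g + Δ / L := ⟨_, rfl⟩
  have r1 : d₁ + 1 ≤ u ^ 5 := by
    refine succ_le (a := 1 + 1 + (1 + 1)) hu2 ?_
    rw [hd₁, show 4 * (hi ^ 2) ^ 2 = 4 * hi ^ 2 * hi ^ 2 by ring]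
    exact mul_le (mul_le (one (by omega)) (one (by omega))) (mul_le (one p2) (one p1))
  have r2 : J ≤ 2 * A := by
    have a1 : d₁ * (d₁ + 1) ^ g ≤ u ^ (5 + 5 * g) :=
      mul_le (by omega) (by rw [pow_mul]; exact Nat.pow_le_pow_left r1 _)
    have a2 : u ^ (5 + 5 * g) ≤ A := hA ▸ up (by omega)
    have a3 : Δ / L ≤ A := by
      refine Nat.div_le_of_le_mul ?_
      have := Nat.lt_div_mul_add (a := Δ) hA0
      rw [hL', add_mul]
      omega
    omega
  have r3 : J ≤ u ^ (1 + 6 * g) := r2.trans (mul_le (one hu2) hA.le)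
  obtain ⟨w, hw⟩ : ∃ w, w = 15 * g ^ 3 := ⟨_, rfl⟩
  have hw2 : 2 ^ w = u ^ (15 * g ^ 2) := by rw [hu, hw, ← pow_mul]; congr 1; ring
  have hX : (3 * w) ^ (32 * w) ≤ u ^ (32 * w) := Nat.pow_le_pow_left (by omega) _
  obtain ⟨q, hq⟩ : ∃ q, q = 2 * g := ⟨_, rfl⟩
  obtain ⟨d, hd⟩ : ∃ d, d = Nat.log (q ^ 4) Δ := ⟨_, rfl⟩
  have hq1 : 1 < q ^ 4 := Nat.one_lt_pow (by norm_num) (by omega)
  have t1 : (q ^ 4) ^ d ≤ Δ := hd ▸ Nat.pow_log_le_self _ h0.ne'
  have t2 : Δ < (q ^ 4) ^ (d + 1) := hd ▸ Nat.lt_pow_succ_log_self hq1 _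
  obtain ⟨y, hy⟩ : ∃ y, y = (q ^ 2) ^ d := ⟨_, rfl⟩
  have t3 : (q ^ 4) ^ d = y * y := by rw [hy]; ring
  have t4 : hi ^ d ≤ y := hy ▸ Nat.pow_le_pow_left (by rw [hhi, ← hq]; nlinarith) _
  have t5 : u ^ (6 * g + 1) ≤ y := by
    by_contra hcon
    have a1 : y ≤ u ^ (6 * g + 1) := by omega
    have a2 : q ^ 4 ≤ u ^ 4 := Nat.pow_le_pow_left (by omega) _
    have a3 := big (mul_le (mul_le a1 a1) a2) (by omega)
    rw [pow_succ, t3] at t2
    omega
  have t6 : 1 ≤ d := by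
    by_contra hcon
    obtain rfl : d = 0 := by omega
    have := up (show 1 ≤ 6 * g + 1 by omega)
    rw [pow_zero] at hy
    rw [pow_one] at this
    omega
  have t7 : d * q ^ 2 < q ^ 8 := by
    have a1 : 2 ^ d ≤ (q ^ 4) ^ d := Nat.pow_le_pow_left hq1 _
    have a2 : d < (g + 1) ^ 6 :=
      (Nat.pow_lt_pow_iff_right (by norm_num)).1 ((a1.trans t1).trans_lt h2)
    have a3 : (g + 1) ^ 6 ≤ q ^ 6 := Nat.pow_le_pow_left (by omega) _
    calc d * q ^ 2 < q ^ 6 * q ^ 2 := Nat.mul_lt_mul_of_pos_right (a2.trans_le a3) (Nat.pow_pos (by omega))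
      _ = _ := by ring
  have t8 : n ≤ (q ^ d) ^ (8 * e) := by
    refine h4.trans ?_
    rw [pow_mul]
    refine Nat.pow_le_pow_left (t2.le.trans ?_) _
    rw [← pow_mul, ← pow_mul]
    exact Nat.pow_le_pow_right (by omega) (by omega)
  have hsep := hL n (8 * e) 8 d q (by omega) (by norm_num) t8 t7
  rw [hq, ← hhi] at hsep
  have hN1 : Δ + 2 ≤ 2 * 2 ^ Λ := by omega
  have hQΔ : Q ≤ 2 ^ Λ := (big q3 (by omega)).trans (by omega)
  refine (main_cov hCol hTop hH hC hD hS G Δ τ (u ^ 3) w η Q Λ (hi ^ 2) g L b d₁ J (8 * e) 8 d hi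
    hΔ h0 ?_ (Nat.pow_le_pow_left (by omega) _) ?_ (by omega) ?_ (hη ▸ Nat.succ_pos _)
    (by rw [hQ]; positivity) ?_ ?_ ?_ h3 (by omega) (hL' ▸ Nat.succ_pos _) (by omega) p5 hd₁ hJ ?_
    hsep).mono (fun _ _ h => h) ?_
  · rw [hN]
    generalize 2 ^ Λ = N at h3 hN1 ⊢
    calc 8 * n * (Δ + 2) * Δ ≤ 8 * N * (2 * N) * N :=
          Nat.mul_le_mul (Nat.mul_le_mul (by omega) hN1) (by omega)
      _ = 16 * (N * N * N) := by ring
      _ ≤ _ := by omega
  · have := big (mul_le (le_refl (u ^ 3)) (one (x := τ) (by omega))) (by omega)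
    omega
  · exact hw2 ▸ (succ_le hu2 q4).trans (up (by omega))
  · calc Δ * (2 * τ + 3) ≤ η * E * ((2 * τ + 3) * E) :=
          Nat.mul_le_mul q1 (Nat.le_mul_of_pos_right _ hE0)
      _ = _ := by rw [hQ]; ring
  · calc Δ ^ 2 * (2 * τ + 3) ≤ (η * E) ^ 2 * (2 * τ + 3) :=
          Nat.mul_le_mul_right _ (Nat.pow_le_pow_left q1 _)
      _ = _ := by rw [hQ]; ring
  · rw [hN]
    generalize 2 ^ Λ = N at h3 hN1 hQΔ ⊢
    have a1 : Δ * Q ≤ N * N := Nat.mul_le_mul (by omega) hQΔ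
    have a2 : 0 < N * N := Nat.mul_pos (by omega) (by omega)
    have a3 : 4 * Δ * (3 * Q) + 1 ≤ 13 * (N * N) := by
      have : 4 * Δ * (3 * Q) = 12 * (Δ * Q) := by ring
      omega
    calc n * (4 * Δ * (3 * Q) + 1) * 4 ≤ N * (13 * (N * N)) * 4 :=
          Nat.mul_le_mul_right _ (Nat.mul_le_mul h3 a3)
      _ = 52 * (N * N * N) := by ring
      _ ≤ _ := by omega
  · have a1 : (b * (3 * Q) + 1) ^ g ≤ u ^ (13 * g * g) := by
      rw [pow_mul]
      exact Nat.pow_le_pow_left ((succ_le hu2 (mul_le (one p2) q4)).trans (up (by omega))) _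
    have a2 := succ_le hu2 (mul_le (one (x := g) (by omega))
      (mul_le (succ_le hu2 (mul_le (one p2) (one (x := τ + 2) (by omega)))) r3))
    rw [hw2]
    refine (succ_le hu2 (mul_le a1 a2)).trans (up ?_)
    have : 13 * g * g = 13 * g ^ 2 := by ring
    omega
  · have a1 : (8 * (τ + 2) ^ 2) ^ (2 * w) ≤ u ^ ((1 + 2) * (2 * w)) := by
      rw [pow_mul u]
      exact Nat.pow_le_pow_left
        (mul_le (one (by omega)) (Nat.pow_le_pow_left (by omega) _)) _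
    have a2 : E = A * u * u * u := by rw [hA, hE]; ring
    refine total (u := u) he (by omega) (by omega) ?_ ?_ ?_ ?_ ?_ ?_ (by omega)
      (by omega) (Nat.mul_div_le _ _) ?_ ?_ ?_
    · exact big (mul_le (one le_rfl) (one le_rfl)) (by omega)
    · refine le_trans ?_ q2
      rw [mul_comm η]
      exact Nat.mul_le_mul_right _ ((mul_le (one le_rfl) (one le_rfl)).trans (hE ▸ up (by omega)))
    · exact big (mul_le (one (x := τ + 2) (by omega))
        (mul_le (one (x := 6) (by omega)) (mul_le a1 hX))) (by omega)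
    · exact big (mul_le r3 hX) (by omega)
    · have b1 := Nat.div_mul_le_self Δ A
      have b2 : A ≤ Δ := big hA.le (by omega)
      calc J * L ≤ 2 * A * L := Nat.mul_le_mul_right _ r2
        _ = 2 * (Δ / A * A) + 2 * A := by rw [hL']; ring
        _ ≤ _ := by omega
    · refine le_trans ?_ q2
      calc J * (4 * τ * η) * hi = η * (J * τ * (4 * hi)) := by ring
        _ ≤ η * (2 * A * u * (4 * hi)) :=
            Nat.mul_le_mul_left _ (Nat.mul_le_mul_right _ (Nat.mul_le_mul r2 (by omega)))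
        _ = η * (A * u * (8 * hi) * 1) := by ring
        _ ≤ _ := by
            rw [a2]
            exact Nat.mul_le_mul_left _
              (Nat.mul_le_mul (Nat.mul_le_mul_left _ (by omega)) (by omega))
    · have b1 : hi ^ 2 ≤ y := (one (by omega)).trans ((up (by omega)).trans t5)
      exact (Nat.mul_le_mul b1 t4).trans (t3 ▸ t1)
    · have b1 : A * hi ≤ y := (mul_le hA.le (one (by omega))).trans t5
      calc J * hi ^ (d + 1) ≤ 2 * A * (y * hi) := by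
            rw [pow_succ]
            exact Nat.mul_le_mul r2 (Nat.mul_le_mul_right _ t4)
        _ = 2 * (A * hi * y) := by ring
        _ ≤ 2 * (y * y) := Nat.mul_le_mul_left _ (Nat.mul_le_mul_right _ b1)
        _ ≤ _ := Nat.mul_le_mul_left _ (t3 ▸ t1)
    · have b1 := Nat.div_mul_le_self Δ g
      have b2 := Nat.div_mul_le_self (4 * Δ) b
      have b3 : 2 * hi ^ 2 * hi ≤ Δ :=
        big (mul_le (one (by omega)) (one (x := hi) (by omega))) (by omega)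
      have b4 : (Δ / g + 2 * hi ^ 2 * (4 * Δ / b + 1)) * hi =
          512 * (Δ / g * g) + 128 * (4 * Δ / b * (8 * hi ^ 2 * g)) + 2 * hi ^ 2 * hi := by
        generalize 4 * Δ / b = x
        generalize hi ^ 2 = z
        rw [hhi]
        ring
      rw [← hb] at b4
      omega

end Pool.Agent.MP_a7b5fd_co.X

end MrgPart4

-- ======== part 5: formerly Pool.Agent.MP_a7b5fd_co.X.Base
section MrgPart5

/-! Ranks, greedy choice, and coverings from a family of token systems. -/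

set_option autoImplicit false

namespace Pool.Agent.MP_a7b5fd_co.X

open Finset Pool.Agent.MP_a7b5fd_co.H39 Pool.Agent.MP_a7b5fd_co.H11

namespace Base

variable {V : Type} [DecidableEq V] {δ : ℕ} {Out : V → Finset V}

theorem low (h : ∀ u, (Out u).card ≤ δ) (S : Finset V) (hS : S.Nonempty) :
    ∃ u ∈ S, (S.filter fun v => v ∈ Out u ∨ u ∈ Out v).card ≤ 2 * δ := by
  refine exists_le_of_sum_le hS ?_
  have h1 : ∑ u ∈ S, (S.filter fun v => u ∈ Out v).card ≤ ∑ _u ∈ S, δ := by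
    simp only [card_filter]
    rw [sum_comm]
    refine sum_le_sum fun v _ => ?_
    rw [← card_filter]
    exact (card_le_card fun x hx => (mem_filter.1 hx).2).trans (h v)
  have h2 : ∑ u ∈ S, (S.filter fun v => v ∈ Out u).card ≤ ∑ _u ∈ S, δ :=
    sum_le_sum fun u _ => (card_le_card fun x hx => (mem_filter.1 hx).2).trans (h u)
  calc _ ≤ ∑ u ∈ S, ((S.filter fun v => v ∈ Out u).card + (S.filter fun v => u ∈ Out v).card) :=
        sum_le_sum fun u _ => by rw [filter_or]; exact card_union_le _ _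
    _ ≤ ∑ _u ∈ S, δ + ∑ _u ∈ S, δ := by rw [sum_add_distrib]; exact Nat.add_le_add h2 h1
    _ = _ := by rw [← sum_add_distrib, two_mul]

theorem rk (h : ∀ u, (Out u).card ≤ δ) (k : ℕ) : ∀ S : Finset V, S.card = k →
    ∃ r : V → ℕ, (∀ u ∈ S, ∀ v ∈ S, r u = r v → u = v) ∧ (∀ u ∈ S, r u < k) ∧
      ∀ u ∈ S, Few (2 * δ) fun v => v ∈ S ∧ (v ∈ Out u ∨ u ∈ Out v) ∧ r v < r u := by
  induction k with
  | zero =>
    intro S hS
    obtain rfl := card_eq_zero.1 hS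
    exact ⟨fun _ => 0, by simp, by simp, by simp⟩
  | succ k ih =>
    intro S hS
    obtain ⟨w, hw, hc⟩ := low h S (card_pos.1 (by omega))
    obtain ⟨r, r1, r2, r3⟩ := ih (S.erase w) (by rw [card_erase_of_mem hw, hS]; rfl)
    have e : ∀ u, u ≠ w → Function.update r w k u = r u := fun u hu => Function.update_of_ne hu _ _
    have e0 : Function.update r w k w = k := Function.update_self _ _ _
    have lt : ∀ u ∈ S, u ≠ w → r u < k := fun u hu hn => r2 u (mem_erase.2 ⟨hn, hu⟩)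
    refine ⟨Function.update r w k, fun u hu v hv huv => ?_, fun u hu => ?_, fun u hu => ?_⟩
    · by_cases h1 : u = w <;> by_cases h2 : v = w
      · rw [h1, h2]
      · rw [h1, e0, e v h2] at huv
        exact absurd huv (lt v hv h2).ne'
      · rw [h2, e0, e u h1] at huv
        exact absurd huv (lt u hu h1).ne
      · rw [e u h1, e v h2] at huv
        exact r1 u (mem_erase.2 ⟨h1, hu⟩) v (mem_erase.2 ⟨h2, hv⟩) huv
    · by_cases h1 : u = w
      · rw [h1, e0]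
        omega
      · rw [e u h1]
        exact (lt u hu h1).trans (Nat.lt_succ_self k)
    · by_cases h1 : u = w
      · subst h1
        exact ⟨_, hc, fun v hv => mem_filter.2 ⟨hv.1, hv.2.1⟩⟩
      · refine (r3 u (mem_erase.2 ⟨h1, hu⟩)).mono le_rfl ?_
        rintro v ⟨a1, a2, a3⟩
        have h2 : v ≠ w := by
          rintro rfl
          rw [e0, e u h1] at a3
          exact absurd (lt u hu h1) (by omega)
        rw [e u h1, e v h2] at a3
        exact ⟨mem_erase.2 ⟨h2, a1⟩, a2, a3⟩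

end Base

theorem rank : RankS := by
  intro V _ δ Out h
  classical
  obtain ⟨r, r1, -, r3⟩ := Base.rk h _ univ rfl
  exact ⟨r, fun u v => r1 u (mem_univ _) v (mem_univ _),
    fun u => (r3 u (mem_univ _)).mono le_rfl fun v hv => ⟨mem_univ _, hv⟩⟩

theorem greedyR : GreedyS := by
  intro V Y _ hY r OK hc ex
  have key : ∀ t, ∃ f : V → Y, ∀ u, r u < t → OK u f (f u) := by
    intro t
    induction t with
    | zero => exact ⟨fun _ => hY.some, fun _ h => absurd h (Nat.not_lt_zero _)⟩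
    | succ t ih =>
      obtain ⟨f, hf⟩ := ih
      refine ⟨fun u => if r u = t then (ex u f).choose else f u, fun u hu => ?_⟩
      refine hc u f _ _ (fun v hv => (if_neg (by omega)).symm) ?_
      by_cases h : r u = t
      · simp only [if_pos h]
        exact (ex u f).choose_spec
      · simp only [if_neg h]
        exact hf u (by omega)
  obtain ⟨f, hf⟩ := key (univ.sup r + 1)
  exact ⟨f, fun u => hf u (Nat.lt_succ_of_le (le_sup (mem_univ u)))⟩

theorem base : BaseS := by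
  intro n G S W Γ Sep Lf Ce own pos sym g a b mL mC δ₁ δ₂ hP hg hL hC hCC hLC hLL
  classical
  obtain ⟨U, ι, _, A, B, cι, ca, cb, dA, dB, dAB, hAB⟩ := hP
  have : Nonempty ι := Fintype.card_pos_iff.1 (by omega)
  have hidx : ∀ σ, ∃ f : Fin n → ι, ∀ u v, G.Adj u v → Lf u σ → Lf v σ →
      ∀ τ ∈ A (own u σ) (f u), τ ∉ A (own v σ) (f v) := by
    intro σ
    obtain ⟨Same, cS, Out, cO, hO⟩ := hLL σ
    obtain ⟨r, r1, r2⟩ := rank (Fin n) δ₂ Out cO
    obtain ⟨f, hf⟩ := greedyR (Fin n) ι r (fun u f y => (∀ v ∈ Same u, r v < r u → f v ≠ y) ∧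
      ∀ v, (v ∈ Out u ∨ u ∈ Out v) → r v < r u → ∀ τ ∈ A (own u σ) y, τ ∉ A (own v σ) (f v))
      (fun u f f' y h hy => ⟨fun v h1 h2 => h v h2 ▸ hy.1 v h1 h2,
        fun v h1 h2 => h v h2 ▸ hy.2 v h1 h2⟩) (by
        intro u f
        obtain ⟨T, t1, t2⟩ := r2 u
        obtain ⟨y, -, hy⟩ := exists_mem_notMem_of_card_lt_card
          (s := (Same u).image f ∪ T.biUnion fun v => (A (own v σ) (f v)).biUnion fun τ =>
            univ.filter fun y => τ ∈ A (own u σ) y) (t := univ) (by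
          rw [card_univ]
          refine lt_of_le_of_lt ((card_union_le _ _).trans (Nat.add_le_add
            (card_image_le.trans (cS u)) ((card_biUnion_le_card_mul _ _ a fun v _ =>
            (card_biUnion_le_card_mul _ _ 1 fun τ _ => card_le_one.2 fun y h1 y' h2 =>
              dA _ _ _ τ (mem_filter.1 h1).2 (mem_filter.1 h2).2).trans
              (by simpa using ca _ _)).trans (Nat.mul_le_mul_right _ t1)))) (hg.trans_le cι))
        exact ⟨y, fun v h1 _ h3 => hy (mem_union_left _ (mem_image.2 ⟨v, h1, h3⟩)),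
          fun v h1 h2 τ h3 h4 => hy (mem_union_right _ (mem_biUnion.2 ⟨v, t2 v ⟨h1, h2⟩,
            mem_biUnion.2 ⟨τ, h4, mem_filter.2 ⟨mem_univ _, h3⟩⟩⟩))⟩)
    have half : ∀ u v, r v < r u → G.Adj u v → Lf u σ → Lf v σ →
        ∀ τ ∈ A (own u σ) (f u), τ ∉ A (own v σ) (f v) := by
      intro u v h huv l1 l2 τ h1 h2
      by_cases hs : own u σ = own v σ ∧ v ∈ Same u ∧ u ∈ Same v
      · exact (hf u).1 v hs.2.1 h (dA _ _ _ τ h2 (hs.1 ▸ h1))
      · exact (hf u).2 v (hO u v ⟨huv, l1, l2, hs⟩) h τ h1 h2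
    refine ⟨f, fun u v huv l1 l2 τ h1 h2 => ?_⟩
    rcases lt_or_gt_of_ne (fun h => huv.ne (r1 h)) with h | h
    · exact half v u h huv.symm l2 l1 τ h2 h1
    · exact half u v h huv l1 l2 τ h1 h2
  choose f hf using hidx
  choose SL l1 l2 using hL
  choose SC c1 c2 using hC
  let L : Fin n → Finset (S × U) := fun x => ((SL x).filter (Lf x)).biUnion
    fun σ => (A (own x σ) (f σ x)).image fun τ => (σ, τ)
  let C : Fin n → Finset (S × U) := fun x => ((SC x).filter (Ce x)).biUnion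
    fun σ => (B (pos x σ) (sym x σ)).image fun τ => (σ, τ)
  have mL' : ∀ x, ∀ τ ∈ L x, Lf x τ.1 ∧ τ.2 ∈ A (own x τ.1) (f τ.1 x) := by
    intro x τ hτ
    obtain ⟨σ, hσ, hτ⟩ := mem_biUnion.1 hτ
    obtain ⟨z, hz, rfl⟩ := mem_image.1 hτ
    exact ⟨(mem_filter.1 hσ).2, hz⟩
  have mC' : ∀ x, ∀ τ ∈ C x, Ce x τ.1 ∧ τ.2 ∈ B (pos x τ.1) (sym x τ.1) := by
    intro x τ hτ
    obtain ⟨σ, hσ, hτ⟩ := mem_biUnion.1 hτ
    obtain ⟨z, hz, rfl⟩ := mem_image.1 hτ
    exact ⟨(mem_filter.1 hσ).2, hz⟩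
  have LC : ∀ u v, G.Adj u v → ∀ τ ∈ L u, τ ∉ C v := by
    intro u v huv τ hu hv
    obtain ⟨e1, e2⟩ := mL' u τ hu
    obtain ⟨e3, e4⟩ := mC' v τ hv
    exact dAB _ _ _ _ e2 (hLC u v _ huv e1 e3 ▸ e4)
  refine ⟨S × U, fun x => L x ∪ C x, fun x => ?_, ?_, ?_⟩
  · exact (card_union_le _ _).trans (Nat.add_le_add
      ((card_biUnion_le_card_mul _ _ a fun σ _ => card_image_le.trans (ca _ _)).trans
        (Nat.mul_le_mul_right _ ((card_filter_le _ _).trans (l1 x))))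
      ((card_biUnion_le_card_mul _ _ b fun σ _ => card_image_le.trans (cb _ _)).trans
        (Nat.mul_le_mul_right _ ((card_filter_le _ _).trans (c1 x)))))
  · intro u v huv τ hu hv
    rcases mem_union.1 hu with hu | hu <;> rcases mem_union.1 hv with hv | hv
    · exact hf τ.1 u v huv (mL' u τ hu).1 (mL' v τ hv).1 τ.2 (mL' u τ hu).2 (mL' v τ hv).2
    · exact LC u v huv τ hu hv
    · exact LC v u huv.symm τ hv hu
    · obtain ⟨e1, e2⟩ := mC' u τ hu
      obtain ⟨e3, e4⟩ := mC' v τ hv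
      obtain ⟨e5, e6⟩ := hCC u v _ huv e1 e3
      exact e6 (dB _ _ _ _ e2 (e5 ▸ e4))
  · rintro u v ⟨σ, e1, e2, e3⟩
    obtain ⟨τ, e5, e6⟩ := hAB _ _ (f σ u) (sym v σ) e3
    exact ⟨(σ, τ), mem_union_left _ (mem_biUnion.2 ⟨σ, mem_filter.2 ⟨l2 u σ e1, e1⟩,
      mem_image.2 ⟨τ, e5, rfl⟩⟩), mem_union_right _ (mem_biUnion.2
        ⟨σ, mem_filter.2 ⟨c2 v σ e2, e2⟩, mem_image.2 ⟨τ, e6, rfl⟩⟩)⟩

end Pool.Agent.MP_a7b5fd_co.X

end MrgPart5

-- marker of a merged file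
example : 731051 + 179190 = 731051 + 179190 := rfl
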