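import Pool.Agent.MP_a7b5fd_co.X.Base
import Mathlib.NumberTheory.Bertrand

-- ======== part 0: formerly Pool.Agent.MP_a7b5fd_co.X.Sys
section MrgPart0

/-! Token systems: copies, the constant density system and the two paraboloid systems. -/

set_option autoImplicit false

namespace Pool.Agent.MP_a7b5fd_co.X

open Finset Pool.Agent.MP_a7b5fd_co.H39 Pool.Agent.MP_a7b5fd_co.H11

namespace SysAux

theorem mono {W Γ : Type} {Sep : W → W → Prop} {g a b g' b' : ℕ} (h : PSys W Γ Sep g a b)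
    (hg : g' ≤ g) (hb : b ≤ b') : PSys W Γ Sep g' a b' := by
  obtain ⟨U, ι, i, A, B, h1, h2, h3, h4⟩ := h
  exact ⟨U, ι, i, A, B, hg.trans h1, h2, fun x γ => (h3 x γ).trans hb, h4⟩

theorem copies {W Γ : Type} {Sep : W → W → Prop} {g a b : ℕ} (h : PSys W Γ Sep g a b) (s : ℕ) :
    PSys W Γ Sep (s * g) a (s * b) := by
  obtain ⟨U, ι, i, A, B, h1, h2, h3, h4, h5, h6, h7⟩ := h
  refine ⟨Fin s × U, Fin s × ι, inferInstance, fun x k => {k.1} ×ˢ A x k.2,
    fun x γ => univ ×ˢ B x γ, ?_, ?_, ?_, ?_, ?_, ?_, ?_⟩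
  · rw [Fintype.card_prod, Fintype.card_fin]
    exact Nat.mul_le_mul_left _ h1
  · intro x k
    rw [card_product, card_singleton, one_mul]
    exact h2 _ _
  · intro x γ
    rw [card_product, card_univ, Fintype.card_fin]
    exact Nat.mul_le_mul_left _ (h3 _ _)
  · intro x k l τ e1 e2
    rw [mem_product, mem_singleton] at e1 e2
    exact Prod.ext (e1.1.symm.trans e2.1) (h4 _ _ _ _ e1.2 e2.2)
  · intro x γ γ' τ e1 e2
    exact h5 _ _ _ _ (mem_product.1 e1).2 (mem_product.1 e2).2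
  · intro x k γ τ e1 e2
    exact h6 _ _ _ _ (mem_product.1 e1).2 (mem_product.1 e2).2
  · intro x y k γ e
    obtain ⟨τ, e1, e2⟩ := h7 x y k.2 γ e
    exact ⟨(k.1, τ), mem_product.2 ⟨mem_singleton_self _, e1⟩, mem_product.2 ⟨mem_univ _, e2⟩⟩

/-- Enough copies to have `t + 1` options. -/
theorem boost {W Γ : Type} {Sep : W → W → Prop} {g a b c X : ℕ} (h : PSys W Γ Sep g a b)
    (hg : 0 < g) (hb : b ≤ c * g) (hX : g ≤ X) (t : ℕ) : PSys W Γ Sep (t + 1) a (c * (t + X)) := by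
  have e1 : t < (t / g + 1) * g := by
    have := Nat.lt_mul_div_succ t hg
    rwa [mul_comm] at this
  have e2 : (t / g + 1) * g ≤ t + X := by
    rw [add_mul, one_mul]
    exact Nat.add_le_add (Nat.div_mul_le_self t g) hX
  refine mono (copies h (t / g + 1)) e1 ((Nat.mul_le_mul_left _ hb).trans ?_)
  rw [mul_left_comm]
  exact Nat.mul_le_mul_left _ e2

section Par

variable {F : Type} [Field F] {d : ℕ}

/-- The symbol that the centre `a` gives to a token. -/
def sy (a : Fin d → F) (τ : (Fin d → F) × F × F) : F :=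
  τ.2.1 - 2 * ∑ j, τ.1 j * a j + τ.2.2 * ∑ j, a j ^ 2

/-- The points of a line in the direction of the paraboloid point above `a`. -/
def pt (a y : Fin d → F) (al t : F) : (Fin d → F) × F × F :=
  (fun j => y j + t * a j, al + 2 * ∑ j, y j * a j + t * ∑ j, a j ^ 2, t)

theorem sy_pt (a a' y : Fin d → F) (al t : F) :
    sy a' (pt a y al t) =
      (al + 2 * ∑ j, y j * a j - 2 * ∑ j, y j * a' j) + t * ∑ j, (a j - a' j) ^ 2 := by
  have e1 : ∑ j, (y j + t * a j) * a' j = ∑ j, y j * a' j + t * ∑ j, a j * a' j := by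
    rw [mul_sum, ← sum_add_distrib]
    exact sum_congr rfl fun j _ => by ring
  have e2 : ∑ j, (a j - a' j) ^ 2 = ∑ j, a j ^ 2 - 2 * ∑ j, a j * a' j + ∑ j, a' j ^ 2 := by
    rw [mul_sum, ← sum_sub_distrib, ← sum_add_distrib]
    exact sum_congr rfl fun j _ => by ring
  simp only [sy, pt]
  rw [e1, e2]
  ring

theorem sy_self (a y : Fin d → F) (al t : F) : sy a (pt a y al t) = al := by
  rw [sy_pt]
  simp

theorem pt_inj {a y y' : Fin d → F} {al al' t t' : F} (h : pt a y al t = pt a y' al' t') :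
    y = y' ∧ al = al' := by
  have e1 : t = t' := congrArg (fun τ => τ.2.2) h
  subst e1
  refine ⟨funext fun j => ?_, ?_⟩
  · exact add_right_cancel (congrFun (congrArg Prod.fst h) j)
  · rw [← sy_self a y al t, h, sy_self]

end Par

theorem sep_ne {W : Type} {p d : ℕ} {x : W → Fin d → ℕ} {u v : W} (h : SepP p x u v) :
    ∑ j, ((x u j : ZMod p) - x v j) ^ 2 ≠ 0 := by
  intro k
  apply h
  rw [← ZMod.intCast_zmod_eq_zero_iff_dvd]
  push_cast
  exact k

theorem cast_inj {p a b : ℕ} (ha : a < p) (hb : b < p) (h : (a : ZMod p) = b) : a = b := by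
  rwa [ZMod.natCast_eq_natCast_iff', Nat.mod_eq_of_lt ha, Nat.mod_eq_of_lt hb] at h

end SysAux

open SysAux

theorem lin : LinS := by
  intro W _ w t hw hW
  obtain ⟨e⟩ : Nonempty (W ↪ Fin (2 ^ w)) :=
    Function.Embedding.nonempty_of_card_le (by rwa [Fintype.card_fin])
  obtain ⟨U, A, B, h1, h2, h3, h4, h5⟩ := (sys_rs (2 ^ w) w 1 hw (by rw [pow_one])).comap e
  have hd : 3 ∣ (3 * w) ^ (32 * w) := (Dvd.intro _ rfl).pow (by omega)
  have hp : 0 < (3 * w) ^ (32 * w) := Nat.pow_pos (by omega)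
  generalize (3 * w) ^ (32 * w) = X at A h1 h2 h3 h4 h5 hd hp ⊢
  have h0 : PSys W Unit (· ≠ ·) (X / 3) 2 (2 * X) :=
    ⟨U, Fin (X / 3), inferInstance, A, fun x _ => B x, by rw [Fintype.card_fin],
      fun x i => by simpa using h1 x i, fun x _ => by simpa using h2 x, h3,
      fun _ _ _ _ _ _ => rfl, fun x i _ => h4 x i, fun x y i _ => h5 x y i⟩
  exact boost h0 (by omega) (by omega) (by omega) t

theorem thin : ThinS := by
  intro W p d t x hp
  have : Fact p.Prime := ⟨hp⟩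
  have h0 : PSys W Unit (SepP p x) (p ^ d) 2 (p ^ 2 * p ^ d) := by
    refine ⟨(Fin d → ZMod p) × ZMod p × ZMod p, Fin d → ZMod p, inferInstance,
      fun z y => {pt (fun j => (x z j : ZMod p)) y 0 0, pt (fun j => (x z j : ZMod p)) y 0 1},
      fun z _ => univ.filter fun τ => sy (fun j => (x z j : ZMod p)) τ ≠ 0,
      ?_, fun _ _ => card_le_two, ?_, ?_, fun _ _ _ _ _ _ => rfl, ?_, ?_⟩
    · rw [Fintype.card_fun, ZMod.card, Fintype.card_fin]
    · intro z _
      refine (card_le_univ _).trans (le_of_eq ?_)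
      rw [Fintype.card_prod, Fintype.card_prod, Fintype.card_fun, ZMod.card, Fintype.card_fin]
      ring
    · intro z y y' τ e1 e2
      rw [mem_insert, mem_singleton] at e1 e2
      rcases e1 with e1 | e1 <;> rcases e2 with e2 | e2 <;> exact (pt_inj (e1.symm.trans e2)).1
    · intro z y _ τ e1 e2
      rw [mem_insert, mem_singleton] at e1
      rcases e1 with rfl | rfl <;> exact (mem_filter.1 e2).2 (sy_self _ _ _ _)
    · intro z z' y _ e
      have hD := sep_ne e
      by_cases c : sy (fun j => (x z' j : ZMod p)) (pt (fun j => (x z j : ZMod p)) y 0 0) = 0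
      · refine ⟨_, mem_insert_of_mem (mem_singleton_self _), mem_filter.2 ⟨mem_univ _, ?_⟩⟩
        rw [sy_pt, zero_mul, add_zero] at c
        rw [sy_pt, c, zero_add, one_mul]
        exact hD
      · exact ⟨_, mem_insert_self _ _, mem_filter.2 ⟨mem_univ _, c⟩⟩
  exact boost h0 (Nat.pow_pos hp.pos) le_rfl le_rfl t

theorem pal : PalS := by
  intro W p d t q x hp hq
  have : Fact p.Prime := ⟨hp⟩
  have hp0 := hp.pos
  have h0 : PSys W (Fin q) (SepP p x) (p ^ d * (p - q)) p (p ^ d * p) := by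
    refine ⟨(Fin d → ZMod p) × ZMod p × ZMod p, (Fin d → ZMod p) × Fin (p - q), inferInstance,
      fun z y => univ.image (pt (fun j => (x z j : ZMod p)) y.1 ((q + y.2 : ℕ) : ZMod p)),
      fun z γ => univ.filter fun τ => sy (fun j => (x z j : ZMod p)) τ = ((γ : ℕ) : ZMod p),
      ?_, ?_, ?_, ?_, ?_, ?_, ?_⟩
    · rw [Fintype.card_prod, Fintype.card_fun, ZMod.card, Fintype.card_fin, Fintype.card_fin]
    · intro z y
      exact card_image_le.trans (by rw [card_univ, ZMod.card])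
    · intro z γ
      refine (card_le_card_of_injOn (t := univ) (fun τ => (τ.1, τ.2.2)) (fun _ _ => mem_univ _)
        ?_).trans (le_of_eq ?_)
      · rintro ⟨a, b, c⟩ e1 ⟨a', b', c'⟩ e2 e
        obtain ⟨rfl, rfl⟩ : a = a' ∧ c = c' := by simpa using e
        have e3 := (mem_filter.1 e1).2.trans (mem_filter.1 e2).2.symm
        simp only [sy, add_left_inj, sub_left_inj] at e3
        rw [e3]
      · rw [card_univ, Fintype.card_prod, Fintype.card_fun, ZMod.card, Fintype.card_fin]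
    · intro z y y' τ e1 e2
      obtain ⟨s, -, rfl⟩ := mem_image.1 e1
      obtain ⟨s', -, e3⟩ := mem_image.1 e2
      obtain ⟨e4, e5⟩ := pt_inj e3
      have a1 := y.2.2
      have a2 := y'.2.2
      have e6 := cast_inj (by omega) (by omega) e5
      exact Prod.ext e4.symm (Fin.ext (by omega))
    · intro z γ γ' τ e1 e2
      have a1 := γ.2
      have a2 := γ'.2
      exact Fin.ext (cast_inj (p := p) (by omega) (by omega)
        ((mem_filter.1 e1).2.symm.trans (mem_filter.1 e2).2))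
    · intro z y γ τ e1 e2
      obtain ⟨s, -, rfl⟩ := mem_image.1 e1
      have e3 := (mem_filter.1 e2).2
      rw [sy_self] at e3
      have a1 := y.2.2
      have a2 := γ.2
      have e6 := cast_inj (by omega) (by omega) e3
      omega
    · intro z z' y γ e
      have hD := sep_ne e
      refine ⟨_, mem_image.2 ⟨(((γ : ℕ) : ZMod p) - (((q + y.2 : ℕ) : ZMod p) +
        2 * ∑ j, y.1 j * (x z j : ZMod p) - 2 * ∑ j, y.1 j * (x z' j : ZMod p))) /
          ∑ j, ((x z j : ZMod p) - x z' j) ^ 2, mem_univ _, rfl⟩,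
        mem_filter.2 ⟨mem_univ _, ?_⟩⟩
      rw [sy_pt, div_mul_cancel₀ _ hD]
      ring
  refine boost h0 (Nat.mul_pos (Nat.pow_pos hp0) (by omega)) ?_ ?_ t
  · rw [mul_left_comm]
    exact Nat.mul_le_mul_left _ (by omega)
  · rw [pow_succ]
    exact Nat.mul_le_mul_left _ (by omega)

end Pool.Agent.MP_a7b5fd_co.X

end MrgPart0

-- ======== part 1: formerly Pool.Agent.MP_a7b5fd_co.X.Lay
section MrgPart1

/-! Digits and primes, a universal family of hash functions, and the sparse stage. -/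

set_option autoImplicit false

namespace Pool.Agent.MP_a7b5fd_co.X

open Finset Pool.Agent.MP_a7b5fd_co.H39 Pool.Agent.MP_a7b5fd_co.H11

namespace Lay

theorem primes (k q : ℕ) (hq : 1 ≤ q) (hk : 1 ≤ k) :
    ∃ p : ℕ → ℕ, (∀ m, (p m).Prime ∧ q ≤ p m ∧ p m ≤ 2 ^ k * q) ∧
      ∀ m m', m < m' → m' < k → p m < p m' := by
  have h0 : ∀ m : ℕ, 2 ^ (min m (k - 1)) * q ≠ 0 := fun m =>
    Nat.mul_ne_zero (pow_ne_zero _ two_ne_zero) (by omega)
  choose p h1 h2 h3 using fun m => Nat.exists_prime_lt_and_le_two_mul _ (h0 m)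
  have h4 : ∀ m j, min m (k - 1) + 1 ≤ j → p m ≤ 2 ^ j * q := fun m j hj => by
    refine (h3 m).trans ?_
    rw [← mul_assoc, ← pow_succ']
    exact Nat.mul_le_mul_right _ (Nat.pow_le_pow_right two_pos hj)
  refine ⟨p, fun m => ⟨h1 m, ?_, h4 m k (by omega)⟩, fun m m' hm hm' => ?_⟩
  · exact (Nat.le_mul_of_pos_left _ (pow_pos two_pos _)).trans (h2 m).le
  · exact (h4 m _ (by omega)).trans_lt (h2 m')

theorem some_prime {k q : ℕ} (p : ℕ → ℕ) (hp : ∀ m, (p m).Prime ∧ q ≤ p m)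
    (hlt : ∀ m m', m < m' → m' < k → p m < p m') (b : ℤ) (hb : 0 < b) (hbq : b < (q : ℤ) ^ k) :
    ∃ m < k, ¬ (p m : ℤ) ∣ b := by
  by_contra hcon
  have hall : ∀ m ∈ range k, (p m : ℤ) ∣ b := fun m hm => by
    by_contra h
    exact hcon ⟨m, mem_range.1 hm, h⟩
  have hdvd : ∏ m ∈ range k, (p m : ℤ) ∣ b := by
    refine Finset.prod_dvd_of_coprime (fun m hm m' hm' hne => ?_) hall
    have hm1 : m < k := mem_range.1 hm
    have hm2 : m' < k := mem_range.1 hm'
    refine Nat.isCoprime_iff_coprime.2 ((Nat.coprime_primes (hp m).1 (hp m').1).2 ?_)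
    rcases lt_or_gt_of_ne hne with h | h
    · exact (hlt _ _ h hm2).ne
    · exact (hlt _ _ h hm1).ne'
  have h1 := Int.le_of_dvd hb hdvd
  have h2 : q ^ k ≤ ∏ m ∈ range k, p m := by
    have := Finset.pow_card_le_prod (range k) p q fun m _ => (hp m).2
    rwa [card_range] at this
  have h3 : ((q ^ k : ℕ) : ℤ) ≤ ((∏ m ∈ range k, p m : ℕ) : ℤ) := Int.ofNat_le.2 h2
  push_cast at h3
  linarith

end Lay

theorem lay : LayS := by
  intro n l k d q hq hk hn hd
  obtain ⟨e⟩ : Nonempty (Fin n ↪ (Fin l → Fin d → Fin q)) :=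
    Function.Embedding.nonempty_of_card_le (by simpa using hn)
  obtain ⟨p, hp, hlt⟩ := Lay.primes k q hq hk
  refine ⟨fun i u j => if h : i < l then (e u ⟨i, h⟩ j : ℕ) else 0, p, hp, fun u v huv => ?_⟩
  obtain ⟨i, hi⟩ := Function.ne_iff.1 (e.injective.ne huv)
  obtain ⟨j, hj⟩ := Function.ne_iff.1 hi
  refine ⟨i, i.2, ?_⟩
  simp only [SepP, dif_pos i.2, Fin.eta]
  refine Lay.some_prime (q := q) p (fun m => ⟨(hp m).1, (hp m).2.1⟩) hlt _ ?_ ?_
  · refine sum_pos' (fun _ _ => sq_nonneg _) ⟨j, mem_univ _, ?_⟩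
    have h1 : ((e u i j : ℕ) : ℤ) - ((e v i j : ℕ) : ℤ) ≠ 0 := by
      intro h
      exact hj (Fin.ext (by omega))
    positivity
  · have h1 : ∑ j, (((e u i j : ℕ) : ℤ) - ((e v i j : ℕ) : ℤ)) ^ 2 ≤
        (univ : Finset (Fin d)).card • (q : ℤ) ^ 2 := by
      refine sum_le_card_nsmul _ _ _ fun j _ => ?_
      have a1 := (e u i j).2
      have a2 := (e v i j).2
      refine sq_le_sq' (by omega) (by omega)
    rw [card_univ, Fintype.card_fin, nsmul_eq_mul] at h1
    have h2 : ((d * q ^ 2 : ℕ) : ℤ) < ((q ^ k : ℕ) : ℤ) := Int.ofNat_lt.2 hd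
    push_cast at h2
    exact h1.trans_lt h2

theorem hash : HashS := by
  intro W _ w r hW hr
  classical
  have : NeZero r := ⟨hr.ne'⟩
  obtain ⟨e⟩ : Nonempty (W ↪ (Fin w → Fin 2)) :=
    Function.Embedding.nonempty_of_card_le (by simpa using hW)
  have hcard : Fintype.card (Fin w × Fin 2 → Fin r) = r ^ (2 * w) := by
    simp [mul_comm]
  let φ : Fin (r ^ (2 * w)) ≃ (Fin w × Fin 2 → Fin r) := (Fintype.equivFinOfCardEq hcard).symm
  refine ⟨fun f s => ∑ i, φ f (i, e s i), fun s s' hs => ?_⟩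
  obtain ⟨i₀, hi⟩ := Function.ne_iff.1 (e.injective.ne hs)
  have k1 : ∀ c : Fin r,
      ∑ i, (Pi.single (i₀, e s i₀) c : Fin w × Fin 2 → Fin r) (i, e s i) = c := fun c => by
    rw [sum_eq_single i₀, Pi.single_eq_same]
    · intro i _ hne
      exact Pi.single_eq_of_ne (fun h => hne (congrArg Prod.fst h)) _
    · intro h
      exact absurd (mem_univ _) h
  have k2 : ∀ c : Fin r,
      ∑ i, (Pi.single (i₀, e s i₀) c : Fin w × Fin 2 → Fin r) (i, e s' i) = 0 := fun c => by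
    refine sum_eq_zero fun i _ => Pi.single_eq_of_ne (fun h => ?_) _
    obtain ⟨h1, h2⟩ := Prod.ext_iff.1 h
    simp only at h1 h2
    subst h1
    exact hi h2.symm
  have h1 : ((univ : Finset (Fin r)) ×ˢ (univ.filter fun f : Fin (r ^ (2 * w)) =>
      ∑ i, φ f (i, e s i) = ∑ i, φ f (i, e s' i))).card ≤
      (univ : Finset (Fin w × Fin 2 → Fin r)).card := by
    refine card_le_card_of_injOn (fun z => φ z.2 + Pi.single (i₀, e s i₀) z.1)
      (fun _ _ => mem_univ _) ?_
    rintro ⟨c, f⟩ hz ⟨c', f'⟩ hz' he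
    have e1 : ∑ i, φ f (i, e s i) = ∑ i, φ f (i, e s' i) :=
      (mem_filter.1 (mem_product.1 hz).2).2
    have e2 : ∑ i, φ f' (i, e s i) = ∑ i, φ f' (i, e s' i) :=
      (mem_filter.1 (mem_product.1 hz').2).2
    have he' : φ f + Pi.single (i₀, e s i₀) c = φ f' + Pi.single (i₀, e s i₀) c' := he
    have e3 := congrArg (fun g : Fin w × Fin 2 → Fin r => ∑ i, g (i, e s i)) he'
    have e4 := congrArg (fun g : Fin w × Fin 2 → Fin r => ∑ i, g (i, e s' i)) he'
    simp only [Pi.add_apply, sum_add_distrib, k1, k2, add_zero] at e3 e4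
    rw [e1, e2, e4] at e3
    have e5 : c = c' := add_left_cancel e3
    subst e5
    exact Prod.ext rfl (φ.injective (add_right_cancel he'))
  rw [card_product, card_univ, Fintype.card_fin, card_univ, hcard] at h1
  rw [cnt_eq]
  exact h1

theorem sparse (hB : BaseS) (hT : ThinS) : SparseS := by
  intro n G _ Δ θ D l k d lo hi Y c hΔ hc hD hS
  obtain ⟨x, p, hp, hsep⟩ := hS
  classical
  let Lf : Fin n → Y → Prop := fun u y => ∃ z, Single G c u z ∧ cod G u z ≤ θ ∧ c z = y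
  let own : Fin n → Y → Fin n := fun u y => if h : Lf u y then h.choose else u
  have hown : ∀ u y, Lf u y →
      Single G c u (own u y) ∧ cod G u (own u y) ≤ θ ∧ c (own u y) = y := fun u y h => by
    simp only [own, dif_pos h]
    exact h.choose_spec
  have uniq : ∀ u y w, Lf u y → G.Adj u w → c w = y → own u y = w := fun u y w h ha hw =>
    ((hown u y h).1.2 w ha (hw.trans (hown u y h).2.2.symm)).symm
  have layer : ∀ i m, Cov G (fun u v => ∃ σ, Lf u σ ∧ c v = σ ∧ SepP (p m) (x i) (own u σ) v)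
      (Δ * 2 + hi ^ 2 * (θ + 4 * D + hi ^ d)) := by
    intro i m
    refine (hB n G Y (Fin n) Unit (SepP (p m) (x i)) Lf (fun v y => c v = y) own (fun v _ => v)
      (fun _ _ => ()) (θ + 4 * D + 1) 2 (p m ^ 2 * (θ + 4 * D + p m ^ d)) Δ 1 θ D
      (hT (Fin n) (p m) d (θ + 4 * D) (x i) (hp m).1) (by omega) ?_ ?_ ?_ ?_ ?_).mono
      (fun _ _ h => h) ?_
    · intro u
      refine ⟨(G.neighborFinset u).image c, card_image_le.trans (card_nbr G hΔ u), ?_⟩
      rintro y ⟨z, h1, -, h2⟩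
      exact mem_image.2 ⟨z, (G.mem_neighborFinset u z).2 h1.1, h2⟩
    · intro u
      exact ⟨{c u}, (card_singleton _).le, fun y hy => mem_singleton.2 hy.symm⟩
    · intro u v σ ha h1 h2
      exact absurd (h1.trans h2.symm) (hc u v ha)
    · intro u v σ ha h1 h2
      exact uniq u σ v h1 ha h2
    · intro σ
      refine ⟨fun u => if Lf u σ then G.neighborFinset u ∩ G.neighborFinset (own u σ) else ∅,
        fun u => ?_, (hD σ).mono le_rfl ?_⟩
      · by_cases h : Lf u σ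
        · simp only [if_pos h]
          exact (hown u σ h).2.1
        · simp only [if_neg h, card_empty, Nat.zero_le]
      · rintro u v ⟨ha, h1, h2, h3⟩
        refine ⟨ha, own u σ, own v σ, (hown u σ h1).1, (hown v σ h2).1, (hown u σ h1).2.2,
          (hown v σ h2).2.2, fun he => h3 ⟨he, ?_, ?_⟩⟩
        · simp only [if_pos h1, mem_inter, SimpleGraph.mem_neighborFinset]
          exact ⟨ha, he ▸ (hown v σ h2).1.1.symm⟩
        · simp only [if_pos h2, mem_inter, SimpleGraph.mem_neighborFinset]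
          exact ⟨ha.symm, he ▸ (hown u σ h1).1.1.symm⟩
    · have h1 := (hp m).2.2
      rw [one_mul]
      exact Nat.add_le_add_left (Nat.mul_le_mul (Nat.pow_le_pow_left h1 2)
        (Nat.add_le_add_left (Nat.pow_le_pow_left h1 d) _)) _
  refine (Cov.sum l _ fun i => Cov.sum k _ fun m => layer i m).mono ?_ le_rfl
  rintro u v ⟨hn, z, h1, h2, h3⟩
  have hL : Lf u (c v) := ⟨z, h1, h2, h3⟩
  obtain ⟨i, hi', m, hm, hs⟩ := hsep z v fun h => hn (h ▸ h1.1)
  refine ⟨i, hi', m, hm, c v, hL, rfl, ?_⟩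
  rw [uniq u (c v) z hL h1.1 h3]
  exact hs

end Pool.Agent.MP_a7b5fd_co.X

end MrgPart1

-- ======== part 2: formerly Pool.Agent.MP_a7b5fd_co.X.Kill
section MrgPart2

/-! Project A7X, row KILL: one pool of the top stage. -/

set_option autoImplicit false

namespace Pool.Agent.MP_a7b5fd_co.X

open Finset Pool.Agent.MP_a7b5fd_co.H39 Pool.Agent.MP_a7b5fd_co.H11

namespace Kill

/-- At least half of the hash functions are injective on a small set. -/
theorem good {W : Type} {H j : ℕ} (hj : 0 < j) (η : Fin H → W → Fin (2 * j ^ 2))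
    (hη : ∀ s s', s ≠ s' → 2 * j ^ 2 * (cnt fun f => η f s = η f s') ≤ H) (J : Finset W)
    (hJ : J.card ≤ j) : ∃ Gd : Finset (Fin H), H ≤ 2 * Gd.card ∧
      ∀ f ∈ Gd, ∀ s ∈ J, ∀ s' ∈ J, η f s = η f s' → s = s' := by
  classical
  let Bd : Finset (Fin H) := J.offDiag.biUnion fun p => univ.filter fun f => η f p.1 = η f p.2
  have h1 : 2 * j ^ 2 * Bd.card ≤ j ^ 2 * H := by
    refine (Nat.mul_le_mul_left _ card_biUnion_le).trans ?_
    rw [mul_sum]
    refine (sum_le_card_nsmul _ _ H fun p hp => ?_).trans ?_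
    · have := hη p.1 p.2 (mem_offDiag.1 hp).2.2
      rwa [cnt_eq] at this
    · rw [smul_eq_mul, offDiag_card]
      refine Nat.mul_le_mul_right _ ((Nat.sub_le _ _).trans ?_)
      rw [sq]
      exact Nat.mul_le_mul hJ hJ
  have h2 : 2 * Bd.card ≤ H := by
    refine le_of_mul_le_mul_left (a := j ^ 2) ?_ (by positivity)
    calc j ^ 2 * (2 * Bd.card) = 2 * j ^ 2 * Bd.card := by ring
      _ ≤ _ := h1
  refine ⟨Bdᶜ, ?_, fun f hf s hs s' hs' e => by_contra fun c => ?_⟩
  · have := card_add_card_compl Bd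
    rw [Fintype.card_fin] at this
    omega
  · exact mem_compl.1 hf (mem_biUnion.2 ⟨(s, s'), mem_offDiag.2 ⟨hs, hs', c⟩,
      mem_filter.2 ⟨mem_univ _, e⟩⟩)

/-- One of the good functions is used by few of the earlier partners. -/
theorem pigeon {V : Type} {H δ : ℕ} (hH : 0 < H) (Gd : Finset (Fin H)) (hG : H ≤ 2 * Gd.card)
    {P : V → Prop} (hP : Few (2 * δ) P) (e : V → Fin H) :
    ∃ f ∈ Gd, Few (4 * δ / H) fun v => P v ∧ e v = f := by
  obtain ⟨S, h1, h2⟩ := hP
  have h3 : S.card < Gd.card * (4 * δ / H + 1) := by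
    have a := Nat.lt_mul_div_succ (4 * δ) hH
    have b := Nat.mul_le_mul_right (4 * δ / H + 1) hG
    rw [mul_assoc] at b
    omega
  obtain ⟨f, hf, h4⟩ := exists_card_fiber_lt_of_card_lt_mul (f := e) h3
  exact ⟨f, hf, _, Nat.lt_succ_iff.1 h4, fun v hv => mem_filter.2 ⟨h2 v hv.1, hv.2⟩⟩

/-- The choice of the hash functions for one colour. -/
theorem choice (hR : RankS) (hG : GreedyS) {n H δ : ℕ} (hH : 0 < H) (E : Fin n → Fin n → Prop)
    (hE : Deg δ E) (hne : ∀ u v, E u v → u ≠ v) (Gd : Fin n → Finset (Fin H))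
    (hGd : ∀ u, H ≤ 2 * (Gd u).card) :
    ∃ e : Fin n → Fin H, (∀ u, e u ∈ Gd u) ∧ Deg (4 * δ / H) fun u v => E u v ∧ e u = e v := by
  obtain ⟨Out, o1, o2⟩ := hE
  obtain ⟨rk, r1, r2⟩ := hR (Fin n) δ Out o1
  have : Nonempty (Fin H) := ⟨⟨0, hH⟩⟩
  obtain ⟨e, he⟩ := hG (Fin n) (Fin H) rk (fun u f x => x ∈ Gd u ∧ Few (4 * δ / H)
      fun v => ((v ∈ Out u ∨ u ∈ Out v) ∧ rk v < rk u) ∧ f v = x)
    (fun u f f' x hf h => ⟨h.1, h.2.mono le_rfl fun v hv => ⟨hv.1, (hf v hv.1.2).trans hv.2⟩⟩)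
    (fun u f => pigeon hH (Gd u) (hGd u) (r2 u) f)
  choose O p1 p2 using fun u => (he u).2
  refine ⟨e, fun u => (he u).1, O, p1, fun u v h => ?_⟩
  rcases lt_or_gt_of_ne (r1.ne (hne u v h.1)) with c | c
  · exact Or.inr (p2 v u ⟨⟨(o2 u v h.1).symm, c⟩, h.2⟩)
  · exact Or.inl (p2 u v ⟨⟨o2 u v h.1, c⟩, h.2.symm⟩)

end Kill

theorem kill (hR : RankS) (hG : GreedyS) (hB : BaseS) (hL : LinS) (hH : HashS) : KillS := by
  classical
  intro n G _ Y W _ κ h Act m j δ w hκ hw hW hj hm hd hD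
  have hr : 0 < 2 * j ^ 2 := by positivity
  obtain ⟨η, hη⟩ := hH W w (2 * j ^ 2) (by omega) hr
  have hH0 : 0 < (2 * j ^ 2) ^ (2 * w) := by positivity
  generalize (2 * j ^ 2) ^ (2 * w) = H at η hη hH0 ⊢
  have hg : ∀ y u, ∃ Gd : Finset (Fin H), H ≤ 2 * Gd.card ∧ (Act u y → ∀ f ∈ Gd, ∀ z z',
      G.Adj u z → κ z = y → G.Adj u z' → κ z' = y → η f (h z) = η f (h z') → h z = h z') := by
    intro y u
    by_cases ha : Act u y
    · obtain ⟨S, s1, s2⟩ := few_iff.2 (hd u y ha)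
      obtain ⟨Gd, g1, g2⟩ := Kill.good hj η hη (S.image h) (card_image_le.trans s1)
      exact ⟨Gd, g1, fun _ f hf z z' a1 a2 a3 a4 => g2 f hf _
        (mem_image_of_mem h (s2 z ⟨a1, a2⟩)) _ (mem_image_of_mem h (s2 z' ⟨a3, a4⟩))⟩
    · refine ⟨univ, ?_, fun c => absurd c ha⟩
      rw [card_univ, Fintype.card_fin]
      omega
  choose Gd g1 g2 using hg
  choose e e1 e2 using fun y => Kill.choice hR hG hH0 _ (hD y) (fun u v c => c.1.ne) (Gd y) (g1 y)
  let own : Fin n → Y × Fin H × Fin (2 * j ^ 2) → Option W := fun u σ =>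
    if c : ∃ z, G.Adj u z ∧ κ z = σ.1 ∧ η σ.2.1 (h z) = σ.2.2 then some (h c.choose) else none
  have hC := hB n G (Y × Fin H × Fin (2 * j ^ 2)) (Option W) Unit (· ≠ ·)
    (fun u σ => Act u σ.1 ∧ σ.2.1 = e σ.1 u) (fun v σ => σ.1 = κ v ∧ σ.2.2 = η σ.2.1 (h v))
    own (fun v _ => some (h v)) (fun _ _ => ()) _ _ _ (m * (2 * j ^ 2)) H 0 (4 * δ / H)
    (hL (Option W) w (4 * (4 * δ / H)) hw (by rwa [Fintype.card_option])) (by omega) ?_ ?_ ?_ ?_ ?_
  · refine hC.mono (fun u v huv => ⟨(κ v, e (κ v) u, η (e (κ v) u) (h v)), ⟨huv.1, rfl⟩,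
      ⟨rfl, rfl⟩, ?_⟩) ?_
    · simp only [own]
      split_ifs with c
      · exact fun c' => huv.2 _ c.choose_spec.1 ⟨c.choose_spec.2.1, Option.some.inj c'⟩
      · exact fun c' => nomatch c'
    · have := Nat.mul_div_le (4 * δ) H
      nlinarith
  · intro u
    obtain ⟨S, s1, s2⟩ := hm u
    refine ⟨(S ×ˢ (univ : Finset (Fin (2 * j ^ 2)))).image fun p => (p.1, e p.1 u, p.2),
      card_image_le.trans ?_, ?_⟩
    · rw [card_product, card_univ, Fintype.card_fin]
      exact Nat.mul_le_mul_right _ s1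
    · rintro ⟨y, f, t⟩ ⟨a1, a2⟩
      exact mem_image.2 ⟨(y, t), mem_product.2 ⟨s2 y a1, mem_univ _⟩, by rw [← a2]⟩
  · intro v
    refine ⟨univ.image fun f => (κ v, f, η f (h v)), card_image_le.trans ?_, ?_⟩
    · rw [card_univ, Fintype.card_fin]
    · rintro ⟨y, f, t⟩ ⟨a1, a2⟩
      exact mem_image.2 ⟨f, mem_univ _, by rw [← a1, ← a2]⟩
  · exact fun u v σ a1 a2 a3 => absurd (a2.1.symm.trans a3.1) (hκ u v a1)
  · intro u v σ a1 a2 a3
    have c : ∃ z, G.Adj u z ∧ κ z = σ.1 ∧ η σ.2.1 (h z) = σ.2.2 := ⟨v, a1, a3.1.symm, a3.2.symm⟩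
    simp only [own, dif_pos c]
    exact congrArg some (g2 σ.1 u a2.1 σ.2.1 (a2.2 ▸ e1 σ.1 u) _ _ c.choose_spec.1
      c.choose_spec.2.1 a1 a3.1.symm (c.choose_spec.2.2.trans a3.2))
  · intro σ
    exact ⟨fun _ => ∅, fun _ => le_rfl, (e2 σ.1).mono le_rfl fun u v c =>
      ⟨⟨c.1, c.2.1.1, c.2.2.1.1⟩, c.2.1.2.symm.trans c.2.2.1.2⟩⟩

end Pool.Agent.MP_a7b5fd_co.X

end MrgPart2

-- ======== part 3: formerly Pool.Agent.MP_a7b5fd_co.X.Col
section MrgPart3

/-! The first colouring: a greedy choice that keeps a potential small. -/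

set_option autoImplicit false

namespace Pool.Agent.MP_a7b5fd_co.X

open Finset Real Pool.Agent.MP_a7b5fd_co.H39 Pool.Agent.MP_a7b5fd_co.H11

namespace Col

open Classical

section Pot

variable {n : ℕ} {Y I : Type} [Fintype Y]

theorem cnt_mono {P Q : Fin n → Prop} (h : ∀ z, P z → Q z) : cnt P ≤ cnt Q :=
  card_le_card fun z hz => mem_filter.2 ⟨mem_univ _, h z (mem_filter.1 hz).2⟩

theorem cnt_succ {t : ℕ} (ht : t < n) (P : Fin n → Prop) :
    (cnt fun z : Fin n => (z : ℕ) < t + 1 ∧ P z) =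
      (cnt fun z : Fin n => (z : ℕ) < t ∧ P z) + if P ⟨t, ht⟩ then 1 else 0 := by
  simp only [cnt_eq]
  split_ifs with h
  · rw [← card_insert_of_notMem (a := (⟨t, ht⟩ : Fin n)) (by simp)]
    congr 1
    ext z
    simp only [mem_filter, mem_univ, true_and, mem_insert, Nat.lt_succ_iff_lt_or_eq]
    exact ⟨fun ⟨a, b⟩ => a.elim (fun a => Or.inr ⟨a, b⟩) fun a => Or.inl (Fin.ext a),
      fun a => a.elim (fun a => a ▸ ⟨Or.inr rfl, h⟩) fun a => ⟨Or.inl a.1, a.2⟩⟩
  · rw [add_zero]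
    congr 1
    ext z
    simp only [mem_filter, mem_univ, true_and, Nat.lt_succ_iff_lt_or_eq]
    exact ⟨fun ⟨a, b⟩ => ⟨a.resolve_right fun e => h (Fin.ext (a := z) (b := ⟨t, ht⟩) e ▸ b), b⟩,
      fun a => ⟨Or.inl a.1, a.2⟩⟩

/-- The weight of the index `i` and the colour `y` at time `t`. -/
noncomputable def M (D : ℕ) (T : I → Fin n → Prop) (c : Fin n → Y) (t : ℕ) (i : I) (y : Y) : ℝ :=
  2 ^ (cnt fun z : Fin n => (z : ℕ) < t ∧ T i z ∧ c z = y) *
    ((D : ℝ) / (D + 1)) ^ cnt fun z : Fin n => (z : ℕ) < t ∧ T i z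

variable {D : ℕ} {T : I → Fin n → Prop} {c c' : Fin n → Y} {t : ℕ} {L : ℝ}

omit [Fintype Y] in
theorem M_nonneg (i : I) (y : Y) : 0 ≤ M D T c t i y := by unfold M; positivity

omit [Fintype Y] in
theorem M_congr (h : ∀ z : Fin n, (z : ℕ) < t → c z = c' z) : M D T c t = M D T c' t := by
  funext i y
  unfold M
  congr 3
  funext z
  exact propext (and_congr_right fun a => by rw [h z a])

omit [Fintype Y] in
theorem M_succ (ht : t < n) (i : I) (y : Y) : M D T c (t + 1) i y = if T i ⟨t, ht⟩ then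
    (D : ℝ) / (D + 1) * M D T c t i y * (if c ⟨t, ht⟩ = y then 2 else 1) else M D T c t i y := by
  unfold M
  rw [cnt_succ ht, cnt_succ ht]
  by_cases a : T i ⟨t, ht⟩ <;> by_cases b : c ⟨t, ht⟩ = y <;> simp [a, b, pow_succ] <;> ring

/-- The potential of one index. -/
noncomputable def psi (L : ℝ) (v : Y → ℝ) : ℝ :=
  (∑ y, v y) / Fintype.card Y + exp ((∑ y, min (v y) L - Fintype.card Y) / L)

theorem term (hD : (1 : ℝ) ≤ D) {v : ℝ} (hv : 0 ≤ v) :
    min (D / (D + 1) * v) L + (min (D / (D + 1) * v * 2) L - min (D / (D + 1) * v) L) / D ≤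
      min v L := by
  obtain ⟨a, rfl⟩ : ∃ a, v = a + a / D := ⟨D / (D + 1) * v, by field_simp⟩
  have e : (D : ℝ) / (D + 1) * (a + a / D) = a := by field_simp
  have a0 : 0 ≤ a := e ▸ (by positivity)
  have a1 : 0 ≤ a / D := by positivity
  rw [e]
  rcases le_total a L with h | h
  · rw [min_eq_left h]
    refine le_min (by gcongr; linarith [min_le_left (a * 2) L]) ?_
    have := div_le_self (sub_nonneg.2 (le_min (by linarith : a ≤ a * 2) h)) hD
    linarith [min_le_right (a * 2) L]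
  · rw [min_eq_right h, min_eq_right (by linarith), min_eq_right (by linarith)]
    simp

theorem step (hD : 0 < D) (hL : 0 < L) {v : Y → ℝ} (hv : ∀ y, 0 ≤ v y) {F : Finset Y}
    (hF : 2 * D ≤ F.card) :
    ∑ a ∈ F, psi L (fun y => (D : ℝ) / (D + 1) * v y * if a = y then 2 else 1) ≤
      F.card * psi L v := by
  have hD' : (1 : ℝ) ≤ D := by exact_mod_cast hD
  have hF' : (2 * D : ℝ) ≤ F.card := by exact_mod_cast hF
  have key := fun y => term (L := L) hD' (hv y)
  have hρ : (D : ℝ) / (D + 1) * (F.card + 1) ≤ F.card := by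
    rw [div_mul_eq_mul_div, div_le_iff₀ (by positivity)]
    nlinarith
  have ρ0 : (0 : ℝ) ≤ D / (D + 1) := by positivity
  generalize (D : ℝ) / (D + 1) = ρ at *
  have sp : ∀ (g : ℝ → ℝ) (a : Y), ∑ y, g (ρ * v y * if a = y then 2 else 1) =
      ∑ y, g (ρ * v y) + (g (ρ * v a * 2) - g (ρ * v a)) := fun g a => by
    rw [← add_sum_erase _ _ (mem_univ a), ← add_sum_erase _ _ (mem_univ a), if_pos rfl,
      sum_congr rfl fun y hy => by rw [if_neg (ne_of_mem_erase hy).symm, mul_one]]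
    ring
  have fs : ∀ g : Y → ℝ, (∀ y, 0 ≤ g y) → ∑ y ∈ F, g y ≤ ∑ y, g y := fun g h =>
    sum_le_sum_of_subset_of_nonneg (subset_univ F) fun y _ _ => h y
  simp only [psi, sum_add_distrib, mul_add]
  refine add_le_add ?_ ?_
  · rw [← sum_div, ← mul_div_assoc]
    gcongr
    simp only [sp fun x => x, sum_add_distrib, sum_const, nsmul_eq_mul, ← mul_sum,
      show ∀ a, ρ * v a * 2 - ρ * v a = ρ * v a from fun a => by ring]
    have := sum_nonneg fun y (_ : y ∈ univ) => hv y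
    nlinarith [mul_le_mul_of_nonneg_left (fs v hv) ρ0, mul_le_mul_of_nonneg_right hρ this]
  set δ : Y → ℝ := fun a => (min (ρ * v a * 2) L - min (ρ * v a) L) / L with hδ
  have δ0 : ∀ a, 0 ≤ δ a := fun a => div_nonneg (sub_nonneg.2
    (min_le_min_right _ (by nlinarith [mul_nonneg ρ0 (hv a)]))) hL.le
  have δ1 : ∀ a, δ a ≤ 1 := fun a => (div_le_one hL).2 (by
    linarith [min_le_right (ρ * v a * 2) L, le_min (mul_nonneg ρ0 (hv a)) hL.le])
  set A := (∑ y, min (ρ * v y) L - Fintype.card Y) / L with hA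
  have S0 := sum_nonneg fun y (_ : y ∈ univ) => δ0 y
  calc _ ≤ ∑ a ∈ F, exp A * (1 + 2 * δ a) := sum_le_sum fun a _ => by
        rw [sp (fun x => min x L), add_sub_right_comm, add_div, exp_add]
        have := (abs_le.1 (abs_exp_sub_one_sub_id_le (abs_le.2 ⟨by linarith [δ0 a], δ1 a⟩))).2
        exact mul_le_mul_of_nonneg_left (by nlinarith [δ0 a, δ1 a]) (exp_pos _).le
    _ ≤ F.card * (exp A * ((∑ y, δ y) / D + 1)) := by
        rw [← mul_sum, sum_add_distrib, ← mul_sum, sum_const, nsmul_eq_mul, mul_left_comm]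
        refine mul_le_mul_of_nonneg_left ?_ (exp_pos _).le
        have : 2 * ∑ y, δ y ≤ F.card * ((∑ y, δ y) / D) := by
          rw [← mul_div_assoc, le_div_iff₀ (by positivity)]
          nlinarith
        linarith [fs δ δ0]
    _ ≤ _ := by
        gcongr
        refine (mul_le_mul_of_nonneg_left (add_one_le_exp _) (exp_pos _).le).trans ?_
        rw [← exp_add, exp_le_exp, hA, hδ, ← sum_div, div_right_comm, ← add_div]
        gcongr
        have := sum_le_sum fun y (_ : y ∈ univ) => key y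
        rw [sum_add_distrib, ← sum_div] at this
        linarith

theorem psi_nonneg {v : Y → ℝ} (hv : ∀ y, 0 ≤ v y) : 0 ≤ psi L v :=
  add_nonneg (div_nonneg (sum_nonneg fun y _ => hv y) (Nat.cast_nonneg _)) (exp_pos _).le

theorem pot [Nonempty Y] (hD : 0 < D) (hL : 1 ≤ L) (J : Finset I) (T : I → Fin n → Prop)
    (Bad : Fin n → (Fin n → Y) → Y → Prop)
    (hB : ∀ v c c' y, (∀ w < v, c w = c' w) → Bad v c y → Bad v c' y)
    (hF : ∀ (v : Fin n) c, (∀ i ∈ J, psi L (M D T c v i) ≤ 2 * J.card) →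
      ∃ F : Finset Y, 2 * D ≤ F.card ∧ ∀ y ∈ F, ¬Bad v c y) :
    ∃ c : Fin n → Y, (∀ v, ¬Bad v c (c v)) ∧ ∀ i ∈ J, psi L (M D T c n i) ≤ 2 * J.card := by
  have one : ∀ (c : Fin n → Y) t, ∑ i ∈ J, psi L (M D T c t i) ≤ 2 * J.card →
      ∀ i ∈ J, psi L (M D T c t i) ≤ 2 * J.card := fun c t h i hi =>
    (single_le_sum (fun i _ => psi_nonneg (M_nonneg i)) hi).trans h
  have key : ∀ t, t ≤ n → ∃ c : Fin n → Y, (∀ v : Fin n, (v : ℕ) < t → ¬Bad v c (c v)) ∧
      ∑ i ∈ J, psi L (M D T c t i) ≤ 2 * J.card := by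
    intro t
    induction t with
    | zero =>
      refine fun _ => ⟨fun _ => Classical.arbitrary Y, by simp, ?_⟩
      simp [psi, M, cnt, min_eq_left hL, mul_comm, one_add_one_eq_two]
    | succ t ih =>
      intro ht
      obtain ⟨c, hc1, hc2⟩ := ih (by omega)
      obtain ⟨F, hF1, hF2⟩ := hF ⟨t, ht⟩ c (one c t hc2)
      have hag : ∀ y, ∀ w : Fin n, (w : ℕ) < t → Function.update c ⟨t, ht⟩ y w = c w :=
        fun y w hw => Function.update_of_ne (fun e => by simp [e] at hw) _ _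
      obtain ⟨y, hy1, hy2⟩ := exists_le_of_sum_le (s := F)
        (f := fun y => ∑ i ∈ J, psi L (M D T (Function.update c ⟨t, ht⟩ y) (t + 1) i))
        (g := fun _ => (2 * J.card : ℝ)) (card_pos.1 (by omega)) (by
          rw [sum_comm, sum_const, nsmul_eq_mul]
          refine le_trans ?_ (mul_le_mul_of_nonneg_left hc2 (Nat.cast_nonneg _))
          rw [mul_sum]
          refine sum_le_sum fun i _ => ?_
          have e := fun y => funext (M_succ (D := D) (T := T) (c := Function.update c ⟨t, ht⟩ y) ht i)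
          simp only [e, M_congr (hag _), Function.update_self]
          split_ifs
          · exact step hD (by linarith) (M_nonneg i) hF1
          · simp)
      refine ⟨_, fun v hv hb => ?_, hy2⟩
      have hb' := hB v _ c _ (fun w hw => hag y w (by have : (w : ℕ) < v := hw; omega)) hb
      rcases Nat.lt_succ_iff_lt_or_eq.1 hv with h | h
      · exact hc1 v h (hag y v h ▸ hb')
      · obtain rfl : v = ⟨t, ht⟩ := Fin.ext h
        rw [Function.update_self] at hb'
        exact hF2 y hy1 hb'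
  obtain ⟨c, h1, h2⟩ := key n le_rfl
  exact ⟨c, fun v => h1 v v.2, one c n h2⟩

theorem psi_out [Nonempty Y] (hL : 0 < L) {v : Y → ℝ} (hv : ∀ y, 0 ≤ v y) {B : ℝ} {τ : ℕ}
    (h : psi L v ≤ B) (hB : B * Fintype.card Y ≤ 2 ^ τ) :
    (∀ y, v y ≤ 2 ^ τ) ∧ ∑ y, min (v y) L ≤ Fintype.card Y + L * τ := by
  have K1 : (1 : ℝ) ≤ Fintype.card Y := by exact_mod_cast Fintype.card_pos
  have B0 := (psi_nonneg hv).trans h
  have S0 := div_nonneg (sum_nonneg fun y (_ : y ∈ univ) => hv y) (zero_le_one.trans K1)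
  unfold psi at h
  refine ⟨fun y => (single_le_sum (fun y _ => hv y) (mem_univ y)).trans (le_trans ?_ hB), ?_⟩
  · rw [← div_le_iff₀ (by positivity)]
    exact le_trans (le_add_of_nonneg_right (exp_pos _).le) h
  have : (2 : ℝ) ^ τ ≤ exp τ := by
    rw [← exp_one_pow]
    exact pow_le_pow_left₀ zero_le_two (by linarith [add_one_le_exp 1]) τ
  have := (div_le_iff₀ hL).1 (exp_le_exp.1 (show exp ((∑ y, min (v y) L - Fintype.card Y) / L) ≤
    exp τ by nlinarith))
  linarith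

theorem rho_ge (hD : 0 < D) (m : ℕ) : exp (-(m / D)) ≤ ((D : ℝ) / (D + 1)) ^ m := by
  have hD' : (0 : ℝ) < D := by exact_mod_cast hD
  rw [show -((m : ℝ) / D) = m * -(1 / D) by ring, exp_nat_mul]
  refine pow_le_pow_left₀ (exp_pos _).le ?_ m
  rw [exp_neg, inv_le_comm₀ (exp_pos _) (by positivity)]
  exact le_trans (le_of_eq (by field_simp; ring)) (add_one_le_exp _)

theorem N_le (hD : 0 < D) {N m a : ℕ} (h : 2 ^ N * ((D : ℝ) / (D + 1)) ^ m ≤ 2 ^ a) :
    (N : ℝ) ≤ a + 3 / 2 * (m / D) := by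
  have e : ∀ k : ℕ, (2 : ℝ) ^ k = exp (k * log 2) := fun k => by
    rw [exp_nat_mul, exp_log zero_lt_two]
  have := (mul_le_mul_of_nonneg_left (rho_ge hD m) (by positivity)).trans h
  rw [e, e, ← exp_add, exp_le_exp] at this
  have m0 : (0 : ℝ) ≤ m / D := by positivity
  by_contra! k
  nlinarith [log_two_gt_d9]

end Pot

theorem cube (j : ℕ) : j ^ 3 ≤ 4 * 2 ^ j := by
  induction j with
  | zero => simp
  | succ j ih =>
    rcases lt_or_ge j 4 with h | h
    · interval_cases j <;> norm_num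
    · obtain ⟨k, rfl⟩ := Nat.exists_eq_add_of_le h
      rw [pow_succ 2]
      nlinarith [Nat.zero_le (k ^ 3), Nat.zero_le (k ^ 2)]

theorem geo (τ x k : ℕ) :
    ∑ s ∈ range k, ((s + x + 1 : ℕ) + if τ < 2 ^ s then (τ : ℝ) else 0) / 2 ^ s +
      2 * (k + x + 2) / 2 ^ k + min 2 (2 * (τ : ℝ) / 2 ^ k) ≤ 2 * x + 6 := by
  induction k with
  | zero => simp only [sum_range_zero]; linarith [min_le_left 2 (2 * (τ : ℝ) / 2 ^ 0)]
  | succ k ih =>
    refine le_trans ?_ ih
    have e1 : 2 * (τ : ℝ) / 2 ^ (k + 1) = τ / 2 ^ k := by rw [pow_succ]; field_simp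
    have e2 : 2 * (τ : ℝ) / 2 ^ k = 2 * (τ / 2 ^ k) := by ring
    have e3 : (0 : ℝ) ≤ τ / 2 ^ k := by positivity
    have e4 : ((k + x + 1 : ℕ) : ℝ) / 2 ^ k + 2 * ((k + 1 : ℕ) + x + 2) / 2 ^ (k + 1) =
        2 * (k + x + 2) / 2 ^ k := by push_cast; field_simp; ring
    rw [sum_range_succ, add_div, e1, e2, ← e4]
    split_ifs with h
    · have : (τ : ℝ) / 2 ^ k ≤ 1 := (div_le_one (by positivity)).2 (by exact_mod_cast h.le)
      rw [min_eq_right (by linarith), min_eq_right (by linarith)]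
      linarith
    · have := min_le_min_left 2 (show (τ : ℝ) / 2 ^ k ≤ 2 * (τ / 2 ^ k) by linarith)
      rw [zero_div]
      linarith

section Graph

variable {n : ℕ} (G : SimpleGraph (Fin n)) [DecidableRel G.Adj] (D : ℕ)

/-- The scale of a codegree. -/
def sl (b z : Fin n) : ℕ := Nat.log 2 (D / cod G b z)

/-- The sets of vertices that are kept balanced. -/
def T : Fin n × Option ℕ → Fin n → Prop
  | (b, none), z => G.Adj b z
  | (b, some s), z => 1 ≤ cod G b z ∧ sl G D b z = s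

/-- The load of a colour at the vertex `z`. -/
noncomputable def Load (L : ℝ) (z : Fin n) (c : Fin n → Fin (4 * D)) (y : Fin (4 * D)) : ℝ :=
  ∑ b ∈ univ.filter fun b => 1 ≤ cod G b z,
    min (M D (T G D) c z (b, some (sl G D b z)) y) L / 2 ^ sl G D b z

variable {G D} (hΔ : ∀ v, G.degree v ≤ D) (hD : 0 < D)

theorem sl_mem (b z : Fin n) : sl G D b z ∈ range (D + 1) :=
  mem_range.2 (Nat.lt_succ_of_le ((Nat.log_le_self _ _).trans (Nat.div_le_self _ _)))

include hΔ in
theorem sl_le {b z : Fin n} (h : 1 ≤ cod G b z) : (cod G b z : ℝ) ≤ D / 2 ^ sl G D b z := by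
  rw [le_div_iff₀ (by positivity)]
  have := (Nat.le_div_iff_mul_le h).1
    (Nat.pow_log_le_self 2 (Nat.div_pos (cod_le G hΔ b z) h).ne')
  rw [mul_comm] at this
  exact_mod_cast this

theorem sl_ge {b z : Fin n} (h : 1 ≤ cod G b z) : (D : ℝ) / 2 ^ sl G D b z ≤ 2 * cod G b z := by
  rw [div_le_iff₀ (by positivity)]
  have := (Nat.div_lt_iff_lt_mul h).1 (Nat.lt_pow_succ_log_self one_lt_two (D / cod G b z))
  have : D ≤ 2 * cod G b z * 2 ^ sl G D b z := this.le.trans_eq (by rw [sl, Nat.pow_succ]; ring)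
  exact_mod_cast this

theorem fib (b : Fin n) (P : Fin n → Prop) [DecidablePred P] :
    ∑ z ∈ univ.filter fun z => 1 ≤ cod G b z ∧ P z, (D : ℝ) / 2 ^ sl G D b z =
      ∑ s ∈ range (D + 1), (cnt fun z => T G D (b, some s) z ∧ P z) * ((D : ℝ) / 2 ^ s) := by
  rw [← sum_fiberwise_of_maps_to (g := sl G D b) fun z _ => sl_mem b z]
  refine sum_congr rfl fun s _ => ?_
  rw [sum_congr rfl fun z hz => by rw [(mem_filter.1 hz).2], sum_const, nsmul_eq_mul, cnt_eq,
    filter_filter]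
  simp only [T, and_right_comm]

include hΔ in
theorem sum_sl (b : Fin n) (S : Finset (Fin n)) (h : ∀ z ∈ S, 1 ≤ cod G b z) :
    ∑ z ∈ S, (D : ℝ) / 2 ^ sl G D b z ≤ 2 * (D * D) := by
  refine (sum_le_sum fun z hz => sl_ge (h z hz)).trans ?_
  rw [← mul_sum]
  exact_mod_cast Nat.mul_le_mul_left 2
    ((sum_le_sum_of_subset (subset_univ S)).trans (sum_cod_le G hΔ b))

include hΔ hD in
theorem csum_le (b : Fin n) (P : Fin n → Prop) (f : ℕ → ℝ) {B : ℝ}
    (h : ∀ s ∈ range (D + 1), (cnt fun z => T G D (b, some s) z ∧ P z) ≤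
      f s + 3 / 2 * ((cnt fun z : Fin n => (z : ℕ) < n ∧ T G D (b, some s) z) / D))
    (hB : ∑ s ∈ range (D + 1), f s / 2 ^ s ≤ B) : (csum G b P : ℝ) ≤ (B + 3) * D := by
  have hD' : (0 : ℝ) < D := by exact_mod_cast hD
  have a := sum_sl hΔ b _ fun z (hz : z ∈ univ.filter fun z : Fin n =>
    1 ≤ cod G b z ∧ (z : ℕ) < n) => (mem_filter.1 hz).2.1
  rw [fib] at a
  calc _ = ∑ z ∈ univ.filter fun z => 1 ≤ cod G b z ∧ P z, (cod G b z : ℝ) := by
        rw [csum_eq, Nat.cast_sum, sum_filter, sum_filter]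
        refine sum_congr rfl fun z _ => ?_
        rcases Nat.eq_zero_or_pos (cod G b z) with e | e
        · simp [e]
        · simp [Nat.succ_le_iff, e]
    _ ≤ _ := sum_le_sum fun z hz => sl_le hΔ (mem_filter.1 hz).2.1
    _ = _ := fib b P
    _ ≤ ∑ s ∈ range (D + 1), (f s / 2 ^ s * D + 3 / 2 / D * ((cnt fun z : Fin n =>
          T G D (b, some s) z ∧ (z : ℕ) < n) * ((D : ℝ) / 2 ^ s))) := sum_le_sum fun s hs => by
        refine (mul_le_mul_of_nonneg_right (h s hs) (by positivity)).trans_eq ?_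
        simp only [and_comm]
        ring
    _ ≤ B * D + 3 / 2 / D * (2 * (D * D)) := by
        rw [sum_add_distrib, ← sum_mul, ← mul_sum]
        gcongr
    _ = _ := by field_simp

include hΔ hD in
theorem free {L : ℝ} (v : Fin n) (c : Fin n → Fin (4 * D))
    (h : ∀ b, ∀ s ∈ range (D + 1), ∑ y, min (M D (T G D) c v (b, some s) y) L ≤ 8 * D)
    (hL : 0 ≤ L) : ∃ F : Finset (Fin (4 * D)), 2 * D ≤ F.card ∧
      ∀ y ∈ F, ¬((∃ w < v, G.Adj v w ∧ c w = y) ∨ 16 * D < Load G D L v c y) := by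
  have hD' : (0 : ℝ) < D := by exact_mod_cast hD
  have a : ∑ y, Load G D L v c y ≤ D * (16 * D) := by
    unfold Load
    rw [sum_comm]
    refine (sum_le_sum (g := fun b => 8 * ((D : ℝ) / 2 ^ sl G D v b)) fun b _ => ?_).trans ?_
    · rw [← sum_div, ← mul_div_assoc, show sl G D v b = sl G D b v by rw [sl, sl, cod_comm]]
      exact div_le_div_of_nonneg_right (h b _ (sl_mem b v)) (by positivity)
    · rw [← mul_sum]
      linarith [sum_sl hΔ v _ fun z (hz : z ∈ univ.filter fun b => 1 ≤ cod G b v) =>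
        cod_comm G v z ▸ (mem_filter.1 hz).2]
  have b : (univ.filter fun y => 16 * (D : ℝ) < Load G D L v c y).card ≤ D := by
    have := (card_nsmul_le_sum _ _ _ fun y (hy : y ∈ univ.filter fun y =>
      16 * (D : ℝ) < Load G D L v c y) => (mem_filter.1 hy).2.le).trans
        ((sum_le_sum_of_subset_of_nonneg (subset_univ _) fun y _ _ => sum_nonneg fun b _ =>
          div_nonneg (le_min (M_nonneg _ _) hL) (by positivity)).trans a)
    rw [nsmul_eq_mul] at this
    exact_mod_cast le_of_mul_le_mul_right this (by positivity)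
  refine ⟨((G.neighborFinset v).image c ∪ univ.filter fun y =>
    16 * (D : ℝ) < Load G D L v c y)ᶜ, ?_, fun y hy e => mem_compl.1 hy ?_⟩
  · have := (card_union_le ((G.neighborFinset v).image c) _).trans
      (add_le_add (card_image_le.trans (card_nbr G hΔ v)) b)
    rw [card_compl, Fintype.card_fin]
    omega
  rcases e with ⟨w, -, e, rfl⟩ | e
  · exact mem_union_left _ (mem_image_of_mem c (by simpa using e))
  · exact mem_union_right _ (mem_filter.2 ⟨mem_univ _, e⟩)

end Graph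

end Col

open Col Classical in
theorem colour : ColS := by
  intro n G _ D τ L hΔ hD hτ hL hLτ
  have : Nonempty (Fin (4 * D)) := ⟨⟨0, by omega⟩⟩
  have hD' : (0 : ℝ) < D := by exact_mod_cast hD
  have hL' : (1 : ℝ) ≤ L := by exact_mod_cast hL
  let J : Finset (Fin n × Option ℕ) := univ ×ˢ insertNone (range (D + 1))
  have out : ∀ (c : Fin n → Fin (4 * D)) t i, psi L (M D (T G D) c t i) ≤ 2 * J.card →
      (∀ y, M D (T G D) c t i y ≤ 2 ^ τ) ∧ ∑ y, min (M D (T G D) c t i y) L ≤ 8 * D :=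
    fun c t i h => by
      have := psi_out (τ := τ) (by linarith) (M_nonneg i) h (by
        simp only [J, card_product, card_univ, Fintype.card_fin, card_insertNone, card_range]
        exact_mod_cast le_trans (le_of_eq (by ring)) hτ)
      refine ⟨this.1, this.2.trans ?_⟩
      rw [Fintype.card_fin]
      exact_mod_cast (by omega : 4 * D + L * τ ≤ 8 * D)
  have j1 : ∀ b, ∀ s ∈ range (D + 1), (b, some s) ∈ J := fun b s hs => by simpa [J] using hs
  have j0 : ∀ b, (b, none) ∈ J := fun b => by simp [J]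
  obtain ⟨κ, h1, h2⟩ := pot hD hL' J (T G D)
    (fun v c y => (∃ w < v, G.Adj v w ∧ c w = y) ∨ 16 * D < Load G D L v c y)
    (fun v c c' y h e => e.imp (fun ⟨w, a, b, d⟩ => ⟨w, a, b, h w a ▸ d⟩) fun e => by
      unfold Load at e ⊢
      rwa [← M_congr (c := c) h])
    fun v c h => free hΔ hD v c (fun b s hs => (out c v _ (h _ (j1 b s hs))).2) (by linarith)
  have e0 : ∀ P : Fin n → Prop, (cnt fun z : Fin n => (z : ℕ) < n ∧ P z) = cnt P := fun P => by
    simp
  have m0 : ∀ b, ((cnt fun z : Fin n => (z : ℕ) < n ∧ T G D (b, none) z : ℕ) : ℝ) / D ≤ 1 :=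
    fun b => (div_le_one hD').2 (by
      exact_mod_cast few_iff.1 ⟨_, card_nbr G hΔ b, fun z hz => by simpa [T] using hz⟩)
  have fin := fun i hi y => N_le hD ((out κ n i (h2 i hi)).1 y)
  simp only [e0 fun z => T G D _ z ∧ κ z = _] at fin
  refine ⟨κ, fun u v e f => ?_, fun b y => ?_, fun b y => ?_, fun b j hj => ?_, fun x hx => ?_⟩
  · rcases lt_or_gt_of_ne e.ne with h | h
    exacts [h1 v (Or.inl ⟨u, h, e.symm, f⟩), h1 u (Or.inl ⟨v, h, e, f.symm⟩)]
  · have : (dg G κ b y : ℝ) ≤ _ := fin _ (j0 b) y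
    exact_mod_cast (by linarith [m0 b] : (dg G κ b y : ℝ) ≤ τ + 2)
  · exact_mod_cast csum_le hΔ hD b _ (fun _ => τ) (B := 2 * τ) (fun s hs => fin _ (j1 b s hs) y) (by
      have := mul_le_mul_of_nonneg_right (sum_geometric_two_le (D + 1)) (Nat.cast_nonneg τ)
      rw [sum_mul] at this
      exact le_trans (le_of_eq (sum_congr rfl fun s _ => by rw [one_div, inv_pow]; ring)) this)
  · have a : ∀ y, j ≤ dg G κ b y → (j : ℝ) ^ 3 / 12 ≤ min (M D (T G D) κ n (b, none) y) L :=
      fun y hy => le_min (by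
        have a1 : (j : ℝ) ^ 3 ≤ 4 * 2 ^ dg G κ b y := by
          exact_mod_cast (cube j).trans
            (Nat.mul_le_mul_left 4 (Nat.pow_le_pow_right two_pos hy))
        have a2 := (exp_le_exp.2 (neg_le_neg (m0 b))).trans (rho_ge hD _)
        unfold M
        rw [e0 fun z => T G D _ z ∧ κ z = _]
        refine le_trans ?_ (mul_le_mul_of_nonneg_left (exp_neg_one_gt_d9.le.trans a2)
          (by positivity))
        change _ ≤ 2 ^ dg G κ b y * _
        nlinarith [pow_pos (zero_lt_two' ℝ) (dg G κ b y)])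
      ((div_le_self (by positivity) (by norm_num)).trans (by exact_mod_cast hj))
    have := (card_nsmul_le_sum _ _ _ fun y (hy : y ∈ univ.filter fun y => j ≤ dg G κ b y) =>
      a y (mem_filter.1 hy).2).trans ((sum_le_sum_of_subset_of_nonneg (subset_univ _)
        fun y _ _ => le_min (M_nonneg _ _) (by linarith)).trans (out κ n _ (h2 _ (j0 b))).2)
    rw [nsmul_eq_mul, ← cnt_eq] at this
    exact_mod_cast (by linarith : ((cnt fun y => j ≤ dg G κ b y : ℕ) : ℝ) * j ^ 3 ≤ 100 * D)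
  refine ⟨fun z => univ.filter fun b => 1 ≤ cod G b z ∧
    2 ^ (sl G D b z + x) ≤ min (M D (T G D) κ z (b, some (sl G D b z)) (κ z)) L,
    fun z => ?_, fun b y => ?_⟩
  · have := not_lt.1 fun e => h1 z (Or.inr e)
    refine (Nat.cast_le (α := ℝ)).1 ?_
    push_cast
    rw [← nsmul_eq_mul]
    refine (card_nsmul_le_sum _ _ _ fun b hb => ?_).trans
      ((sum_le_sum_of_subset_of_nonneg (fun b hb => ?_) fun b _ _ =>
        div_nonneg (le_min (M_nonneg _ _) (by linarith)) (by positivity)).trans this)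
    · rw [le_div_iff₀ (by positivity), ← pow_add, add_comm]
      exact (mem_filter.1 hb).2.2
    · exact mem_filter.2 ⟨mem_univ _, (mem_filter.1 hb).2.1⟩
  refine (Nat.cast_le (α := ℝ)).1 ((csum_le hΔ hD b _
    (fun s => (s + x + 1 : ℕ) + if τ < 2 ^ s then (τ : ℝ) else 0) (B := 2 * x + 6)
    (fun s hs => ?_) ?_).trans_eq (by push_cast; ring))
  swap
  · refine le_trans ?_ (geo τ x (D + 1))
    rw [add_assoc]
    exact le_add_of_nonneg_right (by positivity)
  have p0 : (0 : ℝ) ≤ if τ < 2 ^ s then (τ : ℝ) else 0 := by positivity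
  by_cases e : 2 ^ (s + x) ≤ L
  swap
  · have : τ < 2 ^ s := lt_of_mul_lt_mul_right (a := 2 ^ x)
      (hx.trans_lt (by rw [← pow_add]; omega)) (Nat.zero_le _)
    rw [if_pos this]
    refine le_trans (Nat.cast_le.2 (cnt_mono fun z hz => ⟨hz.1, hz.2.1⟩))
      ((fin _ (j1 b s hs) y).trans ?_)
    linarith [Nat.cast_nonneg (α := ℝ) (s + x + 1)]
  rw [cnt_eq]
  set S := univ.filter fun z => T G D (b, some s) z ∧ κ z = y ∧ b ∉ univ.filter fun b =>
    1 ≤ cod G b z ∧ 2 ^ (sl G D b z + x) ≤ min (M D (T G D) κ z (b, some (sl G D b z)) (κ z)) L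
  rcases S.eq_empty_or_nonempty with h | h
  · rw [h, card_empty, Nat.cast_zero]
    positivity
  obtain ⟨⟨a1, a2⟩, a3, a4⟩ := (mem_filter.1 (S.max'_mem h)).2
  have a5 : M D (T G D) κ (S.max' h) (b, some s) y ≤ 2 ^ (s + x) := by
    by_contra! k
    exact a4 (mem_filter.2 ⟨mem_univ _, a1, by
      rw [a2, a3]
      exact le_min k.le (by exact_mod_cast e)⟩)
  have a6 := N_le hD a5
  have a7 : S.card ≤ (cnt fun z : Fin n => (z : ℕ) < S.max' h ∧ T G D (b, some s) z ∧ κ z = y) + 1 := by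
    rw [cnt_eq]
    refine le_trans (card_le_card fun z hz => mem_insert.2 ?_) (card_insert_le (S.max' h) _)
    exact (S.le_max' z hz).eq_or_lt.imp_right fun k =>
      mem_filter.2 ⟨mem_univ _, k, (mem_filter.1 hz).2.1, (mem_filter.1 hz).2.2.1⟩
  have a8 := div_le_div_of_nonneg_right (Nat.cast_le.2 (cnt_mono
    (P := fun z : Fin n => (z : ℕ) < S.max' h ∧ T G D (b, some s) z)
    (Q := fun z : Fin n => (z : ℕ) < n ∧ T G D (b, some s) z) fun z hz => ⟨z.2, hz.2⟩)) hD'.le
  have a9 := (Nat.cast_le (α := ℝ)).2 a7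
  push_cast at a6 a9 ⊢
  linarith

end Pool.Agent.MP_a7b5fd_co.X

end MrgPart3

-- ======== part 4: formerly Pool.Agent.MP_a7b5fd_co.X.Top
section MrgPart4

/-! The top stage: the pools are indexed by the dyadic size of a colour class at a vertex. -/

set_option autoImplicit false

namespace Pool.Agent.MP_a7b5fd_co.X

open Finset Pool.Agent.MP_a7b5fd_co.H39 Pool.Agent.MP_a7b5fd_co.H11

namespace TopA

variable {n : ℕ} (G : SimpleGraph (Fin n)) [DecidableRel G.Adj]

theorem orient {Y : Type} (κ : Fin n → Y) (Exc : Fin n → Finset (Fin n)) (y : Y) {X A Δ : ℕ}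
    (hX : 0 < X) (h1 : ∀ z, (Exc z).card * (X * X) ≤ 16 * Δ)
    (h2 : ∀ b, (csum G b fun z => κ z = y ∧ b ∉ Exc z) ≤ A * Δ) :
    Deg ((A + 32) * Δ / X) fun u v => G.Adj u v ∧ (X ≤ dg G κ u y ∧ dg G κ u y < X * 2) ∧
      (X ≤ dg G κ v y ∧ dg G κ v y < X * 2) := by
  classical
  refine ⟨fun b => ((G.neighborFinset b).filter fun a => X ≤ dg G κ a y ∧
      ∀ z, G.Adj a z → κ z = y → b ∉ Exc z) ∪
    (if dg G κ b y < X * 2 then (univ.filter fun z => G.Adj b z ∧ κ z = y).biUnion Exc else ∅),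
    fun b => ?_, fun u v ⟨e, hu, hv⟩ => ?_⟩
  · rw [Nat.le_div_iff_mul_le hX]
    refine (Nat.mul_le_mul_right _ (card_union_le _ _)).trans ?_
    rw [add_mul, add_mul]
    refine Nat.add_le_add ?_ ?_
    · refine le_trans ?_ (h2 b)
      rw [csum_eq_sum, ← smul_eq_mul]
      refine (card_nsmul_le_sum _ (fun a => cnt fun z => G.Adj a z ∧ κ z = y ∧ b ∉ Exc z) X
        fun a ha => ?_).trans (sum_le_sum_of_subset (filter_subset _ _))
      obtain ⟨-, a1, a2⟩ := mem_filter.1 ha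
      exact a1.trans (few_iff.1 ((few_iff.2 le_rfl).mono le_rfl
        fun z hz => ⟨hz.1, hz.2, a2 z hz.1 hz.2⟩))
    · split_ifs with h
      · rw [dg, cnt_eq] at h
        refine Nat.le_of_mul_le_mul_right ?_ hX
        rw [mul_assoc]
        refine (Nat.mul_le_mul_right _ card_biUnion_le).trans ?_
        rw [sum_mul]
        refine (sum_le_card_nsmul _ _ (16 * Δ) fun z _ => h1 z).trans ?_
        rw [smul_eq_mul]
        exact (Nat.mul_le_mul_right _ h.le).trans (le_of_eq (by ring))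
      · simp
  · by_cases h : ∀ z, G.Adj v z → κ z = y → u ∉ Exc z
    · exact Or.inl (mem_union_left _ (mem_filter.2 ⟨by simpa using e, hv.1, h⟩))
    · push Not at h
      obtain ⟨z, z1, z2, z3⟩ := h
      refine Or.inr (mem_union_right _ ?_)
      rw [if_pos hv.2]
      exact mem_biUnion.2 ⟨z, mem_filter.2 ⟨mem_univ _, z1, z2⟩, z3⟩

variable {Δ τ L w : ℕ} {W : Type} [Fintype W] {κ : Fin n → Fin (4 * Δ)} (h : Fin n → W)

theorem pool (hK : KillS) (hc : IsCol G Δ τ L κ) (hL : (τ + 2) ^ 3 ≤ L) (hw : 1 ≤ w)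
    (hW : Fintype.card W + 1 ≤ 2 ^ w) (a : ℕ) (ha : 2 ^ a ≤ τ + 2) :
    ∃ c, c * 2 ^ a ≤ (5536 + 384 * a) * Δ ∧
      Cov G (fun u v => (2 ^ a ≤ dg G κ u (κ v) ∧ dg G κ u (κ v) < 2 ^ a * 2) ∧
        ∀ z, G.Adj u z → ¬ (κ z = κ v ∧ h z = h v))
        (c + 6 * ((8 * (τ + 2) ^ 2) ^ (2 * w) * (3 * w) ^ (32 * w))) := by
  have hX : 0 < 2 ^ a := by positivity
  have e2 : 2 ^ (2 * a) = 2 ^ a * 2 ^ a := by rw [two_mul, pow_add]
  obtain ⟨Exc, x1, x2⟩ := hc.exc (2 * a) (by
    rw [e2]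
    refine le_trans ?_ hL
    rw [pow_three]
    exact Nat.mul_le_mul (by omega) (Nat.mul_le_mul ha ha))
  rw [e2] at x1
  have t := fun b => hc.tail b (2 ^ a) ((Nat.pow_le_pow_left ha 3).trans hL)
  generalize 2 ^ a = X at *
  have K := hK n G _ W κ h (fun u y => X ≤ dg G κ u y ∧ dg G κ u y < X * 2) (100 * Δ / X ^ 3) (X * 2)
    ((2 * (2 * a) + 9 + 32) * Δ / X) w hc.proper hw hW (by omega)
    (fun u => (few_iff.2 ((Nat.le_div_iff_mul_le (by positivity)).2 (t u))).mono le_rfl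
      fun y hy => hy.1)
    (fun u y hy => hy.2.le) fun y => orient G κ Exc y hX x1 fun b => x2 b y
  refine ⟨100 * Δ / X ^ 3 * (2 * (X * 2) ^ 2) * 2 + 96 * ((2 * (2 * a) + 9 + 32) * Δ / X), ?_,
    K.mono (fun _ _ => id) ?_⟩
  · have a1 := Nat.div_mul_le_self (100 * Δ) (X ^ 3)
    have a2 := Nat.div_mul_le_self ((2 * (2 * a) + 9 + 32) * Δ) X
    generalize 100 * Δ / X ^ 3 = p at *
    generalize (2 * (2 * a) + 9 + 32) * Δ / X = q at *
    calc _ = 16 * (p * X ^ 3) + 96 * (q * X) := by ring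
      _ ≤ 16 * (100 * Δ) + 96 * ((2 * (2 * a) + 9 + 32) * Δ) := by omega
      _ = _ := by ring
  · rw [← add_assoc]
    have : 2 * (X * 2) ^ 2 ≤ 8 * (τ + 2) ^ 2 :=
      (le_of_eq (by ring)).trans (Nat.mul_le_mul_left 8 (Nat.pow_le_pow_left ha 2))
    gcongr

theorem pools (hK : KillS) (hΔ : ∀ v, G.degree v ≤ Δ) (hc : IsCol G Δ τ L κ) (hL : (τ + 2) ^ 3 ≤ L)
    (hw : 1 ≤ w) (hW : Fintype.card W + 1 ≤ 2 ^ w) (l : ℕ) (hl : 2 ^ l ≤ τ + 2) :
    ∃ c, c * 2 ^ l + (6304 + 384 * l) * Δ ≤ 6416 * Δ * 2 ^ l ∧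
      Cov G (fun u v => dg G κ u (κ v) < 2 ^ l * 2 ∧ ∀ z, G.Adj u z → ¬ (κ z = κ v ∧ h z = h v))
        (c + (l + 1) * (6 * ((8 * (τ + 2) ^ 2) ^ (2 * w) * (3 * w) ^ (32 * w)))) := by
  induction l with
  | zero =>
    have K := hK n G _ W κ h (fun u y => dg G κ u y < 2 ^ 0 * 2) (4 * Δ) 1 Δ w hc.proper hw hW
      one_pos (fun u => ⟨univ, by simp, fun _ _ => mem_univ _⟩) (fun u y hy => by omega)
      fun y => ⟨fun b => G.neighborFinset b, card_nbr G hΔ, fun u v e => Or.inl (by simpa using e.1)⟩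
    refine ⟨112 * Δ, by omega, K.mono (fun _ _ => id) ?_⟩
    have : (2 * 1 ^ 2) ^ (2 * w) ≤ (8 * (τ + 2) ^ 2) ^ (2 * w) :=
      Nat.pow_le_pow_left (by nlinarith) _
    have := Nat.mul_le_mul_right ((3 * w) ^ (32 * w)) this
    omega
  | succ l ih =>
    obtain ⟨c, c1, c2⟩ := ih (by rw [pow_succ] at hl; omega)
    obtain ⟨d, d1, d2⟩ := pool G h hK hc hL hw hW (l + 1) hl
    refine ⟨c + d, ?_, c2.add d2 (fun u v e => ?_) (le_of_eq (by ring))⟩
    · rw [pow_succ] at d1 ⊢
      nlinarith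
    · by_cases q : dg G κ u (κ v) < 2 ^ l * 2
      · exact Or.inl ⟨q, e.2⟩
      · exact Or.inr ⟨⟨by rw [pow_succ]; omega, e.1⟩, e.2⟩

end TopA

open TopA in
theorem topc : KillS → TopS := by
  intro hK n G _ Δ τ L w W _ κ h hΔ hc hL hw hW
  have hl : 2 ^ Nat.log 2 (τ + 2) ≤ τ + 2 := Nat.pow_log_le_self 2 (by omega)
  have hu : τ + 2 < 2 ^ (Nat.log 2 (τ + 2) + 1) := Nat.lt_pow_succ_log_self (by norm_num) _
  obtain ⟨c, c1, c2⟩ := pools G h hK hΔ hc hL hw hW _ hl
  refine c2.mono (fun u v e => ⟨(hc.deg _ _).trans_lt (by rwa [pow_succ] at hu), e⟩)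
    (Nat.add_le_add ?_ (Nat.mul_le_mul_right _ (le_trans Nat.lt_two_pow_self hl)))
  have := Nat.le_of_mul_le_mul_right ((Nat.le_add_right _ _).trans c1) (by positivity)
  omega

end Pool.Agent.MP_a7b5fd_co.X

end MrgPart4

-- ======== part 5: formerly Pool.Agent.MP_a7b5fd_co.X.Hcol
section MrgPart5

/-! The second colouring. -/

set_option autoImplicit false

namespace Pool.Agent.MP_a7b5fd_co.X

open Finset Real Pool.Agent.MP_a7b5fd_co.H39 Pool.Agent.MP_a7b5fd_co.H11

namespace Hc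

variable {n : ℕ} (G : SimpleGraph (Fin n)) [DecidableRel G.Adj]

/-- The number of paths of length three. -/
def p3 (v w : Fin n) : ℕ := ∑ a ∈ G.neighborFinset v, cod G a w

lemma cod_sum (a w : Fin n) :
    cod G a w = ∑ b ∈ G.neighborFinset w, if G.Adj a b then 1 else 0 := by
  rw [cod, inter_comm, ← filter_mem_eq_inter, card_filter]
  refine sum_congr rfl fun b _ => ?_
  simp

lemma p3_comm (v w : Fin n) : p3 G v w = p3 G w v := by
  simp only [p3, cod_sum]
  rw [sum_comm]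
  refine sum_congr rfl fun a _ => sum_congr rfl fun b _ => ?_
  simp only [G.adj_comm]

lemma card_cls' {Y Z : Type} [Fintype Z] (κ : Fin n → Y) {P : ℕ} (hP : ∀ b y, dg G κ b y ≤ P)
    (c : Fin n → Z) (x v : Fin n)
    [DecidablePred fun y => ∃ w, w < v ∧ G.Adj x w ∧ κ w = κ v ∧ c w = y] :
    (univ.filter fun y => ∃ w, w < v ∧ G.Adj x w ∧ κ w = κ v ∧ c w = y).card ≤ P := by
  classical
  have h := hP x (κ v)
  rw [dg, cnt_eq] at h
  refine le_trans (card_le_card (t := (univ.filter fun z => G.Adj x z ∧ κ z = κ v).image c) ?_)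
    (card_image_le.trans h)
  intro y hy
  obtain ⟨w, -, h2, h3, h4⟩ := (mem_filter.1 hy).2
  exact mem_image.2 ⟨w, mem_filter.2 ⟨mem_univ _, h2, h3⟩, h4⟩

lemma log_le {m τ : ℕ} (h0 : 0 < m) (h : m * 4 ≤ 2 ^ τ) : log m + 1 ≤ τ := by
  have h1 : (m : ℝ) * 4 ≤ 2 ^ τ := by exact_mod_cast h
  have h2 : (0 : ℝ) < m := by exact_mod_cast h0
  have h3 := log_le_log (by positivity) h1
  rw [log_mul h2.ne' (by norm_num), log_pow, show (4 : ℝ) = 2 ^ 2 by norm_num, log_pow] at h3
  have h4 := log_two_gt_d9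
  have h5 := log_two_lt_d9
  have h6 : (0 : ℝ) ≤ τ := Nat.cast_nonneg _
  push_cast at h3
  nlinarith

open Classical in
/-- The colouring, with the four bounds that the greedy choice gives. -/
lemma core {Δ P η Q τ : ℕ} {Y : Type} [Fintype Y] (κ : Fin n → Y) (hΔ : ∀ v, G.degree v ≤ Δ)
    (hP : ∀ b y, dg G κ b y ≤ P) (hS : ∀ b y, (csum G b fun z => κ z = y) ≤ P * Δ)
    (hη : 0 < η) (hQ : 0 < Q) (h1 : Δ * P ≤ η * Q) (h2 : Δ ^ 2 * P ≤ η ^ 2 * Q)
    (hτ : n * (Fintype.card Y * (3 * Q) + 1) * 4 ≤ 2 ^ τ) :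
    ∃ c : Fin n → Fin (3 * Q),
      (∀ v, ((G.neighborFinset v).filter fun x =>
        ∃ w, w < v ∧ G.Adj x w ∧ κ w = κ v ∧ c w = c v).card ≤ η) ∧
      (∀ v w, w < v → κ w = κ v → c w = c v → p3 G v w ≤ η ^ 2) ∧
      (∀ u y, ∑ v ∈ univ.filter (fun v => (κ v, c v) = y), min η (cod G u v) ≤ 2 * τ * η) ∧
      ∀ u, (univ.filter fun v =>
        G.Adj u v ∧ ∃ w, w < v ∧ G.Adj u w ∧ κ w = κ v ∧ c w = c v).card ≤ 2 * (τ + η) := by
  have hη' : (0 : ℝ) < η := by exact_mod_cast hη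
  have hQ' : (0 : ℝ) < Q := by exact_mod_cast hQ
  have h1' : (Δ : ℝ) * P ≤ η * Q := by exact_mod_cast h1
  have : Nonempty (Fin (3 * Q)) := ⟨⟨0, by omega⟩⟩
  have hN := card_nbr G hΔ
  let E : Fin n → (Fin n → Fin (3 * Q)) → Fin (3 * Q) → Finset (Fin n) :=
    fun v c y => (G.neighborFinset v).filter fun x => ∃ w, w < v ∧ G.Adj x w ∧ κ w = κ v ∧ c w = y
  let T : Fin n → (Fin n → Fin (3 * Q)) → Fin (3 * Q) → ℕ :=
    fun v c y => ∑ w ∈ univ.filter (fun w => w < v ∧ κ w = κ v ∧ c w = y), p3 G v w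
  have hE : ∀ v (c c' : Fin n → Fin (3 * Q)), (∀ w < v, c w = c' w) → ∀ x y,
      (∃ w, w < v ∧ G.Adj x w ∧ κ w = κ v ∧ c w = y) ↔
        ∃ w, w < v ∧ G.Adj x w ∧ κ w = κ v ∧ c' w = y :=
    fun v c c' h x y => exists_congr fun w => and_congr_right fun hw => by rw [h w hw]
  obtain ⟨c, hc1, hc2⟩ := balanced (I := Fin n × Option (Y × Fin (3 * Q))) Q hQ
    (fun i v c y => match i.2 with
      | some k => if κ v = k.1 ∧ y = k.2 then (min η (cod G i.1 v) : ℕ) / (η : ℝ) else 0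
      | none => if G.Adj i.1 v ∧ ∃ w, w < v ∧ G.Adj i.1 w ∧ κ w = κ v ∧ c w = y then 1 else 0)
    (fun i v => match i.2 with
      | some k => if κ v = k.1 then (cod G i.1 v : ℝ) / η else 0
      | none => if G.Adj i.1 v then P else 0)
    (fun v c y => η < (E v c y).card ∨ η ^ 2 < T v c y)
    (by
      rintro ⟨u, _ | k⟩ v c y <;> dsimp only <;> split_ifs <;> positivity)
    (by
      rintro ⟨u, _ | k⟩ v c y <;> dsimp only <;> split_ifs
      · exact le_rfl
      · exact zero_le_one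
      · rw [div_le_one hη']
        exact_mod_cast min_le_left _ _
      · exact zero_le_one)
    (by
      rintro ⟨u, _ | k⟩ v c c' h
      · funext y
        simp only [hE v c c' h]
      · rfl)
    (by
      rintro v c c' y h (h1 | h1)
      · refine Or.inl (h1.trans_eq ?_)
        simp only [E, hE v c c' h]
      · refine Or.inr (h1.trans_eq ?_)
        refine sum_congr (filter_congr fun w _ => and_congr_right fun hw => ?_) fun _ _ => rfl
        rw [h w hw])
    (by
      rintro ⟨u, _ | k⟩ v c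
      · dsimp only
        by_cases h : G.Adj u v
        · simp only [h, true_and, if_true, sum_boole]
          exact_mod_cast card_cls' G κ hP c u v
        · simp [h]
      · dsimp only
        by_cases h : κ v = k.1
        · simp only [h, true_and, if_true]
          rw [sum_ite_eq' univ k.2, if_pos (mem_univ _)]
          refine div_le_div_of_nonneg_right ?_ hη'.le
          exact_mod_cast min_le_right _ _
        · simp [h])
    (by
      intro v c
      let B₁ : Finset (Fin (3 * Q)) := univ.filter fun y => η < (E v c y).card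
      let B₂ : Finset (Fin (3 * Q)) := univ.filter fun y => η ^ 2 < T v c y
      have a1 : B₁.card * η ≤ Δ * P :=
        calc B₁.card * η ≤ ∑ y ∈ B₁, (E v c y).card :=
              card_nsmul_le_sum _ _ _ fun y hy => (mem_filter.1 hy).2.le
          _ ≤ ∑ y, (E v c y).card := sum_le_sum_of_subset (subset_univ _)
          _ = ∑ x ∈ G.neighborFinset v,
                (univ.filter fun y => ∃ w, w < v ∧ G.Adj x w ∧ κ w = κ v ∧ c w = y).card := by
              simp only [E, card_filter]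
              rw [sum_comm]
          _ ≤ Δ * P := (sum_le_card_nsmul _ _ P fun x _ => card_cls' G κ hP c x v).trans
              (Nat.mul_le_mul_right _ (hN v))
      have a2 : B₂.card * η ^ 2 ≤ Δ ^ 2 * P :=
        calc B₂.card * η ^ 2 ≤ ∑ y ∈ B₂, T v c y :=
              card_nsmul_le_sum _ _ _ fun y hy => (mem_filter.1 hy).2.le
          _ ≤ ∑ y, T v c y := sum_le_sum_of_subset (subset_univ _)
          _ = ∑ w ∈ univ.filter (fun w => w < v ∧ κ w = κ v), p3 G v w := by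
              rw [← sum_fiberwise (univ.filter fun w => w < v ∧ κ w = κ v) c]
              refine sum_congr rfl fun y _ => sum_congr ?_ fun _ _ => rfl
              rw [filter_filter]
              exact filter_congr fun w _ => and_assoc.symm
          _ ≤ ∑ w ∈ univ.filter (fun w => κ w = κ v), p3 G v w :=
              sum_le_sum_of_subset fun w hw => mem_filter.2 ⟨mem_univ _, (mem_filter.1 hw).2.2⟩
          _ = ∑ a ∈ G.neighborFinset v, csum G a fun z => κ z = κ v := by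
              simp only [p3, csum_eq]
              rw [sum_comm]
          _ ≤ Δ * (P * Δ) := (sum_le_card_nsmul _ _ _ fun a _ => hS a (κ v)).trans
              (Nat.mul_le_mul_right _ (hN v))
          _ = _ := by ring
      have a3 : B₁.card ≤ Q :=
        Nat.le_of_mul_le_mul_right (a1.trans (h1.trans_eq (mul_comm _ _))) hη
      have a4 : B₂.card ≤ Q :=
        Nat.le_of_mul_le_mul_right (a2.trans (h2.trans_eq (mul_comm _ _))) (by positivity)
      refine ⟨univ \ (B₁ ∪ B₂), ?_, ?_⟩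
      · rw [card_sdiff_of_subset (subset_univ _), card_univ, Fintype.card_fin]
        have := card_union_le B₁ B₂
        omega
      · rintro y hy (h | h)
        · exact (mem_sdiff.1 hy).2 (mem_union_left _ (mem_filter.2 ⟨mem_univ _, h⟩))
        · exact (mem_sdiff.1 hy).2 (mem_union_right _ (mem_filter.2 ⟨mem_univ _, h⟩)))
  have hI : ∀ _ : Fin n, log (Fintype.card (Fin n × Option (Y × Fin (3 * Q)))) + 1 ≤ τ := by
    intro u
    refine log_le (Fintype.card_pos_iff.2 ⟨(u, none)⟩) ?_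
    simpa using hτ
  simp only [not_or, not_lt] at hc1
  refine ⟨c, fun v => (hc1 v).1, fun v w e1 e2 e3 => le_trans ?_ (hc1 v).2, fun u y => ?_,
    fun u => ?_⟩
  · exact single_le_sum (f := fun w => p3 G v w) (fun _ _ => Nat.zero_le _)
      (mem_filter.2 ⟨mem_univ _, e1, e2, e3⟩)
  · have a1 := hc2 (u, some y)
    dsimp only at a1
    have a2 : (∑ v, if κ v = y.1 then (cod G u v : ℝ) / η else 0) / (Q : ℝ) ≤ 1 := by
      rw [← sum_filter, ← sum_div, div_div, div_le_one (by positivity)]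
      have h := hS u y.1
      rw [csum_eq] at h
      have : ((∑ v ∈ univ.filter (fun v => κ v = y.1), cod G u v : ℕ) : ℝ) ≤ (P * Δ : ℕ) := by
        exact_mod_cast h
      push_cast at this
      nlinarith
    rw [← sum_filter, ← sum_div, div_le_iff₀ hη'] at a1
    have a3 : ∑ v ∈ univ.filter (fun v => κ v = y.1 ∧ c v = y.2),
        ((min η (cod G u v) : ℕ) : ℝ) ≤ 2 * τ * η :=
      a1.trans (mul_le_mul_of_nonneg_right (by linarith [hI u]) hη'.le)
    have a4 : ∑ v ∈ univ.filter (fun v => κ v = y.1 ∧ c v = y.2), min η (cod G u v) ≤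
        2 * τ * η := by exact_mod_cast a3
    refine le_trans (le_of_eq (sum_congr (filter_congr fun v _ => ?_) fun _ _ => rfl)) a4
    exact Prod.ext_iff
  · have a1 := hc2 (u, none)
    dsimp only at a1
    have a2 : (∑ v, if G.Adj u v then (P : ℝ) else 0) / (Q : ℝ) ≤ η := by
      rw [← sum_filter, sum_const, nsmul_eq_mul, div_le_iff₀ hQ']
      have : ((univ.filter fun v => G.Adj u v).card : ℝ) ≤ Δ := by
        rw [← SimpleGraph.neighborFinset_eq_filter]
        exact_mod_cast hN u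
      have h0 : (0 : ℝ) ≤ P := Nat.cast_nonneg _
      nlinarith
    rw [sum_boole] at a1
    have a3 : ((univ.filter fun v => G.Adj u v ∧
        ∃ w, w < v ∧ G.Adj u w ∧ κ w = κ v ∧ c w = c v).card : ℝ) ≤ 2 * (τ + η) :=
      a1.trans (by linarith [hI u])
    exact_mod_cast a3

end Hc

open Hc in
theorem hcol : HcolS := by
  classical
  intro n G _ Δ P η Q τ Y _ κ hΔ hP hS hη hQ h1 h2 hτ
  obtain ⟨c, c1, c2, c3, c4⟩ := core G κ hΔ hP hS hη hQ h1 h2 hτ
  refine ⟨c, fun u y => ?_, fun u => ?_, fun y => ?_⟩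
  · refine ⟨(univ.filter fun v => (κ v, c v) = y).biUnion fun v => G.neighborFinset u ∩
      (G.neighborFinset v).filter fun x => ∃ w, w < v ∧ G.Adj x w ∧ κ w = κ v ∧ c w = c v,
      card_biUnion_le.trans (le_trans (sum_le_sum fun v _ => le_min ?_ ?_) (c3 u y)), ?_⟩
    · exact (card_le_card inter_subset_right).trans (c1 v)
    · exact card_le_card (inter_subset_inter_left (filter_subset _ _))
    · rintro x ⟨hx, w, w', e1, e2, e3, e4, e5⟩
      have e := Prod.ext_iff.1 (e4.trans e5.symm)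
      exact mem_biUnion.2 ⟨w', mem_filter.2 ⟨mem_univ _, e5⟩, mem_inter.2 ⟨by simpa using hx,
        mem_filter.2 ⟨by simpa using e3.symm, w, e1, e2, e.1, e.2⟩⟩⟩
  · let X : Finset (Fin n) :=
      univ.filter fun v => G.Adj u v ∧ ∃ w, w < v ∧ G.Adj u w ∧ κ w = κ v ∧ c w = c v
    let Z : Finset (Fin n) := univ.filter fun v =>
      G.Adj u v ∧ Multi G (fun v => (κ v, c v)) u (κ v, c v) ∧ v ∉ X
    have a4 : X.card ≤ 2 * (τ + η) := c4 u
    have a5 : Z.card ≤ (X.image fun v => (κ v, c v)).card := by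
      refine card_le_card_of_injOn (fun v => (κ v, c v)) ?_ ?_
      · intro v hv
        obtain ⟨-, ⟨w, w', e1, e2, e3, e4, e5⟩, -⟩ := (mem_filter.1 hv).2
        have e := Prod.ext_iff.1 (e4.trans e5.symm)
        exact mem_coe.2 (mem_image.2 ⟨w', mem_filter.2
          ⟨mem_univ _, e3, w, e1, e2, e.1, e.2⟩, e5⟩)
      · intro v hv v' hv' e
        obtain ⟨e1, -, e2⟩ := (mem_filter.1 hv).2
        obtain ⟨e3, -, e4⟩ := (mem_filter.1 hv').2
        have e' := Prod.ext_iff.1 e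
        by_contra hne
        rcases lt_or_gt_of_ne hne with h | h
        · exact e4 (mem_filter.2 ⟨mem_univ _, e3, v, h, e1, e'.1, e'.2⟩)
        · exact e2 (mem_filter.2 ⟨mem_univ _, e1, v', h, e3, e'.1.symm, e'.2.symm⟩)
    refine ⟨X ∪ Z, ?_, fun w hw => ?_⟩
    · have := card_union_le X Z
      have := card_image_le (s := X) (f := fun v => (κ v, c v))
      omega
    · by_cases h : w ∈ X
      · exact mem_union_left _ h
      · exact mem_union_right _ (mem_filter.2 ⟨mem_univ _, hw.1, hw.2, h⟩)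
  · let C : Finset (Fin n) := univ.filter fun v => (κ v, c v) = y
    let zc : Fin n → Fin n := fun b => if h : ∃ z, G.Adj b z ∧ z ∈ C then h.choose else b
    let A : Fin n → Finset (Fin n) := fun b => (C.filter fun z' => cod G b z' < η).biUnion
      fun z' => G.neighborFinset b ∩ G.neighborFinset z'
    let B : Fin n → Finset (Fin n) := fun b =>
      (C.filter fun z' => zc b ∈ C ∧ z' ≠ zc b ∧ η ≤ cod G b z').biUnion
        fun z' => (G.neighborFinset z').filter fun a => η ≤ cod G a (zc b)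
    have hp : ∀ z ∈ C, ∀ z' ∈ C, z' ≠ z → p3 G z' z ≤ η ^ 2 := by
      intro z hz z' hz' hne
      have e := Prod.ext_iff.1 ((mem_filter.1 hz).2.trans (mem_filter.1 hz').2.symm)
      rcases lt_or_gt_of_ne hne with h | h
      · rw [p3_comm]
        exact c2 z z' h e.1.symm e.2.symm
      · exact c2 z' z h e.1 e.2
    refine ⟨fun b => A b ∪ B b, fun b => ?_, ?_⟩
    · have a1 : (A b).card ≤ 2 * τ * η := by
        refine card_biUnion_le.trans (le_trans ?_ (c3 b y))
        refine (sum_le_sum fun z' hz' => ?_).trans (sum_le_sum_of_subset (filter_subset _ _))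
        exact le_min (mem_filter.1 hz').2.le le_rfl
      have a2 : (C.filter fun z' => zc b ∈ C ∧ z' ≠ zc b ∧ η ≤ cod G b z').card ≤ 2 * τ := by
        refine Nat.le_of_mul_le_mul_right (le_trans ?_ (c3 b y)) hη
        refine (card_nsmul_le_sum _ (fun z' => min η (cod G b z')) η fun z' hz' => ?_).trans
          (sum_le_sum_of_subset (filter_subset _ _))
        exact le_min le_rfl (mem_filter.1 hz').2.2.2
      have a3 : (B b).card ≤ 2 * τ * η := by
        refine (card_biUnion_le_card_mul _ _ η fun z' hz' => ?_).trans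
          (Nat.mul_le_mul_right _ a2)
        obtain ⟨e1, e2, e3, -⟩ := mem_filter.1 hz'
        refine Nat.le_of_mul_le_mul_right (le_trans ?_ ((hp _ e2 _ e1 e3).trans_eq (sq η))) hη
        exact (card_nsmul_le_sum _ (fun a => cod G a (zc b)) η fun a ha =>
          (mem_filter.1 ha).2).trans (sum_le_sum_of_subset (filter_subset _ _))
      have := card_union_le (A b) (B b)
      have e : 4 * τ * η = 2 * τ * η + 2 * τ * η := by ring
      dsimp only
      omega
    · rintro u v ⟨huv, z, z', s1, s2, e1, e2, hne⟩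
      have hz : z ∈ C := mem_filter.2 ⟨mem_univ _, e1⟩
      have hz' : z' ∈ C := mem_filter.2 ⟨mem_univ _, e2⟩
      by_cases k1 : cod G u z' < η
      · exact Or.inl (mem_union_left _ (mem_biUnion.2 ⟨z', mem_filter.2 ⟨hz', k1⟩,
          mem_inter.2 ⟨by simpa using huv, by simpa using s2.1.symm⟩⟩))
      by_cases k2 : cod G v z < η
      · exact Or.inr (mem_union_left _ (mem_biUnion.2 ⟨z, mem_filter.2 ⟨hz, k2⟩,
          mem_inter.2 ⟨by simpa using huv.symm, by simpa using s1.1.symm⟩⟩))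
      have e3 : zc u = z := by
        have h : ∃ z, G.Adj u z ∧ z ∈ C := ⟨z, s1.1, hz⟩
        simp only [zc, dif_pos h]
        exact s1.2 _ h.choose_spec.1 ((mem_filter.1 h.choose_spec.2).2.trans e1.symm)
      refine Or.inl (mem_union_right _ (mem_biUnion.2 ⟨z', mem_filter.2 ⟨hz', ?_⟩,
        mem_filter.2 ⟨by simpa using s2.1.symm, ?_⟩⟩))
      · rw [e3]
        exact ⟨hz, hne.symm, not_lt.1 k1⟩
      · rw [e3]
        exact not_lt.1 k2

end Pool.Agent.MP_a7b5fd_co.X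

end MrgPart5

-- ======== part 6: formerly Pool.Agent.MP_a7b5fd_co.X.Column
section MrgPart6

/-! The columns exist. -/

set_option autoImplicit false

namespace Pool.Agent.MP_a7b5fd_co.X

open Finset Pool.Agent.MP_a7b5fd_co.H39 Pool.Agent.MP_a7b5fd_co.H11

namespace Column

/-- A maximal independent subset. -/
theorem roots {α : Type} [DecidableEq α] (r : α → α → Prop) (hs : ∀ x y, r x y → r y x)
    (S : Finset α) (hr : ∀ x ∈ S, r x x) :
    ∃ I ⊆ S, (∀ x ∈ I, ∀ y ∈ I, x ≠ y → ¬ r x y) ∧ ∀ x ∈ S, ∃ y ∈ I, r y x := by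
  induction S using Finset.induction_on with
  | empty => exact ⟨∅, Subset.refl _, by simp, by simp⟩
  | insert a S ha ih =>
    obtain ⟨I, h1, h2, h3⟩ := ih fun x hx => hr x (mem_insert_of_mem hx)
    by_cases c : ∃ y ∈ I, r y a
    · refine ⟨I, h1.trans (subset_insert _ _), h2, fun x hx => ?_⟩
      rcases mem_insert.1 hx with rfl | hx
      · exact c
      · exact h3 x hx
    · refine ⟨insert a I, insert_subset_insert _ h1, fun x hx y hy hne k => ?_, fun x hx => ?_⟩
      · rcases mem_insert.1 hx with e | hx' <;> rcases mem_insert.1 hy with e' | hy'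
        · exact hne (e.trans e'.symm)
        · exact c ⟨y, hy', hs _ _ (e ▸ k)⟩
        · exact c ⟨x, hx', e' ▸ k⟩
        · exact h2 x hx' y hy' hne k
      · rcases mem_insert.1 hx with rfl | hx
        · exact ⟨x, mem_insert_self _ _, hr x (mem_insert_self _ _)⟩
        · obtain ⟨y, hy, k⟩ := h3 x hx
          exact ⟨y, mem_insert_of_mem hy, k⟩

/-- Large sets with small intersections have a large union. -/
theorem bonf {α β : Type} [DecidableEq α] [DecidableEq β] (A : α → Finset β) (R D : ℕ)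
    (I : Finset α) (h1 : ∀ x ∈ I, D ≤ R * (A x).card)
    (h2 : ∀ x ∈ I, ∀ y ∈ I, x ≠ y → 4 * R ^ 2 * (A x ∩ A y).card ≤ D) (h3 : I.card ≤ 2 * R + 1) :
    I.card * D ≤ 2 * R * (I.biUnion A).card := by
  induction I using Finset.induction_on with
  | empty => simp
  | insert a I ha ih =>
    rw [card_insert_of_notMem ha] at h3 ⊢
    have k1 := ih (fun x hx => h1 x (mem_insert_of_mem hx))
      (fun x hx y hy => h2 x (mem_insert_of_mem hx) y (mem_insert_of_mem hy)) (by omega)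
    have k2 := h1 a (mem_insert_self _ _)
    have k3 := card_union_add_card_inter (A a) (I.biUnion A)
    have k4 : (A a ∩ I.biUnion A).card ≤ ∑ y ∈ I, (A a ∩ A y).card := by
      rw [inter_biUnion]
      exact card_biUnion_le
    have k5 : 4 * R ^ 2 * ∑ y ∈ I, (A a ∩ A y).card ≤ I.card * D := by
      rw [mul_sum]
      exact sum_le_card_nsmul _ _ D fun y hy =>
        h2 a (mem_insert_self _ _) y (mem_insert_of_mem hy) fun e => ha (e ▸ hy)
    rw [biUnion_insert]
    rcases Nat.eq_zero_or_pos R with rfl | hR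
    · have : D = 0 := by omega
      simp [this]
    have k6 : 2 * R * (2 * R * (A a ∩ I.biUnion A).card) ≤ 2 * R * D := by
      have : I.card * D ≤ 2 * R * D := Nat.mul_le_mul_right _ (by omega)
      have := Nat.mul_le_mul_left (4 * R ^ 2) k4
      nlinarith
    have k7 := Nat.le_of_mul_le_mul_left k6 (by omega)
    have k8 := congrArg (2 * R * ·) k3
    simp only [mul_add] at k8
    nlinarith

/-- The small subsets of a finite set. -/
theorem small {α : Type} [DecidableEq α] (S : Finset α) (m : ℕ) (hm : S.card ≤ m) (g : ℕ) :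
    Few ((m + 1) ^ g) fun T : Finset α => T ⊆ S ∧ T.card ≤ g := by
  induction g with
  | zero => exact ⟨{∅}, by simp, fun T h => by simpa using h.2⟩
  | succ g ih =>
    obtain ⟨P, h1, h2⟩ := ih
    refine ⟨P ∪ S.biUnion fun x => P.image (insert x), ?_, fun T h => ?_⟩
    · have k : (S.biUnion fun x => P.image (insert x)).card ≤ m * (m + 1) ^ g :=
        (card_biUnion_le_card_mul _ _ _ fun x _ => card_image_le.trans h1).trans
          (Nat.mul_le_mul_right _ hm)
      have := card_union_le P (S.biUnion fun x => P.image (insert x))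
      rw [pow_succ]
      nlinarith
    · rcases T.eq_empty_or_nonempty with rfl | ⟨x, hx⟩
      · exact mem_union_left _ (h2 _ ⟨empty_subset _, by simp⟩)
      · refine mem_union_right _ (mem_biUnion.2 ⟨x, h.1 hx, mem_image.2
          ⟨T.erase x, h2 _ ⟨(erase_subset _ _).trans h.1, ?_⟩, insert_erase hx⟩⟩)
        have := h.2
        rw [card_erase_of_mem hx]
        omega

/-- Pairs of an index and a chunk number. -/
theorem pairs {ι : Type} (A : Finset ι) (a : ι → ℕ) (g D : ℕ) (hg : 0 < g)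
    (h : ∑ i ∈ A, a i ≤ D) : Few (D / g + A.card) fun p : ι × ℕ => p.1 ∈ A ∧ p.2 ≤ a p.1 / g := by
  classical
  refine ⟨A.biUnion fun i => (range (a i / g + 1)).image (Prod.mk i), ?_, ?_⟩
  · refine card_biUnion_le.trans ((sum_le_sum fun i _ => card_image_le).trans ?_)
    simp only [card_range, sum_add_distrib, sum_const, smul_eq_mul, mul_one]
    refine Nat.add_le_add_right ((Nat.le_div_iff_mul_le hg).2 ?_) _
    rw [sum_mul]
    exact (sum_le_sum fun i _ => Nat.div_mul_le_self _ _).trans h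
  · rintro ⟨i, j⟩ ⟨h1, h2⟩
    exact mem_biUnion.2 ⟨i, h1, mem_image.2 ⟨j, mem_range.2 (Nat.lt_succ_of_le h2), rfl⟩⟩

theorem few_inj {α β : Type} {k : ℕ} {P : α → Prop} {Q : β → Prop} (φ : α → β)
    (hφ : Function.Injective φ) (h : Few k Q) (hP : ∀ x, P x → Q (φ x)) : Few k P := by
  obtain ⟨S, h1, h2⟩ := h
  refine ⟨S.preimage φ hφ.injOn, ?_, fun x hx => mem_preimage.2 (h2 _ (hP x hx))⟩
  exact (card_le_card_of_injOn φ (fun x hx => mem_preimage.1 hx) hφ.injOn).trans h1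

theorem few_img {α β : Type} {k : ℕ} {P : α → Prop} {Q : β → Prop} (φ : β → α)
    (h : Few k Q) (hP : ∀ x, P x → ∃ y, Q y ∧ φ y = x) : Few k P := by
  classical
  obtain ⟨S, h1, h2⟩ := h
  refine ⟨S.image φ, card_image_le.trans h1, fun x hx => ?_⟩
  obtain ⟨y, a, b⟩ := hP x hx
  exact mem_image.2 ⟨y, h2 y a, b⟩

theorem fib_sum {α ι : Type} [DecidableEq ι] (N : Finset α) (A : Finset ι) (f : α → ι) :
    ∑ i ∈ A, (N.filter fun x => f x = i).card ≤ N.card := by
  rw [sum_card_fiberwise_eq_card_filter]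
  exact card_filter_le _ _

variable {n : ℕ}

/-- The position of `x` in `S`. -/
def idx (S : Finset (Fin n)) (x : Fin n) : ℕ := (S.filter fun y => y < x).card

theorem idx_le (S : Finset (Fin n)) (x : Fin n) : idx S x ≤ S.card := card_filter_le _ _

theorem idx_lt {S : Finset (Fin n)} {x y : Fin n} (hx : x ∈ S) (h : x < y) : idx S x < idx S y := by
  refine card_lt_card ⟨fun z hz => ?_, fun k => ?_⟩
  · rw [mem_filter] at hz ⊢
    exact ⟨hz.1, hz.2.trans h⟩
  · exact lt_irrefl _ (mem_filter.1 (k (mem_filter.2 ⟨hx, h⟩))).2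

theorem chunk (S : Finset (Fin n)) {g : ℕ} (hg : 0 < g) (j : ℕ) :
    (S.filter fun x => idx S x / g = j).card ≤ g := by
  refine (card_le_card_of_injOn (t := range g) (fun x => idx S x % g)
    (fun x _ => mem_coe.2 (mem_range.2 (Nat.mod_lt _ hg))) fun x hx y hy e => ?_).trans
    (card_range g).le
  have hx' := mem_filter.1 (mem_coe.1 hx)
  have hy' := mem_filter.1 (mem_coe.1 hy)
  have k : idx S x = idx S y := by
    rw [← Nat.div_add_mod (idx S x) g, ← Nat.div_add_mod (idx S y) g, hx'.2, hy'.2]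
    exact congrArg _ e
  rcases lt_trichotomy x y with c | c | c
  · exact absurd k (idx_lt hx'.1 c).ne
  · exact c
  · exact absurd k (idx_lt hy'.1 c).ne'

theorem idx_div_lt (S : Finset (Fin n)) (x : Fin n) (L : ℕ) : idx S x / L < n + 1 := by
  have h1 := idx_le S x
  have h2 : S.card ≤ n := by simpa using card_le_univ S
  have h3 := Nat.div_le_self (idx S x) L
  omega

/-- The roots of a leaf. -/
theorem exists_root (G : SimpleGraph (Fin n)) [DecidableRel G.Adj] {Δ R nb : ℕ}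
    (Z : Fin n → Prop) (blk : Fin n → Fin nb) (hΔ : ∀ v, G.degree v ≤ Δ) (h0 : 0 < Δ) (b : Fin n)
    (hZ : ∀ z, Z z → Δ ≤ R * cod G b z) :
    ∃ (I : Finset (Fin n)) (ρ : Fin n → Fin n), I.card ≤ 2 * R * nb ∧
      ∀ z, Z z → ρ z ∈ I ∧ blk (ρ z) = blk z ∧ Δ ≤ 4 * R ^ 2 * cod G (ρ z) z := by
  classical
  obtain ⟨I, h1, h2, h3⟩ := roots (fun x y => blk x = blk y ∧ Δ ≤ 4 * R ^ 2 * cod G x y)
    (fun x y k => ⟨k.1.symm, by rw [cod_comm]; exact k.2⟩) (univ.filter Z) (fun x hx => ⟨rfl, by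
      have a := hZ x (mem_filter.1 hx).2
      have c : cod G b x ≤ cod G x x := by
        unfold cod
        rw [inter_self]
        exact card_le_card inter_subset_right
      have e : R * cod G b x ≤ 4 * R ^ 2 * cod G x x := Nat.mul_le_mul (by nlinarith) c
      omega⟩)
  have h4 : ∀ z, ∃ y, Z z → y ∈ I ∧ blk y = blk z ∧ Δ ≤ 4 * R ^ 2 * cod G y z := by
    intro z
    by_cases c : Z z
    · obtain ⟨y, a, e⟩ := h3 z (mem_filter.2 ⟨mem_univ _, c⟩)
      exact ⟨y, fun _ => ⟨a, e⟩⟩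
    · exact ⟨z, fun k => absurd k c⟩
  choose ρ hρ using h4
  refine ⟨I, ρ, ?_, hρ⟩
  have h5 : ∀ β ∈ (univ : Finset (Fin nb)), (I.filter fun x => blk x = β).card ≤ 2 * R := by
    intro β _
    by_contra c
    obtain ⟨T, t1, t2⟩ := exists_subset_card_eq (Nat.succ_le_of_lt (not_le.1 c))
    have k := bonf (fun z => G.neighborFinset b ∩ G.neighborFinset z) R Δ T
      (fun x hx => hZ x (mem_filter.1 (h1 (mem_filter.1 (t1 hx)).1)).2)
      (fun x hx y hy hne => by
        have a := mem_filter.1 (t1 hx)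
        have e := mem_filter.1 (t1 hy)
        have f := h2 x a.1 y e.1 hne
        have f2 : ¬ Δ ≤ 4 * R ^ 2 * cod G x y := fun q => f ⟨a.2.trans e.2.symm, q⟩
        refine le_trans (Nat.mul_le_mul_left _ (card_le_card ?_)) (not_le.1 f2).le
        exact inter_subset_inter inter_subset_right inter_subset_right) t2.le
    have k2 : (T.biUnion fun z => G.neighborFinset b ∩ G.neighborFinset z).card ≤ Δ :=
      (card_le_card (biUnion_subset.2 fun z _ => inter_subset_left)).trans (card_nbr G hΔ b)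
    have k3 := Nat.mul_le_mul_left (2 * R) k2
    rw [t2] at k
    simp only [Nat.succ_eq_add_one] at k
    nlinarith
  have := card_le_mul_card_image_of_maps_to (s := I) (t := univ) (f := blk)
    (fun _ _ => mem_univ _) (2 * R) h5
  simpa using this

end Column

open Column in
theorem columns : ColumnS := by
  classical
  intro n G _ Δ R g L d₁ nb Z blk hΔ h0 hg hL hZ hd
  choose I ρ hI hρ using fun b => exists_root G (Z b) blk hΔ h0 b fun z hz => (hZ b z hz).2
  let grp : Fin n → Fin n → Finset (Fin n) := fun b r =>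
    (univ.filter (Z b)).filter fun z => ρ b z = r
  let key : Fin n → Fin n → Fin n × ℕ := fun b z => (ρ b z, idx (grp b (ρ b z)) z / g)
  let Fk : Fin n → Fin n × ℕ → Finset (Fin n) := fun b k =>
    univ.filter fun z => Z b z ∧ key b z = k
  have mF : ∀ b k z, z ∈ Fk b k ↔ Z b z ∧ key b z = k := fun b k z => by simp [Fk]
  have cF : ∀ b k, (Fk b k).card ≤ g := by
    intro b k
    refine le_trans (card_le_card fun z hz => ?_) (chunk (grp b k.1) hg k.2)
    obtain ⟨a, rfl⟩ := (mF b k z).1 hz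
    exact mem_filter.2 ⟨mem_filter.2 ⟨mem_filter.2 ⟨mem_univ _, a⟩, rfl⟩, rfl⟩
  let us : Finset (Fin n) → Finset (Fin n) := fun F =>
    univ.filter fun b => ∃ z, Z b z ∧ Fk b (key b z) = F
  let ck : Fin n → Fin n × ℕ → Finset (Fin n) × Fin (n + 1) := fun b k =>
    (Fk b k, ⟨idx (us (Fk b k)) b / L, idx_div_lt _ _ _⟩)
  let mem : Finset (Fin n) × Fin (n + 1) → Finset (Fin n) := fun c =>
    if c.1.card ≤ g then c.1 else ∅
  have hmem : ∀ b k, mem (ck b k) = Fk b k := fun b k => if_pos (cF b k)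
  refine ⟨Finset (Fin n) × Fin (n + 1), inferInstance, fun b z => ck b (key b z), mem,
    fun b z hz => ?_, fun b z hz u hu => ?_, fun c => ?_, fun b => ?_, fun c => ?_, fun u => ?_⟩
  · rw [hmem]
    exact (mF _ _ _).2 ⟨hz, rfl⟩
  · rw [hmem] at hu
    obtain ⟨a, e⟩ := (mF _ _ _).1 hu
    have e1 : ρ b u = ρ b z := congrArg Prod.fst e
    exact ⟨a, by rw [← (hρ b u a).2.1, e1, (hρ b z hz).2.1]⟩
  · simp only [mem]
    split_ifs with c1
    · exact c1
    · simp
  · have k : ∑ r ∈ I b, (grp b r).card ≤ Δ :=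
      (fib_sum _ _ _).trans ((card_le_card fun z hz =>
        (G.mem_neighborFinset _ _).2 (hZ b z (mem_filter.1 hz).2).1).trans (card_nbr G hΔ b))
    refine few_img (ck b) ((pairs (I b) (fun r => (grp b r).card) g Δ hg k).mono
      (Nat.add_le_add_left (hI b) _) fun _ q => q) ?_
    rintro c ⟨z, hz, rfl⟩
    exact ⟨key b z, ⟨(hρ b z hz).1, Nat.div_le_div_right (idx_le _ _)⟩, rfl⟩
  · refine ⟨_, chunk (us c.1) hL c.2, ?_⟩
    rintro b ⟨z, hz, rfl⟩
    exact mem_filter.2 ⟨mem_filter.2 ⟨mem_univ _, z, hz, rfl⟩, rfl⟩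
  · obtain ⟨S, s1, s2⟩ := hd u (blk u)
    choose T t1 t2 using fun r => hd r (blk u)
    choose P p1 p2 using fun r => small (T r) d₁ (t1 r) g
    let A : Finset (Finset (Fin n)) := (S.biUnion P).filter fun F => u ∈ F
    have a1 : A.card ≤ d₁ * (d₁ + 1) ^ g :=
      (card_filter_le _ _).trans ((card_biUnion_le_card_mul _ _ _ fun r _ => p1 r).trans
        (Nat.mul_le_mul_right _ s1))
    have k : ∑ F ∈ A, (us F).card ≤ Δ := by
      refine le_trans (sum_le_sum fun F hF => card_le_card fun b hb => ?_)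
        ((fib_sum (G.neighborFinset u) A fun b => Fk b (key b u)).trans (card_nbr G hΔ u))
      obtain ⟨z, hz, rfl⟩ := (mem_filter.1 hb).2
      obtain ⟨a, e⟩ := (mF _ _ _).1 (mem_filter.1 hF).2
      exact mem_filter.2 ⟨(G.mem_neighborFinset _ _).2 (hZ b u a).1.symm, by rw [e]⟩
    refine few_inj (fun c => (c.1, (c.2 : ℕ))) (fun c c' e => ?_)
      ((pairs A (fun F => (us F).card) L Δ hL k).mono (by omega) fun _ q => q) ?_
    · exact Prod.ext (Prod.mk.inj e).1 (Fin.ext (Prod.mk.inj e).2)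
    · rintro c ⟨⟨b, z, hz, rfl⟩, hu⟩
      rw [hmem] at hu
      refine ⟨mem_filter.2 ⟨mem_biUnion.2 ⟨ρ b z, ?_, p2 _ _ ⟨fun w hw => ?_, cF _ _⟩⟩, hu⟩,
        Nat.div_le_div_right (idx_le _ _)⟩
      · obtain ⟨a, e⟩ := (mF _ _ _).1 hu
        have e1 : ρ b u = ρ b z := congrArg Prod.fst e
        rw [← e1]
        exact s2 _ ⟨(hρ b u a).2.1, by rw [cod_comm]; exact (hρ b u a).2.2⟩
      · obtain ⟨a, e⟩ := (mF _ _ _).1 hu
        obtain ⟨a', e'⟩ := (mF _ _ _).1 hw
        have e1 : ρ b u = ρ b z := congrArg Prod.fst e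
        have e2 : ρ b w = ρ b z := congrArg Prod.fst e'
        refine t2 _ _ ⟨by rw [← (hρ b w a').2.1, e2, ← e1, (hρ b u a).2.1], ?_⟩
        rw [← e2]
        exact (hρ b w a').2.2

end Pool.Agent.MP_a7b5fd_co.X

end MrgPart6

-- ======== part 7: formerly Pool.Agent.MP_a7b5fd_co.X.Dense
section MrgPart7

/-! The pairs that come from an edge which lies in a column. -/

set_option autoImplicit false

namespace Pool.Agent.MP_a7b5fd_co.X

open Finset Pool.Agent.MP_a7b5fd_co.H39 Pool.Agent.MP_a7b5fd_co.H11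

namespace DenseAux

theorem exists_idx {α : Type} (S : Finset α) {k : ℕ} (h : S.card ≤ k) :
    ∃ f : α → ℕ, (∀ x ∈ S, f x < k) ∧ ∀ x ∈ S, ∀ y ∈ S, f x = f y → x = y := by
  classical
  refine ⟨fun x => if hx : x ∈ S then (S.equivFin ⟨x, hx⟩ : ℕ) else 0, fun x hx => ?_,
    fun x hx y hy e => ?_⟩
  · simp only [dif_pos hx]
    exact (Fin.is_lt _).trans_le h
  · simp only [dif_pos hx, dif_pos hy] at e
    exact congrArg Subtype.val (S.equivFin.injective (Fin.ext e))

theorem exists_fin {α : Type} (S : Finset α) {k : ℕ} (h : S.card ≤ k) (hk : 0 < k) :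
    ∃ f : α → Fin k, ∀ x ∈ S, ∀ y ∈ S, f x = f y → x = y := by
  obtain ⟨f, h1, h2⟩ := exists_idx S h
  refine ⟨fun x => if hx : f x < k then ⟨f x, hx⟩ else ⟨0, hk⟩, fun x hx y hy e => ?_⟩
  simp only [dif_pos (h1 x hx), dif_pos (h1 y hy), Fin.mk.injEq] at e
  exact h2 x hx y hy e

theorem few_image {α β : Type} {k : ℕ} {P : α → Prop} (h : Few k P) (f : α → β) {Q : β → Prop}
    (hQ : ∀ y, Q y → ∃ x, P x ∧ f x = y) : Few k Q := by
  classical
  obtain ⟨S, h1, h2⟩ := h
  refine ⟨S.image f, card_image_le.trans h1, fun y hy => ?_⟩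
  obtain ⟨x, a, b⟩ := hQ y hy
  exact mem_image.2 ⟨x, h2 x a, b⟩

/-- A code of the set of labels of a column. -/
theorem exists_lab {V T C : Type} {g : ℕ} (rel : V → T) (mem : C → Finset V) (idx : C → V → Fin g)
    (hidx : ∀ c, ∀ x ∈ mem c, ∀ y ∈ mem c, idx c x = idx c y → x = y) :
    ∃ lab : C → Fin g → Option T, ∀ c c', lab c = lab c' → ∀ u ∈ mem c, ∃ u' ∈ mem c',
      rel u' = rel u := by
  classical
  refine ⟨fun c i => if h : ∃ u ∈ mem c, idx c u = i then some (rel h.choose) else none,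
    fun c c' e u hu => ?_⟩
  have e1 := congrFun e (idx c u)
  have h1 : ∃ v ∈ mem c, idx c v = idx c u := ⟨u, hu, rfl⟩
  simp only [dif_pos h1] at e1
  have h2 : h1.choose = u := hidx c _ h1.choose_spec.1 u hu h1.choose_spec.2
  by_cases h3 : ∃ v ∈ mem c', idx c' v = idx c u
  · rw [dif_pos h3, h2, Option.some.injEq] at e1
    exact ⟨_, h3.choose_spec.1, e1.symm⟩
  · rw [dif_neg h3] at e1
    exact absurd e1 (Option.some_ne_none _)

end DenseAux

open DenseAux

theorem dense (hB : BaseS) (hL : LinS) (hP : PalS) : DenseS := by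
  classical
  intro n G _ Δ g m L J d₀ D nb w l k d hi Y T C _ _ c blk rel Z col mem hΔ hc hcl hZ hcol hd hD
    hg hw hcard hsep
  by_cases hU : ∃ b z, Z b z
  swap
  · exact ⟨Unit, fun _ => ∅, by simp, by simp, fun u v h =>
      let ⟨z, a, _⟩ := h.2; absurd ⟨u, z, a⟩ hU⟩
  obtain ⟨b₀, z₀, -⟩ := hU
  have : Nonempty (Fin n) := ⟨b₀⟩
  have : Nonempty C := ⟨col b₀ z₀⟩
  obtain ⟨used, hused⟩ : ∃ used : C → Prop, ∀ q, used q ↔ ∃ b z, Z b z ∧ col b z = q :=
    ⟨_, fun _ => Iff.rfl⟩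
  have ucol : ∀ b z, Z b z → used (col b z) := fun b z h => (hused _).2 ⟨b, z, h, rfl⟩
  choose US hUS1 hUS2 using hcol.users
  choose CS hCS1 hCS2 using hcol.centre
  choose NS hNS1 hNS2 using hd
  -- representatives
  have hrep : ∀ q, used q → ∃ r, r ∈ mem q ∧ ∀ u ∈ mem q, blk u = blk r := by
    intro q hq
    obtain ⟨b, z, h, rfl⟩ := (hused q).1 hq
    exact ⟨z, hcol.self b z h, fun u hu => (hcol.sub b z h u hu).2⟩
  choose! rep rep1 rep2 using hrep
  choose idx hidx using fun q => exists_fin (mem q) (hcol.size q) hg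
  obtain ⟨lab, hlab⟩ := exists_lab rel mem idx hidx
  choose slot slot1 slot2 using fun u => exists_idx (CS u) (hCS1 u)
  have inCS : ∀ u q, used q → u ∈ mem q → q ∈ CS u := fun u q a b => hCS2 u q ⟨(hused q).1 a, b⟩
  obtain ⟨xi, hxi⟩ := greedy (fun q q' : C => used q ∧ used q' ∧ ∃ u ∈ mem q, ∃ u' ∈ mem q',
      blk u = blk u' ∧ (u = u' ∨ G.Adj u u'))
    (by
      rintro q q' ⟨a, b, u, hu, u', hu', e, f⟩
      exact ⟨b, a, u', hu', u, hu, e.symm, f.imp Eq.symm G.adj_symm⟩)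
    (g * ((d₀ + 1) * J))
    (by
      intro q
      refine ⟨(mem q).biUnion fun u => (insert u (NS u (blk u))).biUnion CS, ?_, ?_⟩
      · refine (card_biUnion_le_card_mul _ _ ((d₀ + 1) * J) fun u _ => ?_).trans
          (Nat.mul_le_mul_right _ (hcol.size q))
        refine (card_biUnion_le_card_mul _ _ J fun u' _ => hCS1 u').trans
          (Nat.mul_le_mul_right _ ((card_insert_le _ _).trans ?_))
        exact Nat.succ_le_succ (hNS1 _ _)
      · rintro q' - ⟨-, b, u, hu, u', hu', e, f⟩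
        refine mem_biUnion.2 ⟨u, hu, mem_biUnion.2 ⟨u', ?_, inCS _ _ b hu'⟩⟩
        rcases f with rfl | f
        · exact mem_insert_self _ _
        · exact mem_insert_of_mem (hNS2 _ _ _ ⟨f, e.symm⟩))
  obtain ⟨rt, hrt⟩ : ∃ rt : C → (Fin g → Option T) × Fin (g * ((d₀ + 1) * J) + 1),
      ∀ q, rt q = (lab q, xi q) := ⟨_, fun _ => rfl⟩
  obtain ⟨ty, hty⟩ : ∃ ty : C → Fin nb × (Fin g → Option T) × Fin (g * ((d₀ + 1) * J) + 1),
      ∀ q q', ty q = ty q' ↔ blk (rep q) = blk (rep q') ∧ rt q = rt q' :=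
    ⟨fun q => (blk (rep q), rt q), fun _ _ => Prod.mk.injEq _ _ _ _ ▸ Iff.rfl⟩
  have K : ∀ q q', used q → used q' → ty q = ty q' → ∀ u ∈ mem q, ∀ u' ∈ mem q',
      (u = u' ∨ G.Adj u u') → q = q' := by
    intro q q' a b e u hu u' hu' f
    obtain ⟨e1, e2⟩ := (hty q q').1 e
    rw [hrt, hrt, Prod.mk.injEq] at e2
    by_contra hne
    exact hxi q q' hne ⟨a, b, u, hu, u', hu', by rw [rep2 q a u hu, rep2 q' b u' hu', e1], f⟩ e2.2
  have tr : ∀ q q', used q → used q' → ty q = ty q' → ∀ u ∈ mem q, ∃ u' ∈ mem q', c u' = c u := by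
    intro q q' a b e u hu
    obtain ⟨e1, e2⟩ := (hty q q').1 e
    rw [hrt, hrt, Prod.mk.injEq] at e2
    obtain ⟨u', hu', f⟩ := hlab q q' e2.1 u hu
    exact ⟨u', hu', (hcl _ _).2 ⟨by rw [rep2 q a u hu, rep2 q' b u' hu', e1], f⟩⟩
  have K2 : ∀ b z q, Z b z → used q → ty q = ty (col b z) → ∀ u ∈ mem q, G.Adj b u →
      q = col b z := by
    intro b z q h a e u hu f
    obtain ⟨u', hu', f'⟩ := tr q _ a (ucol b z h) e u hu
    exact K q _ a (ucol b z h) e u hu u' hu'
      (Or.inl ((hZ b u' (hcol.sub b z h u' hu').1).2 u f f'.symm))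
  -- the first covering
  have hzz : ∀ u y, (∃ z, Z u z ∧ c z = y) → ∃ z, Z u z ∧ c z = y := fun _ _ h => h
  choose! zz zz1 zz2 using hzz
  have zze : ∀ u z, Z u z → zz u (c z) = z := fun u z h =>
    (hZ u z h).2 _ (hZ u _ (zz1 u _ ⟨z, h, rfl⟩)).1 (zz2 u _ ⟨z, h, rfl⟩)
  obtain ⟨ps, ps1, ps2⟩ : ∃ ps : Fin n → ℕ →
      Option ((Fin g → Option T) × Fin (g * ((d₀ + 1) * J) + 1)),
      (∀ v q, used q → v ∈ mem q → ps v (slot v q) = some (rt q)) ∧
        ∀ v j r, ps v j = some r → ∃ q, used q ∧ v ∈ mem q ∧ rt q = r := by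
    refine ⟨fun v j => if h : ∃ q, used q ∧ v ∈ mem q ∧ slot v q = j then some (rt h.choose)
      else none, fun v q a b => ?_, fun v j r e => ?_⟩
    · have h : ∃ q', used q' ∧ v ∈ mem q' ∧ slot v q' = slot v q := ⟨q, a, b, rfl⟩
      simp only [dif_pos h]
      rw [slot2 v _ (inCS _ _ h.choose_spec.1 h.choose_spec.2.1) q (inCS _ _ a b)
        h.choose_spec.2.2]
    · by_cases h : ∃ q, used q ∧ v ∈ mem q ∧ slot v q = j
      · simp only [dif_pos h, Option.some.injEq] at e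
        exact ⟨_, h.choose_spec.1, h.choose_spec.2.1, e⟩
      · simp only [dif_neg h] at e
        exact absurd e.symm (Option.some_ne_none _)
  have R2 := hB n G (Y × ℕ) _ Unit (· ≠ ·)
    (fun u σ => ∃ z, Z u z ∧ (c z, slot z (col u z)) = σ) (fun v σ => σ.1 = c v ∧ σ.2 < J)
    (fun u σ => some (rt (col u (zz u σ.1)))) (fun v σ => ps v σ.2) (fun _ _ => ())
    (L + 4 * D + 1) 2 _ Δ J L D
    (hL _ w (L + 4 * D) hw (by
      simpa only [Fintype.card_option, Fintype.card_prod, Fintype.card_pi, Fintype.card_fin,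
        prod_const, card_univ] using hcard))
    (by omega)
    (fun u => few_image (P := fun z => G.Adj u z)
      ⟨G.neighborFinset u, card_nbr G hΔ u, fun z hz => by simpa using hz⟩
      (fun z => (c z, slot z (col u z))) fun σ ⟨z, a, b⟩ => ⟨z, (hZ u z a).1, b⟩)
    (fun v => few_image (P := fun j => j < J) ⟨range J, (card_range J).le, fun j => mem_range.2⟩
      (fun j => (c v, j)) fun σ h => ⟨σ.2, h.2, Prod.ext h.1.symm rfl⟩)
    (fun u v σ h a b => absurd (a.1.symm.trans b.1) (hc u v h))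
    (by
      rintro u v _ h ⟨z, a, rfl⟩ ⟨b, -⟩
      obtain rfl : v = z := (hZ u z a).2 v h b.symm
      simp only [zze u v a]
      exact (ps1 v _ (ucol u v a) (hcol.self u v a)).symm)
    (by
      rintro ⟨y, j⟩
      refine ⟨fun u => US (col u (zz u y)), fun u => hUS1 _, (hD y).mono le_rfl ?_⟩
      rintro u v ⟨h, ⟨z, a, e⟩, ⟨z', a', e'⟩, hn⟩
      rw [Prod.mk.injEq] at e e'
      refine ⟨h, z, z', hZ u z a, hZ v z' a', e.1, e'.1, ?_⟩
      rintro rfl
      have f : col u z = col v z := slot2 z _ (inCS _ _ (ucol u z a) (hcol.self u z a)) _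
        (inCS _ _ (ucol v z a') (hcol.self v z a')) (e.2.trans e'.2.symm)
      obtain ⟨rfl, -⟩ := e
      simp only [zze u z a, zze v z a'] at hn
      exact hn ⟨by rw [f], hUS2 _ _ ⟨z, a', f.symm⟩, hUS2 _ _ ⟨z, a, f⟩⟩)
  -- the second family of coverings
  have hcc : ∀ v s, (∃ q, used q ∧ v ∈ mem q ∧ ty q = s) → ∃ q, used q ∧ v ∈ mem q ∧ ty q = s :=
    fun _ _ h => h
  choose! cc cc1 cc2 cc3 using hcc
  have hlz : ∀ u s, (∃ z, Z u z ∧ ty (col u z) = s) → ∃ z, Z u z ∧ ty (col u z) = s :=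
    fun _ _ h => h
  choose! lz lz1 lz2 using hlz
  obtain ⟨x, p, hp, hx⟩ := hsep
  have B2 : ∀ i j, Cov G (fun u v => ∃ s, (∃ z, Z u z ∧ ty (col u z) = s) ∧
      (∃ q, used q ∧ v ∈ mem q ∧ ty q = s) ∧
        SepP (p j) (x i) (rep (col u (lz u s))) (rep (cc v s)))
      (m * hi + J * (2 * (L + 2 * D * hi + hi ^ (d + 1)))) := by
    intro i j
    refine (hB n G _ (Fin n) (Fin g) (SepP (p j) (x i))
      (fun u s => ∃ z, Z u z ∧ ty (col u z) = s) (fun v s => ∃ q, used q ∧ v ∈ mem q ∧ ty q = s)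
      (fun u s => rep (col u (lz u s))) (fun v s => rep (cc v s)) (fun v s => idx (cc v s) v)
      (L + 2 * D * p j + 1) (p j) _ m J L D
      (hP _ (p j) d (L + 2 * D * p j) g (x i) (hp j).1 (hp j).2.1) (by omega)
      (fun u => few_image (hcol.leaf u) ty fun s ⟨z, a, b⟩ => ⟨_, ⟨z, a, rfl⟩, b⟩)
      (fun v => few_image (hcol.centre v) ty fun s ⟨q, a, b, e⟩ => ⟨q, ⟨(hused q).1 a, b⟩, e⟩)
      ?_ ?_ ?_).mono (fun u v h => h) ?_
    · intro u v s h a b
      have e : cc u s = cc v s := K _ _ (cc1 u s a) (cc1 v s b)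
        ((cc3 u s a).trans (cc3 v s b).symm) u (cc2 u s a) v (cc2 v s b) (Or.inr h)
      refine ⟨by simp only [e], fun f => h.ne (hidx (cc v s) u (e ▸ cc2 u s a) v (cc2 v s b) ?_)⟩
      simpa only [e] using f
    · intro u v s h a b
      simp only [K2 u _ _ (lz1 u s a) (cc1 v s b) ((cc3 v s b).trans (lz2 u s a).symm) v
        (cc2 v s b) h]
    · intro s
      refine ⟨fun u => US (col u (lz u s)), fun u => hUS1 _, ?_⟩
      by_cases hs : ∃ q, used q ∧ ty q = s
      swap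
      · exact ⟨fun _ => ∅, by simp, fun u v ⟨_, ⟨z, a, e⟩, _⟩ => absurd ⟨_, ucol u z a, e⟩ hs⟩
      obtain ⟨q, hq, hs⟩ := hs
      refine (hD (c (rep q))).mono le_rfl ?_
      rintro u v ⟨h, a, a', hn⟩
      obtain ⟨z, hz, e⟩ := tr q _ hq (ucol u _ (lz1 u s a)) (hs.trans (lz2 u s a).symm) _
        (rep1 q hq)
      obtain ⟨z', hz', e'⟩ := tr q _ hq (ucol v _ (lz1 v s a')) (hs.trans (lz2 v s a').symm) _
        (rep1 q hq)
      refine ⟨h, z, z', hZ u z (hcol.sub u _ (lz1 u s a) z hz).1,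
        hZ v z' (hcol.sub v _ (lz1 v s a') z' hz').1, e, e', fun f => ?_⟩
      have f' : col u (lz u s) = col v (lz v s) := K _ _ (ucol u _ (lz1 u s a))
        (ucol v _ (lz1 v s a')) ((lz2 u s a).trans (lz2 v s a').symm) z hz z' hz' (Or.inl f)
      exact hn ⟨by simp only [f'], hUS2 _ _ ⟨_, lz1 v s a', f'.symm⟩, hUS2 _ _ ⟨_, lz1 u s a, f'⟩⟩
    · have := (hp j).2.2
      gcongr
  refine R2.add (Cov.sum l _ fun i => Cov.sum k _ (B2 i)) ?_ le_rfl
  rintro u v ⟨h, z, a, e⟩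
  by_cases f : some (rt (col u z)) = ps v (slot z (col u z))
  swap
  · refine Or.inl ⟨_, ⟨z, a, rfl⟩, ⟨e, slot1 z _ (inCS _ _ (ucol u z a) (hcol.self u z a))⟩, ?_⟩
    simpa only [zze u z a] using f
  obtain ⟨q, hq, hv, e'⟩ := ps2 v _ _ f.symm
  have t1 : ty q = ty (col u z) := (hty _ _).2 ⟨by
    rw [← rep2 q hq v hv, ← rep2 _ (ucol u z a) z (hcol.self u z a), ((hcl _ _).1 e).1], e'⟩
  have a1 : ∃ z', Z u z' ∧ ty (col u z') = ty q := ⟨z, a, t1.symm⟩
  have a2 : ∃ q', used q' ∧ v ∈ mem q' ∧ ty q' = ty q := ⟨q, hq, hv, rfl⟩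
  have ne : rep (col u (lz u (ty q))) ≠ rep (cc v (ty q)) := by
    intro f'
    have u1 := ucol u _ (lz1 u _ a1)
    have f2 := K _ _ u1 (cc1 v _ a2) ((lz2 u _ a1).trans (cc3 v _ a2).symm) _ (rep1 _ u1) _
      (rep1 _ (cc1 v _ a2)) (Or.inl f')
    exact h (hZ u v (hcol.sub u _ (lz1 u _ a1) v (f2 ▸ cc2 v _ a2)).1).1
  obtain ⟨i, hi', j, hj, hs⟩ := hx _ _ ne
  exact Or.inr ⟨i, hi', j, hj, ty q, a1, a2, hs⟩

end Pool.Agent.MP_a7b5fd_co.X

end MrgPart7

-- marker of a merged file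
example : 731051 + 563285 = 731051 + 563285 := rfl
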