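import Pool.Agent.MP_a7b5fd_co.X.Base
import Pool.Agent.MP_a7b5fd_co.X.Dense

/-! The sharp upper bound. -/

set_option autoImplicit false

namespace Pool.Agent.MP_a7b5fd_co.X

open Real Pool.Agent.MP_a7b5fd_co.H39

theorem upper_sharp {n : ℕ} (G : SimpleGraph (Fin n)) [DecidableRel G.Adj] {Δ : ℕ}
    (hΔ : ∀ v, G.degree v ≤ Δ) (h2 : 2 ≤ Δ) (hn : Δ < n) :
    ∃ k : ℕ, Cov G (fun u v => u ≠ v ∧ ¬G.Adj u v) k ∧
      (k : ℝ) ≤ 6 * 10 ^ 18 * Δ * (log n / log Δ) := by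
  classical
  have hΔ0 : (2 : ℝ) ≤ Δ := by exact_mod_cast h2
  have hn' : (Δ : ℝ) < n := by exact_mod_cast hn
  have hlΔ : 0 < log Δ := log_pos (by linarith)
  have hq : 1 ≤ log n / log Δ := (one_le_div hlΔ).2 (log_le_log (by linarith) hn'.le)
  have hex : ∃ g : ℕ, Δ < 2 ^ (g + 1) ^ 6 := ⟨Δ, Nat.lt_two_pow_self.trans_le
    (Nat.pow_le_pow_right (by norm_num) ((Nat.le_succ Δ).trans (Nat.le_self_pow (by norm_num) _)))⟩
  obtain ⟨g, hg⟩ : ∃ g, g = Nat.find hex := ⟨_, rfl⟩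
  have g1 : Δ < 2 ^ (g + 1) ^ 6 := hg ▸ Nat.find_spec hex
  have g2 : log Δ ≤ ((g + 1) ^ 6 : ℕ) * log 2 := by
    rw [← log_pow]
    exact log_le_log (by linarith) (by exact_mod_cast g1.le)
  have l2 := log_two_lt_d9
  have l2' := log_two_gt_d9
  by_cases hb : 128 ≤ g ∧ log n / log Δ ≤ log Δ
  · have g3 : 2 ^ g ^ 6 ≤ Δ := by
      have := Nat.find_min hex (m := g - 1) (by omega)
      rw [Nat.sub_add_cancel (by omega)] at this
      omega
    have g4 : n ≤ 2 ^ (2 * (g + 1) ^ 12) := by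
      refine le_pow_of_log (by omega) (by norm_num) ?_
      have a1 := (div_le_iff₀ hlΔ).1 hb.2
      have a2 := mul_le_mul g2 g2 hlΔ.le (hlΔ.le.trans g2)
      rw [show (g + 1) ^ 12 = (g + 1) ^ 6 * (g + 1) ^ 6 by ring]
      push_cast at a2 ⊢
      generalize ((g : ℝ) + 1) ^ 6 = x at a2 ⊢
      nlinarith [mul_nonneg (mul_self_nonneg x) (show 0 ≤ log 2 * (2 - log 2) by nlinarith)]
    have g5 : n ≤ Δ ^ ⌈log n / log Δ⌉₊ :=
      le_pow_of_log (by omega) (by omega) ((div_le_iff₀ hlΔ).1 (Nat.le_ceil _))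
    have g6 := Nat.ceil_lt_add_one (zero_le_one.trans hq)
    refine ⟨_, num_cov colour (topc (kill rank greedyR base lin X.hash)) hcol columns
      (dense base lin pal) (sparse base thin) lay G hΔ hb.1 g3 g1 hn g4 g5
      (Nat.ceil_pos.2 (by linarith)), ?_⟩
    push_cast
    generalize log n / log Δ = c at hq g6 ⊢
    nlinarith
  · obtain ⟨k, k1, k2⟩ := H3.upper' G hΔ h2 hn
    refine ⟨k, k1, k2.trans ?_⟩
    have b1 : log (min (Δ : ℝ) (n / Δ)) ≤ log Δ :=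
      log_le_log (lt_min (by linarith) (div_pos (by linarith) (by linarith))) (min_le_left _ _)
    have b2 : log Δ ≤ 128 ^ 6 * (log n / log Δ) := by
      rcases not_and_or.1 hb with h | h
      · have c1 : (g + 1) ^ 6 ≤ 128 ^ 6 := Nat.pow_le_pow_left (by omega) _
        have c2 : (((g + 1) ^ 6 : ℕ) : ℝ) ≤ 128 ^ 6 := by exact_mod_cast c1
        have c3 : (((g + 1) ^ 6 : ℕ) : ℝ) * log 2 ≤ 128 ^ 6 * 1 :=
          mul_le_mul c2 (by linarith) (by linarith) (by norm_num)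
        linarith
      · linarith [not_le.1 h]
    generalize log n / log Δ = c at hq b2 ⊢
    have b6 : 1300000 * (c + log (min (Δ : ℝ) (n / Δ))) ≤ 6 * 10 ^ 18 * c := by linarith
    have b7 := mul_le_mul_of_nonneg_left b6 (show (0 : ℝ) ≤ Δ by linarith)
    linarith

end Pool.Agent.MP_a7b5fd_co.X
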