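import Pool.Agent.MP_a7b5fd_co.h3.Mux

/-! The case of maximum degree one: a matching needs threshold of order `log n`. -/

set_option autoImplicit false

namespace Pool.Agent.MP_a7b5fd_co.X

open Finset

/-- Weakly crossing set pairs. -/
lemma pairs_le {α ι : Type} [DecidableEq α] [Fintype ι] (A B : ι → Finset α) (k : ℕ)
    (hd : ∀ i, Disjoint (A i) (B i)) (hk : ∀ i, (A i).card + (B i).card ≤ k)
    (hx : ∀ i j, i ≠ j → Disjoint (A i) (B j) → Disjoint (A j) (B i) → False) :
    Fintype.card ι ≤ 2 ^ k := by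
  classical
  let L : Finset α := univ.biUnion fun i => A i ∪ B i
  let E : ι → Finset (Finset α) := fun i => L.powerset.filter fun S => A i ⊆ S ∧ Disjoint S (B i)
  have hL : ∀ i, A i ∪ B i ⊆ L := fun i => subset_biUnion_of_mem (fun i => A i ∪ B i) (mem_univ i)
  have h1 : ∀ i, 2 ^ L.card ≤ (E i).card * 2 ^ k := by
    intro i
    have a1 : (L \ (A i ∪ B i)).powerset.card ≤ (E i).card := by
      refine card_le_card_of_injOn (fun S => S ∪ A i) ?_ ?_
      · intro S hS
        have hS' := mem_powerset.1 (mem_coe.1 hS)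
        refine mem_coe.2 (mem_filter.2 ⟨mem_powerset.2 (union_subset (hS'.trans sdiff_subset)
          (subset_union_left.trans (hL i))), subset_union_right, ?_⟩)
        refine disjoint_union_left.2 ⟨disjoint_left.2 fun x hx hb => ?_, hd i⟩
        exact (mem_sdiff.1 (hS' hx)).2 (mem_union_right _ hb)
      · intro S hS T hT h
        have hS' := mem_powerset.1 (mem_coe.1 hS)
        have hT' := mem_powerset.1 (mem_coe.1 hT)
        have h' : S ∪ A i = T ∪ A i := h
        ext x
        constructor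
        · intro hx
          have : x ∈ T ∪ A i := h' ▸ mem_union_left _ hx
          exact (mem_union.1 this).resolve_right
            fun ha => (mem_sdiff.1 (hS' hx)).2 (mem_union_left _ ha)
        · intro hx
          have : x ∈ S ∪ A i := h' ▸ mem_union_left _ hx
          exact (mem_union.1 this).resolve_right
            fun ha => (mem_sdiff.1 (hT' hx)).2 (mem_union_left _ ha)
    rw [card_powerset] at a1
    have a2 : L.card ≤ (L \ (A i ∪ B i)).card + k :=
      (card_le_card_sdiff_add_card (t := A i ∪ B i)).trans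
        (Nat.add_le_add_left ((card_union_le _ _).trans (hk i)) _)
    calc 2 ^ L.card ≤ 2 ^ ((L \ (A i ∪ B i)).card + k) := Nat.pow_le_pow_right (by norm_num) a2
      _ ≤ _ := by rw [pow_add]; exact Nat.mul_le_mul_right _ a1
  have h2 : ∑ i, (E i).card ≤ 2 ^ L.card := by
    rw [← card_biUnion, ← card_powerset]
    · exact card_le_card (biUnion_subset.2 fun i _ => filter_subset _ _)
    · intro i _ j _ hij
      refine disjoint_left.2 fun S hi hj => ?_
      have b1 := (mem_filter.1 hi).2
      have b2 := (mem_filter.1 hj).2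
      exact hx i j hij (b2.2.mono_left b1.1) (b1.2.mono_left b2.1)
  have h3 : Fintype.card ι * 2 ^ L.card ≤ 2 ^ k * 2 ^ L.card := by
    calc Fintype.card ι * 2 ^ L.card = ∑ _i : ι, 2 ^ L.card := by simp
      _ ≤ ∑ i, (E i).card * 2 ^ k := sum_le_sum fun i _ => h1 i
      _ = 2 ^ k * ∑ i, (E i).card := by rw [← sum_mul, mul_comm]
      _ ≤ _ := Nat.mul_le_mul_left _ h2
  exact Nat.le_of_mul_le_mul_right h3 (by positivity)

lemma matching_le {ι : Type} [Fintype ι] {d k : ℕ} (a b : ι → Fin d → ℤ)
    (hk : ∀ i, hammingDist (a i) (b i) ≤ k)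
    (hx : ∀ i j, i ≠ j → hammingDist (a i) (b j) + hammingDist (a j) (b i) <
      hammingDist (a i) (b i) + hammingDist (a j) (b j)) :
    Fintype.card ι ≤ 2 ^ (2 * k) := by
  classical
  let D : ι → Finset (Fin d) := fun i => univ.filter fun c => a i c ≠ b i c
  have hD : ∀ i c, c ∈ D i ↔ a i c ≠ b i c := fun i c => by simp [D]
  have key : ∀ i j, Disjoint ((D i).image fun c => (c, a i c)) ((D j).image fun c => (c, b j c)) ↔
      ∀ c, a i c ≠ b i c → a j c ≠ b j c → a i c ≠ b j c := by
    intro i j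
    rw [disjoint_left]
    constructor
    · intro h c h1 h2 h3
      exact h (mem_image.2 ⟨c, (hD i c).2 h1, rfl⟩) (mem_image.2 ⟨c, (hD j c).2 h2, by rw [h3]⟩)
    · intro h x h1 h2
      obtain ⟨c, c1, rfl⟩ := mem_image.1 h1
      obtain ⟨c', c2, c3⟩ := mem_image.1 h2
      obtain ⟨rfl, c4⟩ := Prod.mk.inj c3
      exact h c' ((hD _ _).1 c1) ((hD _ _).1 c2) c4.symm
  refine pairs_le (fun i => (D i).image fun c => (c, a i c))
    (fun i => (D i).image fun c => (c, b i c)) _ (fun i => (key i i).2 fun c h _ => h)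
    (fun i => ?_) fun i j hij h1 h2 => ?_
  · have e : (D i).card ≤ k := hk i
    have e1 : ((D i).image fun c => (c, a i c)).card ≤ (D i).card := card_image_le
    have e2 : ((D i).image fun c => (c, b i c)).card ≤ (D i).card := card_image_le
    omega
  · refine absurd (hx i j hij) (not_lt.2 ?_)
    simp only [hammingDist, card_filter, ← sum_add_distrib]
    refine sum_le_sum fun c _ => ?_
    have e1 := (key i j).1 h1 c
    have e2 := (key j i).1 h2 c
    split_ifs <;> omega

theorem lower_one (n : ℕ) (hn : 3 ≤ n) :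
    ∃ (G : SimpleGraph (Fin n)) (_ : DecidableRel G.Adj), G.maxDegree = 1 ∧
      ∀ (t : ℤ) (d : ℕ) (f : Fin n → Fin d → ℤ),
        (∀ u v, u ≠ v → (G.Adj u v ↔ t ≤ (hammingDist (f u) (f v) : ℤ))) →
        Real.log n ≤ 4 * Real.log 2 * t := by
  classical
  let G : SimpleGraph (Fin n) :=
    { Adj := fun u v => u ≠ v ∧ u.1 / 2 = v.1 / 2
      symm := ⟨fun u v h => ⟨h.1.symm, h.2.symm⟩⟩
      loopless := ⟨fun u h => h.1 rfl⟩ }
  have hG : ∀ u v, G.Adj u v ↔ u ≠ v ∧ u.1 / 2 = v.1 / 2 := fun _ _ => Iff.rfl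
  refine ⟨G, inferInstance, le_antisymm ?_ ?_, ?_⟩
  · refine G.maxDegree_le_of_forall_degree_le _ fun v => ?_
    rw [← SimpleGraph.card_neighborFinset_eq_degree]
    refine card_le_one.2 fun x hx y hy => ?_
    rw [SimpleGraph.mem_neighborFinset, hG, Ne, Fin.ext_iff] at hx hy
    exact Fin.ext (by omega)
  · refine le_trans ?_ (G.degree_le_maxDegree ⟨0, by omega⟩)
    exact (G.degree_pos_iff_exists_adj _).2 ⟨⟨1, by omega⟩, by simp [hG]⟩
  · intro t d f hf
    have far : ∀ u v : Fin n, u.1 / 2 ≠ v.1 / 2 → (hammingDist (f u) (f v) : ℤ) < t := by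
      intro u v h
      exact not_le.1 fun h' => h ((hf u v fun e => h (by rw [e])).2 h').2
    have ht : 0 < t := lt_of_le_of_lt (Int.natCast_nonneg _)
      (far ⟨0, by omega⟩ ⟨2, by omega⟩ (by norm_num))
    obtain ⟨k, rfl⟩ : ∃ k : ℕ, t = (k : ℤ) + 1 := ⟨(t - 1).toNat, by omega⟩
    let a : Fin (n / 2) → Fin n := fun i => ⟨2 * i.1, by omega⟩
    let b : Fin (n / 2) → Fin n := fun i => ⟨2 * i.1 + 1, by omega⟩
    have ha : ∀ i, (a i).1 / 2 = i.1 := fun i => by simp only [a]; omega
    have hb : ∀ i, (b i).1 / 2 = i.1 := fun i => by simp only [b]; omega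
    have near : ∀ i, (k : ℤ) + 1 ≤ hammingDist (f (a i)) (f (b i)) := by
      intro i
      have e : a i ≠ b i := fun e => by
        have := congrArg Fin.val e
        simp only [a, b] at this
        omega
      exact (hf _ _ e).1 ⟨e, by rw [ha, hb]⟩
    have h := matching_le (k := 2 * k) (fun i => f (a i)) (fun i => f (b i)) (fun i => ?_)
      fun i j hij => ?_
    · rw [Fintype.card_fin] at h
      have h1 : n ≤ 2 ^ (4 * (k + 1)) := by
        rw [show 4 * (k + 1) = 2 * (2 * k) + 4 by ring, pow_add]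
        have := Nat.one_le_two_pow (n := 2 * (2 * k))
        omega
      have h2 : Real.log n ≤ Real.log ((2 : ℝ) ^ (4 * (k + 1))) :=
        Real.log_le_log (by exact_mod_cast (by omega : 0 < n)) (by exact_mod_cast h1)
      rw [Real.log_pow] at h2
      push_cast at h2 ⊢
      linarith
    · obtain ⟨w, hw⟩ : ∃ w : Fin n, w.1 / 2 ≠ i.1 := by
        by_cases h0 : i.1 = 0
        · exact ⟨⟨2, by omega⟩, by simp [h0]⟩
        · exact ⟨⟨0, by omega⟩, by simpa using fun e => h0 e.symm⟩
      have e1 := far (a i) w (by rw [ha]; exact hw.symm)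
      have e2 := far w (b i) (by rw [hb]; exact hw)
      have e3 := hammingDist_triangle (f (a i)) (f w) (f (b i))
      omega
    · have hij' : i.1 ≠ j.1 := fun e => hij (Fin.ext e)
      have e1 := far (a i) (b j) (by rw [ha, hb]; exact hij')
      have e2 := far (a j) (b i) (by rw [ha, hb]; exact hij'.symm)
      have e3 := near i
      have e4 := near j
      omega

end Pool.Agent.MP_a7b5fd_co.X
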